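import Mathlib

open Polynomial

namespace Pool.Agent.Helper45.HR

theorem sylvester_affine {R : Type*} [CommRing R] (f0 f1 g0 g1 : R[X]) (m n : ℕ) (s : R) :
    sylvester (f0 + C s * f1) (g0 + C s * g1) m n =
      s • sylvester f1 g1 m n + sylvester f0 g0 m n := by
  ext i j
  simp only [sylvester, Matrix.of_apply, Matrix.add_apply, Matrix.smul_apply]
  refine j.addCases ?_ ?_
  · intro j
    simp only [Fin.addCases_left]
    split_ifs <;> simp [add_comm]
  · intro j
    simp only [Fin.addCases_right]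
    split_ifs <;> simp [add_comm]

/-- polynomial dependence of the resultant on one parameter -/
theorem exists_poly {R : Type*} [CommRing R] (f0 f1 g0 g1 : R[X]) (m n : ℕ) :
    ∃ p : R[X], p.natDegree ≤ m + n ∧
      ∀ s : R, p.eval s = resultant (f0 + C s * f1) (g0 + C s * g1) m n := by
  refine ⟨((X : R[X]) • (sylvester f1 g1 m n).map C + (sylvester f0 g0 m n).map C).det, ?_, ?_⟩
  · have h := natDegree_det_X_add_C_le (sylvester f1 g1 m n) (sylvester f0 g0 m n)
    rwa [Fintype.card_fin] at h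
  · intro s
    rw [resultant, sylvester_affine, ← coe_evalRingHom, RingHom.map_det]
    congr 1
    ext i j
    simp only [RingHom.mapMatrix_apply, Matrix.map_apply, Matrix.add_apply, Matrix.smul_apply,
      smul_eq_mul, coe_evalRingHom, eval_add, eval_mul, eval_X, eval_C]

/-- multiplicativity with formal degrees, left -/
theorem res_mul_left {R : Type*} [CommRing R] (f₁ f₂ g : R[X]) (a b N : ℕ)
    (h1 : f₁.natDegree ≤ a) (h2 : f₂.natDegree ≤ b) (hg : g.natDegree ≤ N) :
    resultant (f₁ * f₂) g (a + b) N = resultant f₁ g a N * resultant f₂ g b N := by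
  obtain ⟨a', rfl⟩ := Nat.exists_eq_add_of_le h1
  obtain ⟨b', rfl⟩ := Nat.exists_eq_add_of_le h2
  have e : f₁.natDegree + a' + (f₂.natDegree + b') =
      (f₁.natDegree + f₂.natDegree) + (a' + b') := by ring
  rw [e, resultant_add_left_deg _ _ _ _ _ natDegree_mul_le, resultant_add_left_deg _ _ _ _ _ le_rfl,
    resultant_add_left_deg _ _ _ _ _ le_rfl, resultant_mul_left _ _ _ _ hg]
  ring

/-- multiplicativity with formal degrees, right -/
theorem res_mul_right {R : Type*} [CommRing R] (f g₁ g₂ : R[X]) (a b N : ℕ)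
    (h1 : g₁.natDegree ≤ a) (h2 : g₂.natDegree ≤ b) (hf : f.natDegree ≤ N) :
    resultant f (g₁ * g₂) N (a + b) = resultant f g₁ N a * resultant f g₂ N b := by
  rw [resultant_comm, res_mul_left _ _ _ _ _ _ h1 h2 hf, resultant_comm f g₁, resultant_comm f g₂]
  ring

/-- finitely many grid points at which a polynomial is small compared with its value at `x₀` -/
theorem grid (E : Finset ℂ) (x₀ : ℂ) (D : ℕ) : ∃ c : ℝ, 0 < c ∧ c ≤ 1 ∧ ∀ p : ℂ[X],
    p.natDegree ≤ D → (E.filter (fun e => ‖p.eval e‖ < c * ‖p.eval x₀‖)).card ≤ D := by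
  classical
  -- constant for a subset of size `D + 1`
  have h1 : ∀ s : Finset ℂ, ∃ K : ℝ, 1 ≤ K ∧ ∀ p : ℂ[X], p.natDegree < s.card → ∀ M : ℝ,
      (∀ e ∈ s, ‖p.eval e‖ ≤ M) → ‖p.eval x₀‖ ≤ K * M := by
    intro s
    refine ⟨1 + ∑ e ∈ s, ‖(Lagrange.basis s id e).eval x₀‖, ?_, ?_⟩
    · have : 0 ≤ ∑ e ∈ s, ‖(Lagrange.basis s id e).eval x₀‖ :=
        Finset.sum_nonneg fun _ _ => norm_nonneg _
      linarith
    · intro p hp M hM
      have hs : s.Nonempty := by
        rw [← Finset.card_pos]; omega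
      obtain ⟨e0, he0⟩ := hs
      have hM0 : 0 ≤ M := (norm_nonneg _).trans (hM e0 he0)
      have hdeg : p.degree < s.card := by
        by_cases h0 : p = 0
        · rw [h0, degree_zero]
          exact WithBot.bot_lt_coe _
        · rw [degree_eq_natDegree h0]
          exact_mod_cast hp
      have h2 := Lagrange.eq_interpolate (s := s) (v := id) (f := p) (Set.injOn_id _) hdeg
      have h3 : p.eval x₀ = ∑ e ∈ s, p.eval e * (Lagrange.basis s id e).eval x₀ := by
        conv_lhs => rw [h2]
        rw [Lagrange.interpolate_apply, eval_finsetSum]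
        simp
      rw [h3]
      calc ‖∑ e ∈ s, p.eval e * (Lagrange.basis s id e).eval x₀‖
          ≤ ∑ e ∈ s, ‖p.eval e * (Lagrange.basis s id e).eval x₀‖ := norm_sum_le _ _
        _ ≤ ∑ e ∈ s, M * ‖(Lagrange.basis s id e).eval x₀‖ := by
            apply Finset.sum_le_sum
            intro e he
            rw [norm_mul]
            exact mul_le_mul_of_nonneg_right (hM e he) (norm_nonneg _)
        _ = (∑ e ∈ s, ‖(Lagrange.basis s id e).eval x₀‖) * M := by
            rw [← Finset.mul_sum, mul_comm]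
        _ ≤ _ := by
            apply mul_le_mul_of_nonneg_right _ hM0
            linarith
  choose K hK1 hK using h1
  set K' : ℝ := 1 + ∑ s ∈ E.powerset, K s with hK'
  have hK'0 : ∀ s ∈ E.powerset, K s < K' := by
    intro s hs
    have : K s ≤ ∑ s ∈ E.powerset, K s :=
      Finset.single_le_sum (f := K) (fun s _ => by linarith [hK1 s]) hs
    rw [hK']
    linarith
  have hK'1 : 1 < K' := lt_of_le_of_lt (hK1 ∅) (hK'0 ∅ (Finset.empty_mem_powerset _))
  refine ⟨1 / K', by positivity, by rw [div_le_one (by linarith)]; exact hK'1.le, ?_⟩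
  intro p hp
  by_contra hcard
  push Not at hcard
  obtain ⟨s, hs, hsc⟩ := Finset.exists_subset_card_eq (Nat.succ_le_of_lt hcard)
  have hsE : s ∈ E.powerset := Finset.mem_powerset.2 (hs.trans (Finset.filter_subset _ _))
  have h3 := hK s p (by omega) (1 / K' * ‖p.eval x₀‖) (fun e he =>
    (Finset.mem_filter.1 (hs he)).2.le)
  have hpos : 0 < ‖p.eval x₀‖ := by
    have hne : s.Nonempty := by rw [← Finset.card_pos]; omega
    obtain ⟨e, he⟩ := hne
    have h4 := (Finset.mem_filter.1 (hs he)).2
    by_contra h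
    have : ‖p.eval x₀‖ = 0 := le_antisymm (not_lt.1 h) (norm_nonneg _)
    rw [this, mul_zero] at h4
    exact absurd h4 (not_lt.2 (norm_nonneg _))
  have h5 : K s * (1 / K' * ‖p.eval x₀‖) < ‖p.eval x₀‖ := by
    have h6 := hK'0 s hsE
    rw [← mul_assoc, mul_one_div]
    have : K s / K' < 1 := by rw [div_lt_one (by linarith)]; exact h6
    nlinarith
  linarith

/-- avoidance of finitely many points by a small integer combination -/
theorem avoid (k : ℕ) (Z : Finset ℂ) (F : ℕ → ℂ[X]) (h : ∀ ζ ∈ Z, ∃ a < k, (F a).eval ζ ≠ 0) :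
    ∃ m : ℕ → ℕ, (∀ a < k, m a ≤ (Z.card * k + 1) ^ k) ∧
      ∀ ζ ∈ Z, (∑ a ∈ Finset.range k, C ((m a : ℂ)) * F a).eval ζ ≠ 0 := by
  classical
  -- bad parameters
  have h1 : ∀ ζ ∈ Z, ∃ p : ℂ[X], p ≠ 0 ∧ p.natDegree ≤ k ∧
      ∀ t : ℂ, p.eval t = (∑ a ∈ Finset.range k, C (t ^ a) * F a).eval ζ := by
    intro ζ hζ
    refine ⟨∑ a ∈ Finset.range k, C ((F a).eval ζ) * X ^ a, ?_, ?_, ?_⟩
    · obtain ⟨a, ha, hne⟩ := h ζ hζ
      intro h0
      apply hne
      have h2 := congrArg (fun q : ℂ[X] => q.coeff a) h0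
      simp only [finsetSum_coeff, coeff_C_mul, coeff_X_pow, coeff_zero] at h2
      rw [Finset.sum_eq_single a] at h2
      · simpa using h2
      · intro b _ hb
        rw [if_neg hb.symm, mul_zero]
      · intro hna
        exact absurd (Finset.mem_range.2 ha) hna
    · apply natDegree_sum_le_of_forall_le
      intro a ha
      refine (natDegree_C_mul_X_pow_le _ _).trans ?_
      have := Finset.mem_range.1 ha
      omega
    · intro t
      simp only [eval_finsetSum, eval_mul, eval_C, eval_pow, eval_X]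
      exact Finset.sum_congr rfl fun a _ => by ring
  choose! p hp0 hpd hpe using h1
  set bad : Finset ℂ := Z.biUnion fun ζ => (p ζ).roots.toFinset with hbad
  have hbc : bad.card ≤ Z.card * k := by
    refine Finset.card_biUnion_le.trans ?_
    calc ∑ ζ ∈ Z, (p ζ).roots.toFinset.card ≤ ∑ ζ ∈ Z, k := by
          apply Finset.sum_le_sum
          intro ζ hζ
          exact (Multiset.toFinset_card_le _).trans ((card_roots' _).trans (hpd ζ hζ))
      _ = _ := by rw [Finset.sum_const, smul_eq_mul]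
  set grid : Finset ℂ := (Finset.range (Z.card * k + 1)).image (fun j : ℕ => ((j : ℂ) + 1))
    with hgrid
  have hgc : grid.card = Z.card * k + 1 := by
    rw [hgrid, Finset.card_image_of_injective, Finset.card_range]
    intro x y hxy
    simpa using hxy
  obtain ⟨t, ht, htb⟩ := Finset.exists_mem_notMem_of_card_lt_card
    (show bad.card < grid.card by omega)
  obtain ⟨j, hj, rfl⟩ := Finset.mem_image.1 ht
  refine ⟨fun a => (j + 1) ^ a, ?_, ?_⟩
  · intro a ha
    have hj' := Finset.mem_range.1 hj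
    calc (j + 1) ^ a ≤ (Z.card * k + 1) ^ a := Nat.pow_le_pow_left (by omega) _
      _ ≤ (Z.card * k + 1) ^ k := Nat.pow_le_pow_right (by omega) ha.le
  · intro ζ hζ h0
    apply htb
    rw [hbad, Finset.mem_biUnion]
    refine ⟨ζ, hζ, ?_⟩
    rw [Multiset.mem_toFinset, mem_roots (hp0 ζ hζ), IsRoot.def, hpe ζ hζ]
    rw [← h0]
    congr 1
    apply Finset.sum_congr rfl
    intro a _
    push_cast
    rfl

/-- integrality: the resultant of two integer polynomials without common root is at least `1` -/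
theorem res_ge_one (h Y : ℤ[X]) (N : ℕ) (h0 : h ≠ 0) (hY : Y.natDegree ≤ N)
    (hne : ∀ ζ ∈ (h.map (Int.castRingHom ℂ)).roots, (Y.map (Int.castRingHom ℂ)).eval ζ ≠ 0) :
    1 ≤ ‖resultant (h.map (Int.castRingHom ℂ)) (Y.map (Int.castRingHom ℂ)) h.natDegree N‖ := by
  have hinj : Function.Injective (Int.castRingHom ℂ) := RingHom.injective_int _
  have hdeg : (h.map (Int.castRingHom ℂ)).natDegree = h.natDegree :=
    natDegree_map_eq_of_injective hinj _
  have h1 : resultant (h.map (Int.castRingHom ℂ)) (Y.map (Int.castRingHom ℂ)) h.natDegree N ≠ 0 := by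
    rw [← hdeg, resultant_eq_prod_eval _ _ N (natDegree_map_le.trans hY)
      (IsAlgClosed.splits _)]
    apply mul_ne_zero
    · apply pow_ne_zero
      rw [leadingCoeff_ne_zero]
      exact (Polynomial.map_ne_zero_iff hinj).2 h0
    · intro hz
      rw [Multiset.prod_eq_zero_iff, Multiset.mem_map] at hz
      obtain ⟨ζ, hζ, hζ0⟩ := hz
      exact hne ζ hζ hζ0
  rw [resultant_map_map] at h1 ⊢
  rw [eq_intCast] at h1 ⊢
  have h2 : resultant h Y h.natDegree N ≠ 0 := by
    intro h3
    rw [h3] at h1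
    exact h1 (by simp)
  rw [Complex.norm_intCast]
  exact_mod_cast Int.one_le_abs h2

end Pool.Agent.Helper45.HR
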