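import Pool.Agent.Helper12.DiscJac
import Pool.Agent.Helper45.DLat
import Pool.Agent.Helper45.HR.Res
import Mathlib

open Polynomial

namespace Pool.Agent.Helper45.HR

open Pool.Agent.Helper12.Disc Pool.Agent.Helper45.Disc

variable {n : ℕ}

/-- the Bezoutian as a function -/
noncomputable def bz (F G : ℂ[X]) (x y : ℂ) : ℂ :=
  if x = y then F.derivative.eval x * G.eval x - F.eval x * G.derivative.eval x
  else (F.eval x * G.eval y - F.eval y * G.eval x) / (x - y)

theorem bz_symm (F G : ℂ[X]) (x y : ℂ) : bz F G x y = bz F G y x := by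
  unfold bz
  by_cases h : x = y
  · subst h; rfl
  · rw [if_neg h, if_neg (fun h' => h h'.symm)]
    have h1 : x - y ≠ 0 := sub_ne_zero.2 h
    have h2 : y - x ≠ 0 := sub_ne_zero.2 (fun h' => h h'.symm)
    rw [div_eq_div_iff h1 h2]
    ring

theorem bz_poly (hn : 1 ≤ n) (F G : ℂ[X]) (hF : F.natDegree ≤ n) (hG : G.natDegree ≤ n) (y : ℂ) :
    ∃ q : ℂ[X], q.degree < n ∧ ∀ x, q.eval x = bz F G x y := by
  set P : ℂ[X] := C (G.eval y) * F - C (F.eval y) * G with hP
  have hroot : P.IsRoot y := by
    rw [IsRoot.def, hP]
    simp [mul_comm]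
  have hq := mul_divByMonic_eq_iff_isRoot.2 hroot
  set q : ℂ[X] := P /ₘ (X - C y) with hqdef
  have hPd : P.natDegree ≤ n := by
    apply (natDegree_sub_le _ _).trans
    exact max_le ((natDegree_C_mul_le _ _).trans hF) ((natDegree_C_mul_le _ _).trans hG)
  refine ⟨q, ?_, ?_⟩
  · by_cases h0 : q = 0
    · rw [h0, degree_zero]
      exact WithBot.bot_lt_coe _
    · rw [degree_eq_natDegree h0]
      have h1 : q.natDegree = P.natDegree - 1 := by
        rw [hqdef, natDegree_divByMonic _ (monic_X_sub_C y), natDegree_X_sub_C]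
      have h2 : q.natDegree < n := by omega
      exact_mod_cast h2
  · intro x
    unfold bz
    by_cases h : x = y
    · rw [if_pos h, h]
      have h1 := congrArg (fun p : ℂ[X] => p.derivative.eval y) hq
      simp only [derivative_mul, derivative_sub, derivative_X, derivative_C, sub_zero, one_mul,
        eval_add, eval_mul, eval_sub, eval_X, eval_C, sub_self, zero_mul, add_zero, hP, zero_add] at h1
      rw [h1]
      ring
    · rw [if_neg h]
      have h1 := congrArg (fun p : ℂ[X] => p.eval x) hq
      simp only [eval_mul, eval_sub, eval_X, eval_C, hP] at h1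
      rw [eq_div_iff (sub_ne_zero.2 h), mul_comm, h1]
      ring

/-- evaluation matrix of the Lagrange basis -/
noncomputable def LM (α β : Fin n → ℂ) : Matrix (Fin n) (Fin n) ℂ :=
  Matrix.of fun i k => (Lagrange.basis Finset.univ α k).eval (β i)

theorem lagrange_eval (α : Fin n → ℂ) (hα : Function.Injective α) (q : ℂ[X]) (hq : q.degree < n)
    (x : ℂ) : q.eval x = ∑ k, q.eval (α k) * (Lagrange.basis Finset.univ α k).eval x := by
  have h2 := Lagrange.eq_interpolate (s := (Finset.univ : Finset (Fin n))) (v := α) (f := q)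
    hα.injOn (by rw [Finset.card_univ, Fintype.card_fin]; exact hq)
  conv_lhs => rw [h2]
  rw [Lagrange.interpolate_apply, eval_finsetSum]
  simp

theorem LM_vand (α β : Fin n → ℂ) (hα : Function.Injective α) :
    Matrix.vandermonde β = LM α β * Matrix.vandermonde α := by
  ext i m
  rw [Matrix.vandermonde_apply, Matrix.mul_apply]
  have h1 := lagrange_eval α hα (X ^ (m : ℕ)) (by
    rw [degree_X_pow]
    exact_mod_cast m.2) (β i)
  rw [eval_pow, eval_X] at h1
  rw [h1]
  apply Finset.sum_congr rfl
  intro k _
  rw [eval_pow, eval_X, Matrix.vandermonde_apply, LM, Matrix.of_apply, mul_comm]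

theorem LM_bz (hn : 1 ≤ n) (α β : Fin n → ℂ) (hα : Function.Injective α) (F G : ℂ[X])
    (hF : F.natDegree ≤ n) (hG : G.natDegree ≤ n) :
    (Matrix.of fun i j => bz F G (β i) (β j)) =
      LM α β * (Matrix.of fun i j => bz F G (α i) (α j)) * (LM α β).transpose := by
  have h1 : ∀ x y, bz F G x y = ∑ k, bz F G (α k) y *
      (Lagrange.basis Finset.univ α k).eval x := by
    intro x y
    obtain ⟨q, hq, hqe⟩ := bz_poly hn F G hF hG y
    rw [← hqe, lagrange_eval α hα q hq]
    apply Finset.sum_congr rfl
    intro k _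
    rw [hqe]
  ext i j
  rw [Matrix.of_apply, Matrix.mul_apply, h1]
  -- expand in the first variable at `β i`, then in the second at `β j`
  have h2 : ∀ k, bz F G (α k) (β j) = ∑ l, bz F G (α k) (α l) *
      (Lagrange.basis Finset.univ α l).eval (β j) := by
    intro k
    rw [bz_symm, h1]
    apply Finset.sum_congr rfl
    intro l _
    rw [bz_symm]
  simp_rw [h2, Finset.sum_mul]
  rw [Finset.sum_comm]
  apply Finset.sum_congr rfl
  intro l _
  rw [Matrix.mul_apply, Matrix.transpose_apply, LM, Matrix.of_apply, Finset.sum_mul]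
  apply Finset.sum_congr rfl
  intro k _
  rw [Matrix.of_apply, Matrix.of_apply]
  ring

theorem bez_sep (hn : 1 ≤ n) (β α : Fin n → ℂ) (hα : Function.Injective α) (a : ℂ) (ha : a ≠ 0)
    (G : ℂ[X]) (hG : G.natDegree ≤ n) :
    D2 β * ‖resultant (C a * ofRoots α) G n n‖ =
      ‖(Matrix.of fun i j => bz (C a * ofRoots α) G (β i) (β j)).det‖ := by
  set F : ℂ[X] := C a * ofRoots α with hF
  have hdeg : F.natDegree = n := by
    rw [hF, natDegree_C_mul ha, ofRoots_natDegree]
  have hlead : F.leadingCoeff = a := by
    rw [hF, leadingCoeff_mul, leadingCoeff_C, (ofRoots_monic α).leadingCoeff, mul_one]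
  have hroots : F.roots = Finset.univ.val.map α := by
    rw [hF, roots_C_mul _ ha, ofRoots_roots]
  have hres : resultant F G n n = a ^ n * ∏ k, G.eval (α k) := by
    have h := resultant_eq_prod_eval F G n hG (IsAlgClosed.splits F)
    rw [hdeg] at h
    rw [h, hlead, hroots, Multiset.map_map]
    rfl
  have heval : ∀ k, F.eval (α k) = 0 := by
    intro k
    rw [hF, eval_mul, eval_ofRoots, Finset.prod_eq_zero (Finset.mem_univ k) (sub_self _), mul_zero]
  have hder : ∀ k, F.derivative.eval (α k) = a * ∏ j ∈ Finset.univ.erase k, (α k - α j) := by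
    intro k
    rw [hF, derivative_C_mul, eval_mul, eval_C, eval_derivative_ofRoots]
  have hdiag : (Matrix.of fun i j => bz F G (α i) (α j)) =
      Matrix.diagonal fun k => F.derivative.eval (α k) * G.eval (α k) := by
    ext i j
    rw [Matrix.of_apply, Matrix.diagonal_apply]
    unfold bz
    by_cases h : i = j
    · subst h
      rw [if_pos rfl, if_pos rfl, heval, zero_mul, sub_zero]
    · rw [if_neg h, if_neg (fun h' => h (hα h')), heval, heval]
      simp
  have hbz := LM_bz hn α β hα F G hdeg.le hG
  rw [hbz, Matrix.det_mul, Matrix.det_mul, Matrix.det_transpose, hdiag, Matrix.det_diagonal, hres]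
  have hv := congrArg Matrix.det (LM_vand α β hα)
  rw [Matrix.det_mul] at hv
  rw [← norm_vand_sq β, hv]
  simp only [norm_mul, norm_pow, norm_prod, Finset.prod_mul_distrib]
  have h1 : ∏ k, ‖F.derivative.eval (α k)‖ = ‖a‖ ^ n * D2 α := by
    simp_rw [hder, norm_mul, norm_prod]
    rw [Finset.prod_mul_distrib, Finset.prod_const, Finset.card_univ, Fintype.card_fin]
    rfl
  rw [h1, ← norm_vand_sq α]
  ring

theorem bez (hn : 1 ≤ n) (β : Fin n → ℂ) (hβ : Function.Injective β) (F G : ℂ[X])
    (hF : F.natDegree ≤ n) (hG : G.natDegree ≤ n) :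
    D2 β * ‖resultant F G n n‖ = ‖(Matrix.of fun i j => bz F G (β i) (β j)).det‖ := by
  classical
  set N : ℂ[X] := ofRoots β with hN
  have hNd : N.natDegree = n := ofRoots_natDegree β
  have hNm : N.Monic := ofRoots_monic β
  have hD2 : D2 β ≠ 0 := by
    unfold D2
    rw [Finset.prod_ne_zero_iff]
    intro i _
    rw [Finset.prod_ne_zero_iff]
    intro j hj
    rw [norm_ne_zero_iff, sub_ne_zero]
    exact fun h => (Finset.ne_of_mem_erase hj) (hβ h).symm
  obtain ⟨p, -, hp⟩ := exists_poly N F (derivative N) (derivative F) n (n - 1)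
  have hp0 : p ≠ 0 := by
    intro h0
    have h1 := hp 0
    rw [h0, eval_zero, map_zero, zero_mul, zero_mul, add_zero, add_zero] at h1
    have h2 := norm_resultant hn 1 one_ne_zero β
    rw [map_one, one_mul, ← hN, ← h1, norm_zero, norm_one, one_pow, one_mul] at h2
    exact hD2 h2.symm
  set bad : Finset ℂ := insert 0 (insert (-F.coeff n) (p.roots.toFinset.image fun s => s⁻¹))
    with hbad
  have hgood : ∀ t, t ∉ bad → D2 β * ‖resultant (F + C t * N) G n n‖ =
      ‖(Matrix.of fun i j => bz (F + C t * N) G (β i) (β j)).det‖ := by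
    intro t ht
    rw [hbad, Finset.mem_insert, Finset.mem_insert, not_or, not_or] at ht
    obtain ⟨ht0, ht1, ht2⟩ := ht
    have hcoeff : (F + C t * N).coeff n = F.coeff n + t := by
      rw [coeff_add, coeff_C_mul]
      have h1 : N.coeff n = 1 := by
        have := hNm.coeff_natDegree
        rwa [hNd] at this
      rw [h1, mul_one]
    have hcoeff0 : (F + C t * N).coeff n ≠ 0 := by
      rw [hcoeff]
      intro h
      apply ht1
      linear_combination h
    have hdle : (F + C t * N).natDegree ≤ n := by
      apply natDegree_add_le_of_degree_le hF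
      exact (natDegree_C_mul_le _ _).trans hNd.le
    have hdeg : (F + C t * N).natDegree = n :=
      le_antisymm hdle (le_natDegree_of_ne_zero hcoeff0)
    obtain ⟨α, hα⟩ := exists_ofRoots (F + C t * N) n hdeg
    have hlead : (F + C t * N).leadingCoeff ≠ 0 := by
      rw [leadingCoeff, hdeg]
      exact hcoeff0
    set a : ℂ := (F + C t * N).leadingCoeff with ha
    have hαinj : Function.Injective α := by
      have h1 : N + C t⁻¹ * F = C (t⁻¹ * a) * ofRoots α := by
        rw [map_mul, mul_assoc, ← hα, mul_add, ← mul_assoc, ← map_mul, inv_mul_cancel₀ ht0,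
          map_one, one_mul, add_comm]
      have h2 : derivative N + C t⁻¹ * derivative F = derivative (C (t⁻¹ * a) * ofRoots α) := by
        rw [← h1, derivative_add, derivative_C_mul]
      have h3 : p.eval t⁻¹ ≠ 0 := by
        intro h3
        apply ht2
        rw [Finset.mem_image]
        refine ⟨t⁻¹, ?_, inv_inv t⟩
        rw [Multiset.mem_toFinset, mem_roots hp0]
        exact h3
      rw [hp, h1, h2] at h3
      have h4 := norm_resultant hn (t⁻¹ * a) (mul_ne_zero (inv_ne_zero ht0) hlead) α
      have h5 : D2 α ≠ 0 := by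
        intro h5
        rw [h5, mul_zero, norm_eq_zero] at h4
        exact h3 h4
      intro i j hij
      by_contra hne
      apply h5
      unfold D2
      apply Finset.prod_eq_zero (Finset.mem_univ i)
      apply Finset.prod_eq_zero (Finset.mem_erase.2 ⟨Ne.symm hne, Finset.mem_univ j⟩)
      rw [hij, sub_self, norm_zero]
    rw [hα]
    exact bez_sep hn β α hαinj a hlead G hG
  -- continuity
  have hc1 : Continuous fun t : ℂ => D2 β * ‖resultant (F + C t * N) G n n‖ := by
    obtain ⟨p1, -, hp1⟩ := exists_poly F N G 0 n n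
    have h1 : (fun t : ℂ => D2 β * ‖resultant (F + C t * N) G n n‖) =
        fun t => D2 β * ‖p1.eval t‖ := by
      funext t
      rw [hp1, mul_zero, add_zero]
    rw [h1]
    exact continuous_const.mul p1.continuous.norm
  have hc2 : Continuous fun t : ℂ =>
      ‖(Matrix.of fun i j => bz (F + C t * N) G (β i) (β j)).det‖ := by
    apply Continuous.norm
    apply Continuous.matrix_det
    apply continuous_matrix
    intro i j
    simp only [Matrix.of_apply]
    have h1 : ∀ t, bz (F + C t * N) G (β i) (β j) =
        bz F G (β i) (β j) + t * bz N G (β i) (β j) := by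
      intro t
      unfold bz
      split_ifs
      · simp only [derivative_add, derivative_C_mul, eval_add, eval_mul, eval_C]
        ring
      · simp only [eval_add, eval_mul, eval_C]
        ring
    simp_rw [h1]
    fun_prop
  have hdense : Dense ((bad : Set ℂ)ᶜ) := by
    have : Set.Countable (bad : Set ℂ) := bad.finite_toSet.countable
    exact this.dense_compl ℝ
  have heq := Continuous.ext_on hdense hc1 hc2 (fun t ht => hgood t (by simpa using ht))
  have h0 := congrFun heq 0
  have e : F + C 0 * N = F := by rw [map_zero, zero_mul, add_zero]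
  simp only [e] at h0
  rw [e] at h0
  exact h0

end Pool.Agent.Helper45.HR
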