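import Pool.Agent.Helper45.DBody
import Pool.Agent.Helper45.DLatB
import Mathlib

open Polynomial

namespace Pool.Agent.Helper45.HR

open Pool.Agent.Helper12.Disc Pool.Agent.Helper45.Disc

variable {n : ℕ}

/-- the weights of the rows -/
noncomputable def gg (z : Fin n → ℂ) (A : ℝ) (i : Fin (n + 1)) : ℝ :=
  Fin.lastCases (motive := fun _ => ℝ) (1 / A) (fun l => 1 / (A * ww z l)) i

theorem gg_last (z : Fin n → ℂ) (A : ℝ) : gg z A (Fin.last n) = 1 / A := by
  unfold gg; simp

theorem gg_castSucc (z : Fin n → ℂ) (A : ℝ) (l : Fin n) :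
    gg z A l.castSucc = 1 / (A * ww z l) := by
  unfold gg; simp

/-- the matrix of the body -/
noncomputable def LL (σ : Fin n → Fin n) (z : Fin n → ℂ) (A : ℝ) :
    Matrix (Fin (n + 1)) (Fin (n + 1)) ℝ :=
  Matrix.of fun i k => gg z A i * BB σ z i k

theorem LL_det (σ : Fin n → Fin n) (hσ : ∀ l, σ (σ l) = l) (z : Fin n → ℂ)
    (hz : ∀ l, z (σ l) = (starRingEnd ℂ) (z l)) (hw : ∀ l, 0 < ww z l) (A : ℝ) (hA : 0 < A) :
    |(LL σ z A).det| = (1 / (A ^ (n + 1) * ∏ l, ww z l)) *
      (Real.sqrt (D2 z) / ‖(Nmat σ).det‖) := by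
  have hdetN : (0 : ℝ) < ‖(Nmat σ).det‖ := norm_pos_iff.2 (Nmat_det σ hσ)
  have hwprod : 0 < ∏ l, ww z l := Finset.prod_pos fun l _ => hw l
  have hgprod : ∏ i, gg z A i = 1 / (A ^ (n + 1) * ∏ l, ww z l) := by
    rw [Fin.prod_univ_castSucc, gg_last]
    simp_rw [gg_castSucc]
    rw [Finset.prod_div_distrib, Finset.prod_const_one, Finset.prod_mul_distrib, Finset.prod_const,
      Finset.card_univ, Fintype.card_fin]
    have hA' := hA.ne'
    have hp := hwprod.ne'
    field_simp
    ring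
  unfold LL
  rw [Matrix.det_mul_column, BB_det, abs_mul, hgprod, ← rowR_det σ hσ z hz, abs_of_pos (by
      positivity), mul_div_cancel_left₀ _ hdetN.ne']

/-- evaluation of a coefficient vector -/
noncomputable def ev (x : Fin (n + 1) → ℝ) (z : ℂ) : ℂ := ∑ k, (x k : ℂ) * z ^ (k : ℕ)

theorem LL_row (σ : Fin n → Fin n) (z : Fin n → ℂ) (A : ℝ) (x : Fin (n + 1) → ℝ) (l : Fin n) :
    ((LL σ z A).mulVec x) l.castSucc =
      1 / (A * ww z l) * (if l ≤ σ l then (ev x (z l)).re else (ev x (z (σ l))).im) := by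
  have h1 : ((LL σ z A).mulVec x) l.castSucc =
      ∑ k, gg z A l.castSucc * BB σ z l.castSucc k * x k := rfl
  rw [h1, gg_castSucc]
  simp_rw [mul_assoc]
  rw [← Finset.mul_sum]
  congr 1
  simp_rw [BB_castSucc]
  unfold rowR ev
  split_ifs with h
  · rw [Complex.re_sum]
    apply Finset.sum_congr rfl
    intro k _
    rw [Complex.re_ofReal_mul, mul_comm]
  · rw [Complex.im_sum]
    apply Finset.sum_congr rfl
    intro k _
    rw [Complex.im_ofReal_mul, mul_comm]

theorem LL_last (σ : Fin n → Fin n) (z : Fin n → ℂ) (A : ℝ) (x : Fin (n + 1) → ℝ) :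
    ((LL σ z A).mulVec x) (Fin.last n) = 1 / A * x (Fin.last n) := by
  have h1 : ((LL σ z A).mulVec x) (Fin.last n) =
      ∑ k, gg z A (Fin.last n) * BB σ z (Fin.last n) k * x k := rfl
  rw [h1, gg_last, Finset.sum_eq_single (Fin.last n)]
  · rw [BB_last, if_pos rfl]
    ring
  · intro k _ hk
    rw [BB_last, if_neg hk]
    ring
  · intro h; exact absurd (Finset.mem_univ _) h

theorem ev_conj (x : Fin (n + 1) → ℝ) (z : ℂ) :
    ev x ((starRingEnd ℂ) z) = (starRingEnd ℂ) (ev x z) := by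
  unfold ev
  rw [map_sum]
  apply Finset.sum_congr rfl
  intro k _
  rw [map_mul, map_pow, Complex.conj_ofReal]

/-- from the matrix norm to values -/
theorem ev_le (σ : Fin n → Fin n) (hσ : ∀ l, σ (σ l) = l) (z : Fin n → ℂ)
    (hz : ∀ l, z (σ l) = (starRingEnd ℂ) (z l)) (hw : ∀ l, 0 < ww z l)
    (hwσ : ∀ l, ww z (σ l) = ww z l) (A : ℝ) (hA : 0 < A)
    (x : Fin (n + 1) → ℝ) (t : ℝ) (hx : ∀ i, |((LL σ z A).mulVec x) i| ≤ t) (l : Fin n) :
    ‖ev x (z l)‖ ≤ 2 * t * (A * ww z l) := by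
  have ht : 0 ≤ t := (abs_nonneg _).trans (hx (Fin.last n))
  have hrow : ∀ l : Fin n, |if l ≤ σ l then (ev x (z l)).re else (ev x (z (σ l))).im| ≤
      t * (A * ww z l) := by
    intro l
    have h1 := hx l.castSucc
    have h2 : 0 < A * ww z l := mul_pos hA (hw l)
    rw [LL_row, abs_mul, abs_of_pos (by positivity), one_div, inv_mul_le_iff₀ h2] at h1
    linarith
  have key : ∀ l : Fin n, l ≤ σ l → ‖ev x (z l)‖ ≤ 2 * t * (A * ww z l) := by
    intro l hl
    have h1 := hrow l
    rw [if_pos hl] at h1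
    have h2 : |(ev x (z l)).im| ≤ t * (A * ww z l) := by
      rcases eq_or_lt_of_le hl with h | h
      · have h3 : (starRingEnd ℂ) (z l) = z l := by rw [← hz, ← h]
        have h4 : (starRingEnd ℂ) (ev x (z l)) = ev x (z l) := by rw [← ev_conj, h3]
        have h5 : (ev x (z l)).im = 0 := Complex.conj_eq_iff_im.1 h4
        rw [h5, abs_zero]
        exact mul_nonneg ht (mul_pos hA (hw l)).le
      · have h3 := hrow (σ l)
        rw [hσ, if_neg (not_le.2 h), hwσ] at h3
        exact h3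
    calc ‖ev x (z l)‖ ≤ |(ev x (z l)).re| + |(ev x (z l)).im| := Complex.norm_le_abs_re_add_abs_im _
      _ ≤ _ := by linarith
  rcases le_total l (σ l) with h | h
  · exact key l h
  · have h1 := key (σ l) (by rw [hσ]; exact h)
    rw [hz, ev_conj, RCLike.norm_conj, hwσ] at h1
    exact h1

/-- from values to the matrix norm -/
theorem LL_le (σ : Fin n → Fin n) (z : Fin n → ℂ) (hw : ∀ l, 0 < ww z l)
    (hwσ : ∀ l, ww z (σ l) = ww z l) (A : ℝ) (hA : 0 < A)
    (x : Fin (n + 1) → ℝ) (h1 : ∀ l, ‖ev x (z l)‖ ≤ A * ww z l) (h2 : |x (Fin.last n)| ≤ A)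
    (i : Fin (n + 1)) : |((LL σ z A).mulVec x) i| ≤ 1 := by
  refine Fin.lastCases ?_ ?_ i
  · rw [LL_last, abs_mul, abs_of_pos (by positivity), one_div, inv_mul_le_iff₀ hA, mul_one]
    exact h2
  · intro l
    have hwl := hw l
    rw [LL_row, abs_mul, abs_of_pos (by positivity), one_div, inv_mul_le_iff₀ (by
      positivity), mul_one]
    split_ifs
    · exact (Complex.abs_re_le_norm _).trans (h1 l)
    · have := h1 (σ l)
      rw [hwσ] at this
      exact (Complex.abs_im_le_norm _).trans this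

/-- polynomial with given coefficients -/
noncomputable def polv (n : ℕ) : (Fin (n + 1) → ℤ) →ₗ[ℤ] ℤ[X] where
  toFun x := ∑ k : Fin (n + 1), C (x k) * X ^ (k : ℕ)
  map_add' := by
    intro x y
    rw [← Finset.sum_add_distrib]
    apply Finset.sum_congr rfl
    intro k _
    rw [Pi.add_apply, map_add, add_mul]
  map_smul' := by
    intro c x
    rw [RingHom.id_apply, Finset.smul_sum]
    apply Finset.sum_congr rfl
    intro k _
    rw [Pi.smul_apply, smul_eq_mul, map_mul, smul_eq_C_mul, mul_assoc]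

theorem polv_apply (x : Fin (n + 1) → ℤ) :
    polv n x = ∑ k : Fin (n + 1), C (x k) * X ^ (k : ℕ) := rfl

theorem polv_natDegree (x : Fin (n + 1) → ℤ) : (polv n x).natDegree ≤ n := by
  rw [polv_apply]
  apply natDegree_sum_le_of_forall_le
  intro k _
  refine (natDegree_C_mul_X_pow_le _ _).trans ?_
  omega

theorem polv_coeff (x : Fin (n + 1) → ℤ) (k : Fin (n + 1)) : (polv n x).coeff k = x k := by
  rw [polv_apply, finsetSum_coeff, Finset.sum_eq_single k]
  · simp
  · intro j _ hj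
    rw [coeff_C_mul, coeff_X_pow, if_neg (fun h => hj (Fin.ext h.symm)), mul_zero]
  · intro h; exact absurd (Finset.mem_univ _) h

theorem polv_injective : Function.Injective (polv n) := by
  intro x y h
  funext k
  rw [← polv_coeff x, h, polv_coeff]

theorem polv_vec (P : ℤ[X]) (hP : P.natDegree ≤ n) : polv n (fun k => P.coeff k) = P := by
  ext j
  by_cases hj : j < n + 1
  · exact polv_coeff (fun k => P.coeff k) ⟨j, hj⟩
  · rw [coeff_eq_zero_of_natDegree_lt (by have := polv_natDegree (n := n) (fun k => P.coeff k); omega),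
      coeff_eq_zero_of_natDegree_lt (by omega)]

theorem polv_eval (x : Fin (n + 1) → ℤ) (z : ℂ) :
    ((polv n x).map (Int.castRingHom ℂ)).eval z = ev (iv x) z := by
  rw [polv_apply, Polynomial.map_sum, eval_finsetSum]
  unfold ev
  apply Finset.sum_congr rfl
  intro k _
  simp [iv]

end Pool.Agent.Helper45.HR
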