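import Pool.Agent.Helper12.DiscCover
import Pool.Agent.Helper45.DPts
import Mathlib

/-! Module statements of the project HR (MP_3ef321_nt, half of the range for every degree).
Proofs: /team-store/hr_blueprint.md -/

open Polynomial MeasureTheory

namespace Pool.Agent.Helper45.HR

open Pool.Agent.Helper12.Disc Pool.Agent.Helper45.Disc

/-- M1: counting form of Minkowski's second theorem. -/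
def ST_M1 : Prop := ∀ N : ℕ, ∃ C : ℝ, 0 < C ∧ ∀ ν : (Fin N → ℤ) → ℝ,
  ν 0 = 0 → (∀ x, x ≠ 0 → 0 < ν x) → (∀ x y, ν (x - y) ≤ ν x + ν y) →
  (∀ (t : ℤ) (x : Fin N → ℤ), ν (t • x) = |(t : ℝ)| * ν x) →
  (∀ s : ℝ, {x | ν x ≤ s}.Finite) →
  ∃ (k : ℕ) (G : Fin k → (Fin N → ℤ)), LinearIndependent ℤ G ∧ (∀ i, ν (G i) ≤ 1) ∧
    Monotone (fun i => ν (G i)) ∧
    (∀ x, ν x ≤ 1 → ∃ m : ℤ, m ≠ 0 ∧ m • x ∈ Submodule.span ℤ (Set.range G)) ∧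
    ({x | ν x ≤ 1}.ncard : ℝ) ≤ C * ∏ i, (ν (G i))⁻¹

/-- N1: the resultant on the body attached to the nodes `z`. -/
def ST_N1 : Prop := ∀ n : ℕ, 2 ≤ n → ∃ K : ℝ, 0 < K ∧ ∀ z : Fin n → ℂ, Function.Injective z →
  ∀ A : ℝ, 0 < A → ∀ F G : ℂ[X], F.natDegree ≤ n → G.natDegree ≤ n →
  (∀ i, ‖F.eval (z i)‖ ≤ A * ww z i) → ‖F.coeff n‖ ≤ A →
  (∀ i, ‖G.eval (z i)‖ ≤ A * ww z i) → ‖G.coeff n‖ ≤ A →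
  ‖resultant F G n n‖ ≤ K * A ^ (2 * n) * ∏ i, ww z i

/-- STEP: the basic step for lower bounds of resultants on boxes. -/
def ST_STEP : Prop := ∀ n : ℕ, ∃ c₁ : ℝ, 0 < c₁ ∧ ∀ d μ c c' : ℕ, d + μ ≤ n → 1 ≤ c → c < c' →
  c' ≤ n + 1 → ∀ (h : ℤ[X]) (H Y : ℕ → ℤ[X]), h ≠ 0 → h.natDegree = μ →
  (∀ a < c, (H a).natDegree ≤ d) → (∀ a < c', (Y a).natDegree ≤ d + μ) →
  (∀ a < c, Y a = h * H a) →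
  (∀ ζ : ℂ, ∃ a < c, aeval ζ (H a) ≠ 0) → (∀ ζ : ℂ, ∃ a < c', aeval ζ (Y a) ≠ 0) →
  ∀ L : ℕ → ℝ, (∀ a b, a ≤ b → L b ≤ L a) → (∀ a, 0 < L a) → ∀ ρ : ℝ, 0 < ρ →
  (∃ S T : ℕ → ℂ, (∀ a < c, ‖S a‖ ≤ L a) ∧ (∀ a < c, ‖T a‖ ≤ L a) ∧
    ρ ≤ ‖resultant (∑ a ∈ Finset.range c, C (S a) * (H a).map (Int.castRingHom ℂ))
      (∑ a ∈ Finset.range c, C (T a) * (H a).map (Int.castRingHom ℂ)) d d‖) →
  ∃ S T : ℕ → ℂ, (∀ a < c', ‖S a‖ ≤ L a) ∧ (∀ a < c', ‖T a‖ ≤ L a) ∧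
    c₁ * ρ * (L (c - 1) * L (c' - 1)) ^ μ ≤
      ‖resultant (∑ a ∈ Finset.range c', C (S a) * (Y a).map (Int.castRingHom ℂ))
        (∑ a ∈ Finset.range c', C (T a) * (Y a).map (Int.castRingHom ℂ)) (d + μ) (d + μ)‖

/-- GCD: greatest common divisors of the initial segments. -/
def ST_GCD : Prop := ∀ G : ℕ → ℤ[X], G 0 ≠ 0 → ∃ g : ℕ → ℤ[X],
  (∀ c, 1 ≤ c → g c ≠ 0 ∧ (∀ a < c, g c ∣ G a) ∧
    ∀ H : ℕ → ℤ[X], (∀ a < c, G a = g c * H a) → ∀ ζ : ℂ, ∃ a < c, aeval ζ (H a) ≠ 0) ∧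
  (∀ c c', 1 ≤ c → c ≤ c' → g c' ∣ g c)

/-- LP: the linear programming inequality. -/
def ST_LP : Prop := ∀ n k : ℕ, 2 ≤ k → k ≤ n → ∀ (m : ℕ → ℕ) (y : ℕ → ℝ) (ϱ : ℝ),
  m 1 = n → m k = 0 → (∀ c, 1 ≤ c → c ≤ k → m c + c ≤ n + 1) →
  (∀ a, 0 ≤ y a) → (∀ a b, a ≤ b → y b ≤ y a) →
  (∀ i, 1 ≤ i → i < k →
    (∑ c ∈ Finset.Ico 1 i, ((m c : ℝ) - m (c + 1)) * (y (c - 1) + y c)) +
      (m i : ℝ) * (y (i - 1) + y (k - 1)) ≤ ϱ) →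
  (∑ a ∈ Finset.range k, y a) * (1 + 1 / ((n : ℝ) * 2 ^ n)) ≤ ϱ * (((n : ℝ) + 1) / (2 * n))

/-- INV: invariance of the resultant (with formal degrees `n`) under `x ↦ t + 1/x`. -/
def ST_INV : Prop := ∀ (n : ℕ) (t : ℂ) (A B : ℂ[X]), A.natDegree ≤ n → B.natDegree ≤ n →
  ‖resultant (reflect n (taylor t A)) (reflect n (taylor t B)) n n‖ = ‖resultant A B n n‖

/-- N2: lower bound for resultants on boxes of integer polynomials. -/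
def ST_N2 : Prop := ∀ n : ℕ, 2 ≤ n → ∃ K : ℝ, 0 < K ∧ ∀ k : ℕ, 2 ≤ k → k ≤ n →
  ∀ G : Fin k → ℤ[X], (∀ a, (G a).natDegree ≤ n) → LinearIndependent ℤ G →
  (∃ F : ℤ[X], F.natDegree = n ∧ Irreducible (F.map (Int.castRingHom ℚ)) ∧
    F ∈ Submodule.span ℤ (Set.range G)) →
  ∀ L : Fin k → ℝ, Antitone L → (∀ a, 1 ≤ L a) → ∀ R : ℝ,
  (∀ S T : Fin k → ℂ, (∀ a, ‖S a‖ ≤ L a) → (∀ a, ‖T a‖ ≤ L a) →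
    ‖resultant (∑ a, C (S a) * (G a).map (Int.castRingHom ℂ))
      (∑ a, C (T a) * (G a).map (Int.castRingHom ℂ)) n n‖ ≤ R) →
  (∏ a, L a) ^ (1 + 1 / ((n : ℝ) * 2 ^ n)) ≤ K * R ^ (((n : ℝ) + 1) / (2 * n))

/-- F5: local integrability. -/
def ST_F5 : Prop := ∀ n : ℕ, 2 ≤ n → ∀ p a s : ℝ, 0 < p → 0 < a → 0 < s → s < 1 →
  (∀ k : ℕ, 2 ≤ k → k ≤ n → p * k + a * (k * (k - 1) / 2) ≤ s * (k - 1)) →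
  ∀ σ : Fin n → Fin n, (∀ l, σ (σ l) = l) → ∀ R : ℝ,
  ∫⁻ y in {y : Fin n → ℝ | ∀ i, |y i| ≤ R}, ENNReal.ofReal
    ((∏ i, dd (Zof (Nmat σ) y) i) ^ (-p) * D2 (Zof (Nmat σ) y) ^ (-(a / 2))) < ⊤

end Pool.Agent.Helper45.HR
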