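import Pool.Agent.Helper45.HR.Bez
import Pool.Agent.Helper45.HR.Stmts
import Mathlib

open Polynomial

namespace Pool.Agent.Helper45.HR

open Pool.Agent.Helper12.Disc Pool.Agent.Helper45.Disc

variable {n : ℕ}

theorem D2_pos_of_injective (z : Fin n → ℂ) (hz : Function.Injective z) : 0 < D2 z := by
  apply lt_of_le_of_ne (D2_nonneg z)
  symm
  unfold D2
  rw [Finset.prod_ne_zero_iff]
  intro i _
  rw [Finset.prod_ne_zero_iff]
  intro j hj
  rw [norm_ne_zero_iff, sub_ne_zero]
  exact fun h => (Finset.ne_of_mem_erase hj) (hz h).symm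

theorem dd_pos (hn : 2 ≤ n) (z : Fin n → ℂ) (hz : Function.Injective z) (i : Fin n) :
    0 < dd z i := by
  obtain ⟨j, hj, hd⟩ := dd_exists hn z i
  rw [hd, norm_pos_iff, sub_ne_zero]
  exact fun h => hj (hz h).symm

theorem pp_pos (z : Fin n → ℂ) (hz : Function.Injective z) (i : Fin n) : 0 < pp z i := by
  unfold pp
  apply Finset.prod_pos
  intro j hj
  rw [norm_pos_iff, sub_ne_zero]
  exact fun h => (Finset.ne_of_mem_erase hj) (hz h).symm

/-- distances near a node -/
theorem near_node (z : Fin n → ℂ) (i : Fin n) (x : ℂ)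
    (hx : ‖x - z i‖ ≤ dd z i / 2) (k : Fin n) (hk : k ≠ i) :
    ‖x - z k‖ ≤ 3 / 2 * ‖z i - z k‖ := by
  have h1 := dd_le z hk
  calc ‖x - z k‖ = ‖(x - z i) + (z i - z k)‖ := by congr 1; ring
    _ ≤ ‖x - z i‖ + ‖z i - z k‖ := norm_add_le _ _
    _ ≤ _ := by linarith

theorem near_prod (z : Fin n → ℂ) (i : Fin n) (x : ℂ) (hx : ‖x - z i‖ ≤ dd z i / 2)
    (s : Finset (Fin n)) (hs : i ∉ s) :
    ∏ k ∈ s, ‖x - z k‖ ≤ (3 / 2) ^ n * ∏ k ∈ s, ‖z i - z k‖ := by
  calc ∏ k ∈ s, ‖x - z k‖ ≤ ∏ k ∈ s, (3 / 2 * ‖z i - z k‖) := by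
        apply Finset.prod_le_prod (fun _ _ => norm_nonneg _)
        intro k hk
        exact near_node z i x hx k (fun h => hs (h ▸ hk))
    _ = (3 / 2) ^ s.card * ∏ k ∈ s, ‖z i - z k‖ := by
        rw [Finset.prod_mul_distrib, Finset.prod_const]
    _ ≤ _ := by
        apply mul_le_mul_of_nonneg_right _ (Finset.prod_nonneg fun _ _ => norm_nonneg _)
        apply pow_le_pow_right₀ (by norm_num)
        calc s.card ≤ (Finset.univ : Finset (Fin n)).card := Finset.card_le_card (Finset.subset_univ _)
          _ = n := by simp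

theorem basis_bound (hn : 2 ≤ n) (z : Fin n → ℂ) (hz : Function.Injective z) (i j : Fin n) (x : ℂ)
    (hx : ‖x - z i‖ ≤ dd z i / 2) :
    ‖(Lagrange.basis Finset.univ z j).eval x‖ * ww z j ≤ (3 / 2) ^ n * ww z i := by
  classical
  have hd := dd_pos hn z hz
  have hp := pp_pos z hz
  have hval : ‖(Lagrange.basis Finset.univ z j).eval x‖ =
      (∏ k ∈ Finset.univ.erase j, ‖x - z k‖) / pp z j := by
    rw [Lagrange.basis, eval_prod, norm_prod]
    unfold pp
    rw [← Finset.prod_div_distrib]
    apply Finset.prod_congr rfl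
    intro k _
    rw [Lagrange.basisDivisor, eval_mul, eval_C, eval_sub, eval_X, eval_C, norm_mul, norm_inv]
    ring
  rw [hval]
  have e1 : (∏ k ∈ Finset.univ.erase j, ‖x - z k‖) / pp z j * ww z j =
      (∏ k ∈ Finset.univ.erase j, ‖x - z k‖) * dd z j := by
    unfold ww
    have := (hp j).ne'
    field_simp
  rw [e1]
  by_cases hij : j = i
  · subst hij
    have h1 := near_prod z j x hx (Finset.univ.erase j) (Finset.notMem_erase _ _)
    calc _ ≤ ((3 / 2) ^ n * ∏ k ∈ Finset.univ.erase j, ‖z j - z k‖) * dd z j :=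
          mul_le_mul_of_nonneg_right h1 (hd j).le
      _ = _ := by unfold ww pp; ring
  · have hi : i ∈ Finset.univ.erase j := Finset.mem_erase.2 ⟨fun h => hij h.symm, Finset.mem_univ _⟩
    have hj : j ∈ Finset.univ.erase i := Finset.mem_erase.2 ⟨hij, Finset.mem_univ _⟩
    set s := (Finset.univ.erase j).erase i with hs
    have h1 := near_prod z i x hx s (Finset.notMem_erase _ _)
    have hpi : pp z i = ‖z i - z j‖ * ∏ k ∈ s, ‖z i - z k‖ := by
      unfold pp
      rw [← Finset.mul_prod_erase _ _ hj, hs, Finset.erase_right_comm]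
    rw [← Finset.mul_prod_erase _ _ hi, ← hs]
    have hdj : dd z j ≤ ‖z i - z j‖ := by
      rw [norm_sub_rev]
      exact dd_le z (fun h => hij h.symm)
    have hpr : 0 ≤ ∏ k ∈ s, ‖z i - z k‖ := Finset.prod_nonneg fun _ _ => norm_nonneg _
    calc ‖x - z i‖ * (∏ k ∈ s, ‖x - z k‖) * dd z j
        ≤ (dd z i) * ((3 / 2) ^ n * ∏ k ∈ s, ‖z i - z k‖) * ‖z i - z j‖ := by
          apply mul_le_mul _ hdj (hd j).le
            (mul_nonneg (hd i).le (mul_nonneg (by positivity) hpr))
          apply mul_le_mul _ h1 (Finset.prod_nonneg fun _ _ => norm_nonneg _) (hd i).le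
          have := hd i
          linarith
      _ = _ := by
          unfold ww
          rw [hpi]
          ring

/-- size near a node -/
theorem eval_near (hn : 2 ≤ n) (z : Fin n → ℂ) (hz : Function.Injective z) (A : ℝ) (hA : 0 < A)
    (F : ℂ[X]) (hF : F.natDegree ≤ n) (h1 : ∀ i, ‖F.eval (z i)‖ ≤ A * ww z i)
    (h2 : ‖F.coeff n‖ ≤ A) (i : Fin n) (x : ℂ) (hx : ‖x - z i‖ ≤ dd z i / 2) :
    ‖F.eval x‖ ≤ A * ((n + 1) * (3 / 2) ^ n) * ww z i := by
  classical
  have hd := dd_pos hn z hz
  have hp := pp_pos z hz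
  set G : ℂ[X] := F - C (F.coeff n) * ofRoots z with hG
  have hGdeg : G.degree < n := by
    rw [degree_lt_iff_coeff_zero]
    intro m hm
    rcases hm.lt_or_eq with h | h
    · have h8 : F.coeff m = 0 := coeff_eq_zero_of_natDegree_lt (by omega)
      have h9 : (ofRoots z).coeff m = 0 :=
        coeff_eq_zero_of_natDegree_lt (by rw [ofRoots_natDegree]; exact h)
      rw [hG, coeff_sub, coeff_C_mul, h8, h9]
      ring
    · subst h
      have h3 := (ofRoots_monic z).coeff_natDegree
      rw [ofRoots_natDegree] at h3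
      rw [hG, coeff_sub, coeff_C_mul, h3]
      ring
  have hGz : ∀ j, G.eval (z j) = F.eval (z j) := by
    intro j
    rw [hG, eval_sub, eval_mul, eval_C, eval_ofRoots,
      Finset.prod_eq_zero (Finset.mem_univ j) (sub_self _), mul_zero, sub_zero]
  have h3 := lagrange_eval z hz G hGdeg x
  have h4 : F.eval x = G.eval x + F.coeff n * (ofRoots z).eval x := by
    rw [hG, eval_sub, eval_mul, eval_C]
    ring
  have h5 : ‖(ofRoots z).eval x‖ ≤ (3 / 2) ^ n * ww z i := by
    rw [eval_ofRoots, norm_prod, ← Finset.mul_prod_erase _ _ (Finset.mem_univ i)]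
    have h6 := near_prod z i x hx (Finset.univ.erase i) (Finset.notMem_erase _ _)
    calc _ ≤ dd z i * ((3 / 2) ^ n * ∏ k ∈ Finset.univ.erase i, ‖z i - z k‖) := by
          apply mul_le_mul _ h6 (Finset.prod_nonneg fun _ _ => norm_nonneg _) (hd i).le
          have := hd i
          linarith
      _ = _ := by unfold ww pp; ring
  rw [h4, h3]
  calc ‖∑ k, G.eval (z k) * (Lagrange.basis Finset.univ z k).eval x +
        F.coeff n * (ofRoots z).eval x‖
      ≤ ∑ k, ‖G.eval (z k) * (Lagrange.basis Finset.univ z k).eval x‖ +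
        ‖F.coeff n * (ofRoots z).eval x‖ :=
        (norm_add_le _ _).trans (add_le_add (norm_sum_le _ _) le_rfl)
    _ ≤ ∑ k : Fin n, A * ((3 / 2) ^ n * ww z i) + A * ((3 / 2) ^ n * ww z i) := by
        apply add_le_add
        · apply Finset.sum_le_sum
          intro k _
          rw [norm_mul, hGz]
          calc _ ≤ (A * ww z k) * ‖(Lagrange.basis Finset.univ z k).eval x‖ :=
                mul_le_mul_of_nonneg_right (h1 k) (norm_nonneg _)
            _ = A * (‖(Lagrange.basis Finset.univ z k).eval x‖ * ww z k) := by ring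
            _ ≤ _ := mul_le_mul_of_nonneg_left (basis_bound hn z hz i k x hx) hA.le
        · rw [norm_mul]
          exact mul_le_mul h2 h5 (norm_nonneg _) hA.le
    _ = _ := by
        rw [Finset.sum_const, Finset.card_univ, Fintype.card_fin, nsmul_eq_mul]
        ring

theorem deriv_near (hn : 2 ≤ n) (z : Fin n → ℂ) (hz : Function.Injective z) (A : ℝ) (hA : 0 < A)
    (F : ℂ[X]) (hF : F.natDegree ≤ n) (h1 : ∀ i, ‖F.eval (z i)‖ ≤ A * ww z i)
    (h2 : ‖F.coeff n‖ ≤ A) (i : Fin n) :
    ‖F.derivative.eval (z i)‖ ≤ A * (2 * ((n + 1) * (3 / 2) ^ n)) * (ww z i / dd z i) := by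
  have hd := dd_pos hn z hz i
  have h3 := Complex.norm_deriv_le_of_forall_mem_sphere_norm_le (c := z i) (R := dd z i / 2)
    (C := A * ((n + 1) * (3 / 2) ^ n) * ww z i) (f := fun x => F.eval x) (by linarith)
    (F.differentiable.diffContOnCl) (by
      intro x hx
      apply eval_near hn z hz A hA F hF h1 h2 i x
      rw [mem_sphere_iff_norm] at hx
      exact hx.le)
  rw [Polynomial.deriv] at h3
  refine h3.trans (le_of_eq ?_)
  field_simp

theorem st_N1 : ST_N1 := by
  intro n hn
  set Kn : ℝ := 4 * ((n + 1) * (3 / 2) ^ n) with hKn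
  have hKn2 : 2 ≤ Kn := by
    have h1 : (1 : ℝ) ≤ (3 / 2) ^ n := one_le_pow₀ (by norm_num)
    have h2 : (0 : ℝ) ≤ n := by positivity
    rw [hKn]
    nlinarith
  refine ⟨(n.factorial : ℝ) * Kn ^ n, by positivity, ?_⟩
  intro z hz A hA F G hF hG hF1 hF2 hG1 hG2
  have hd := dd_pos hn z hz
  have hp := pp_pos z hz
  have hD := D2_pos_of_injective z hz
  have hw : ∀ i, 0 < ww z i := fun i => mul_pos (hd i) (hp i)
  have hentry : ∀ i j, ‖bz F G (z i) (z j)‖ ≤ Kn * A ^ 2 * (ww z i * ww z j / dd z i) := by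
    intro i j
    unfold bz
    by_cases hij : i = j
    · subst hij
      rw [if_pos rfl]
      have e1 := deriv_near hn z hz A hA F hF hF1 hF2 i
      have e2 := deriv_near hn z hz A hA G hG hG1 hG2 i
      have hdi := hd i
      have hwi := hw i
      calc ‖F.derivative.eval (z i) * G.eval (z i) - F.eval (z i) * G.derivative.eval (z i)‖
          ≤ ‖F.derivative.eval (z i)‖ * ‖G.eval (z i)‖ +
            ‖F.eval (z i)‖ * ‖G.derivative.eval (z i)‖ := by
            rw [← norm_mul, ← norm_mul]
            exact norm_sub_le _ _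
        _ ≤ (A * (2 * ((n + 1) * (3 / 2) ^ n)) * (ww z i / dd z i)) * (A * ww z i) +
            (A * ww z i) * (A * (2 * ((n + 1) * (3 / 2) ^ n)) * (ww z i / dd z i)) := by
            apply add_le_add
            · exact mul_le_mul e1 (hG1 i) (norm_nonneg _) (by positivity)
            · exact mul_le_mul (hF1 i) e2 (norm_nonneg _) (by positivity)
        _ = _ := by rw [hKn]; ring
    · have hne : z i ≠ z j := fun h => hij (hz h)
      rw [if_neg hne, norm_div]
      have hpos : 0 < ‖z i - z j‖ := norm_pos_iff.2 (sub_ne_zero.2 hne)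
      have hdle : dd z i ≤ ‖z i - z j‖ := dd_le z (fun h => hij h.symm)
      have hdi := hd i
      have hwi := hw i
      have hwj := hw j
      have e1 : ‖F.eval (z i) * G.eval (z j) - F.eval (z j) * G.eval (z i)‖ ≤
          2 * A ^ 2 * (ww z i * ww z j) := by
        calc _ ≤ ‖F.eval (z i)‖ * ‖G.eval (z j)‖ + ‖F.eval (z j)‖ * ‖G.eval (z i)‖ := by
              rw [← norm_mul, ← norm_mul]
              exact norm_sub_le _ _
          _ ≤ (A * ww z i) * (A * ww z j) + (A * ww z j) * (A * ww z i) := by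
              apply add_le_add
              · exact mul_le_mul (hF1 i) (hG1 j) (norm_nonneg _) (by positivity)
              · exact mul_le_mul (hF1 j) (hG1 i) (norm_nonneg _) (by positivity)
          _ = _ := by ring
      calc _ ≤ 2 * A ^ 2 * (ww z i * ww z j) / dd z i :=
            div_le_div₀ (by positivity) e1 hdi hdle
        _ = 2 * (A ^ 2 * (ww z i * ww z j / dd z i)) := by ring
        _ ≤ Kn * (A ^ 2 * (ww z i * ww z j / dd z i)) :=
            mul_le_mul_of_nonneg_right hKn2 (by positivity)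
        _ = _ := by ring
  have hdet : ‖(Matrix.of fun i j => bz F G (z i) (z j)).det‖ ≤
      (n.factorial : ℝ) * (Kn ^ n * A ^ (2 * n) * ((∏ i, ww z i) * D2 z)) := by
    rw [Matrix.det_apply]
    calc ‖∑ σ : Equiv.Perm (Fin n), Equiv.Perm.sign σ •
          ∏ i, (Matrix.of fun i j => bz F G (z i) (z j)) (σ i) i‖
        ≤ ∑ σ : Equiv.Perm (Fin n), ‖Equiv.Perm.sign σ •
          ∏ i, (Matrix.of fun i j => bz F G (z i) (z j)) (σ i) i‖ := norm_sum_le _ _
      _ ≤ ∑ σ : Equiv.Perm (Fin n), Kn ^ n * A ^ (2 * n) * ((∏ i, ww z i) * D2 z) := by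
          apply Finset.sum_le_sum
          intro σ _
          have e1 : ‖Equiv.Perm.sign σ • ∏ i, (Matrix.of fun i j => bz F G (z i) (z j)) (σ i) i‖ =
              ∏ i, ‖bz F G (z (σ i)) (z i)‖ := by
            rcases Int.units_eq_one_or (Equiv.Perm.sign σ) with h | h
            · rw [h, one_smul, norm_prod]
              rfl
            · rw [h, Units.neg_smul, one_smul, norm_neg, norm_prod]
              rfl
          rw [e1]
          calc ∏ i, ‖bz F G (z (σ i)) (z i)‖
              ≤ ∏ i, (Kn * A ^ 2 * (ww z (σ i) * ww z i / dd z (σ i))) :=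
                Finset.prod_le_prod (fun _ _ => norm_nonneg _) (fun i _ => hentry _ _)
            _ = Kn ^ n * A ^ (2 * n) * ((∏ i, ww z i) * D2 z) := by
                have e2 : ∀ i, ww z (σ i) * ww z i / dd z (σ i) = pp z (σ i) * ww z i := by
                  intro i
                  have := (hd (σ i)).ne'
                  have e3 : ww z (σ i) = dd z (σ i) * pp z (σ i) := rfl
                  rw [e3]
                  field_simp
                have e4 : ∏ i, pp z (σ i) = D2 z := by
                  rw [Equiv.prod_comp σ (fun i => pp z i), ← D2_eq]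
                calc ∏ i, (Kn * A ^ 2 * (ww z (σ i) * ww z i / dd z (σ i)))
                    = ∏ i, ((Kn * A ^ 2) * (pp z (σ i) * ww z i)) :=
                      Finset.prod_congr rfl fun i _ => by rw [e2]
                  _ = (Kn * A ^ 2) ^ n * ((∏ i, pp z (σ i)) * ∏ i, ww z i) := by
                      rw [Finset.prod_mul_distrib, Finset.prod_const, Finset.card_univ,
                        Fintype.card_fin, Finset.prod_mul_distrib]
                  _ = _ := by
                      rw [e4, mul_pow, ← pow_mul]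
                      ring
      _ = _ := by
          rw [Finset.sum_const, Finset.card_univ, Fintype.card_perm, Fintype.card_fin,
            nsmul_eq_mul]
  have hb := bez (by omega : 1 ≤ n) z hz F G hF hG
  rw [← hb] at hdet
  have h6 : D2 z * ‖resultant F G n n‖ ≤
      D2 z * ((n.factorial : ℝ) * Kn ^ n * A ^ (2 * n) * ∏ i, ww z i) := by
    refine hdet.trans (le_of_eq ?_)
    ring
  exact le_of_mul_le_mul_left h6 hD

end Pool.Agent.Helper45.HR
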