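import Pool.Agent.Helper45.DCount
import Pool.Agent.Helper45.HR.Body
import Pool.Agent.Helper45.HR.N1
import Mathlib

open Polynomial

namespace Pool.Agent.Helper45.HR

open Pool.Agent.Helper12.Disc Pool.Agent.Helper45.Disc

variable {n : ℕ}

/-- the exponent of the second term -/
noncomputable def th0 (n : ℕ) : ℝ := (((n : ℝ) + 1) / (2 * n)) / (1 + 1 / ((n : ℝ) * 2 ^ n))

theorem iv_sub {N : ℕ} (x y : Fin N → ℤ) : iv (x - y) = iv x - iv y := by
  funext i; simp [iv]

theorem iv_smul {N : ℕ} (t : ℤ) (x : Fin N → ℤ) : iv (t • x) = (t : ℝ) • iv x := by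
  funext i; simp [iv]

theorem iv_eq_zero {N : ℕ} {x : Fin N → ℤ} (h : iv x = 0) : x = 0 := by
  funext i
  have := congrFun h i
  simpa [iv] using this

/-- the norm attached to an invertible matrix has finite balls on integer points -/
theorem finite_ball {N : ℕ} (L : Matrix (Fin N) (Fin N) ℝ) (hL : L.det ≠ 0) (s : ℝ) :
    {x : Fin N → ℤ | ‖L.mulVec (iv x)‖ ≤ s}.Finite := by
  classical
  set B : ℝ := (∑ i, ∑ j, |L⁻¹ i j|) * s with hB
  have hsub : {x : Fin N → ℤ | ‖L.mulVec (iv x)‖ ≤ s} ⊆
      Set.univ.pi fun _ => (Set.Icc (-⌈B⌉) ⌈B⌉ : Set ℤ) := by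
    intro x hx i _
    have hx' : ‖L.mulVec (iv x)‖ ≤ s := hx
    have hs : 0 ≤ s := (norm_nonneg _).trans hx'
    have h1 : iv x = L⁻¹.mulVec (L.mulVec (iv x)) := by
      rw [Matrix.mulVec_mulVec, Matrix.nonsing_inv_mul _ (isUnit_iff_ne_zero.2 hL),
        Matrix.one_mulVec]
    have h2 : |(x i : ℝ)| ≤ B := by
      have h3 : (x i : ℝ) = ∑ j, L⁻¹ i j * (L.mulVec (iv x)) j := by
        have := congrFun h1 i
        simpa [Matrix.mulVec, dotProduct, iv] using this
      rw [h3]
      calc |∑ j, L⁻¹ i j * (L.mulVec (iv x)) j| ≤ ∑ j, |L⁻¹ i j * (L.mulVec (iv x)) j| :=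
            Finset.abs_sum_le_sum_abs _ _
        _ ≤ ∑ j, |L⁻¹ i j| * s := by
            apply Finset.sum_le_sum
            intro j _
            rw [abs_mul]
            apply mul_le_mul_of_nonneg_left _ (abs_nonneg _)
            exact (norm_le_pi_norm (L.mulVec (iv x)) j).trans hx'
        _ = (∑ j, |L⁻¹ i j|) * s := by rw [Finset.sum_mul]
        _ ≤ B := by
            rw [hB]
            apply mul_le_mul_of_nonneg_right _ hs
            exact Finset.single_le_sum (f := fun i => ∑ j, |L⁻¹ i j|)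
              (fun i _ => Finset.sum_nonneg fun _ _ => abs_nonneg _) (Finset.mem_univ i)
    have h4 := abs_le.1 h2
    have h5 := Int.le_ceil B
    constructor
    · have : (-(⌈B⌉ : ℝ)) ≤ x i := by linarith [h4.1]
      exact_mod_cast this
    · have : (x i : ℝ) ≤ ⌈B⌉ := by linarith [h4.2]
      exact_mod_cast this
  exact (Set.Finite.pi' fun _ => Set.finite_Icc _ _).subset (by
    intro x hx i
    exact hsub hx i (Set.mem_univ i))

/-- two proportional primitive integer polynomials -/
theorem prim_prop (P P' : ℤ[X]) (hP : P.IsPrimitive) (hP' : P'.IsPrimitive) (c c' : ℤ) (hc : c ≠ 0)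
    (h : C c * P = C c' * P') : P' = P ∨ P' = -P := by
  have h1 := congrArg content h
  rw [content_C_mul, content_C_mul, hP.content_eq_one, hP'.content_eq_one, mul_one, mul_one] at h1
  have h2 : |c| = |c'| := by
    rwa [← Int.abs_eq_normalize, ← Int.abs_eq_normalize] at h1
  have hC : (C c : ℤ[X]) ≠ 0 := by rwa [Ne, C_eq_zero]
  rcases abs_eq_abs.1 h2 with h3 | h3
  · left
    rw [← h3] at h
    exact (mul_left_cancel₀ hC h).symm
  · right
    have h4 : c' = -c := by omega
    rw [h4, map_neg, neg_mul, ← mul_neg] at h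
    have h5 := mul_left_cancel₀ hC h
    rw [h5, neg_neg]

theorem th0_pos (hn : 2 ≤ n) : 0 < th0 n := by
  unfold th0
  have : (0 : ℝ) < n := by
    have : 0 < n := by omega
    exact_mod_cast this
  positivity

theorem count_body2 (hM1 : ST_M1) (hN2 : ST_N2) (hn : 2 ≤ n) (κ : ℝ) (hκ : 0 < κ)
    (σ : Fin n → Fin n) (hσ : ∀ l, σ (σ l) = l) :
    ∃ K : ℝ, 0 < K ∧ ∀ z : Fin n → ℂ, (∀ l, z (σ l) = (starRingEnd ℂ) (z l)) → 0 < D2 z →
      ∀ A : ℝ, 0 < A → κ ≤ A ^ (2 * n) * ((∏ l, dd z l) * D2 z) →
      ∀ T : Finset ℤ[X], (∀ P ∈ T, P.natDegree = n ∧ P.IsPrimitive ∧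
        Irreducible (P.map (Int.castRingHom ℚ)) ∧
        (∀ l, ‖(P.map (Int.castRingHom ℂ)).eval (z l)‖ ≤ A * ww z l) ∧
        |(P.coeff n : ℝ)| ≤ A) →
      (T.card : ℝ) ≤ K * (A ^ (n + 1) * (∏ l, dd z l) * Real.sqrt (D2 z) +
        (A ^ (2 * n) * ((∏ l, dd z l) * D2 z)) ^ th0 n) := by
  classical
  obtain ⟨C1, hC1, hM⟩ := hM1 (n + 1)
  obtain ⟨K1, hK1, hN1'⟩ := st_N1 n hn
  obtain ⟨K2, hK2, hN2'⟩ := hN2 n hn
  have hn0 : (0 : ℝ) < n := by
    have : 0 < n := by omega
    exact_mod_cast this
  have hdetN : (0 : ℝ) < ‖(Nmat σ).det‖ := norm_pos_iff.2 (Nmat_det σ hσ)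
  set θ : ℝ := th0 n with hθ
  have hθ0 : 0 < θ := th0_pos hn
  set e1 : ℝ := 1 + 1 / ((n : ℝ) * 2 ^ n) with he1
  set e2 : ℝ := ((n : ℝ) + 1) / (2 * n) with he2
  have he10 : 0 < e1 := by positivity
  have hθe : θ = e2 / e1 := rfl
  set μ : ℝ := 1 / (4 * ((n + 1 : ℕ) : ℝ)) with hμ
  have hμ0 : 0 < μ := by positivity
  have hμ1 : 4 * ((n + 1 : ℕ) : ℝ) * μ ≤ 1 := by
    rw [hμ, mul_one_div, div_self (by positivity)]
  set Ka : ℝ := 2 * ‖(Nmat σ).det‖ / μ ^ (n + 1) with hKa
  set Kb : ℝ := 2 / κ ^ θ with hKb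
  set Kc : ℝ := C1 * (K2 ^ (1 / e1) * (K1 * (2 * n) ^ (2 * n)) ^ θ) with hKc
  have hKa0 : 0 < Ka := by positivity
  have hKb0 : 0 < Kb := by positivity
  have hKc0 : 0 < Kc := by positivity
  refine ⟨Ka + Kb + Kc, by positivity, ?_⟩
  intro z hz hD A hA hAD T hT
  have hzinj : Function.Injective z := by
    intro i j hij
    by_contra hne
    apply hD.ne'
    unfold D2
    apply Finset.prod_eq_zero (Finset.mem_univ i)
    apply Finset.prod_eq_zero (Finset.mem_erase.2 ⟨Ne.symm hne, Finset.mem_univ j⟩)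
    rw [hij, sub_self, norm_zero]
  have hd0 := dd_pos hn z hzinj
  have hp0 := pp_pos z hzinj
  have hw0 : ∀ l, 0 < ww z l := fun l => mul_pos (hd0 l) (hp0 l)
  have hwσ : ∀ l, ww z (σ l) = ww z l := by
    intro l
    unfold ww
    rw [dd_conj σ hσ z hz, pp_conj σ hσ z hz]
  have hdp : 0 < ∏ l, dd z l := Finset.prod_pos fun l _ => hd0 l
  have hwprod : 0 < ∏ l, ww z l := Finset.prod_pos fun l _ => hw0 l
  have hsqrt : 0 < Real.sqrt (D2 z) := Real.sqrt_pos.2 hD
  set V : ℝ := A ^ (n + 1) * (∏ l, dd z l) * Real.sqrt (D2 z) with hV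
  have hV0 : 0 < V := by positivity
  set U : ℝ := A ^ (2 * n) * ((∏ l, dd z l) * D2 z) with hU
  have hU0 : 0 < U := by positivity
  have hUθ : 0 < U ^ θ := Real.rpow_pos_of_pos hU0 _
  -- it suffices to bound by one of the three
  suffices hsuff : (T.card : ℝ) ≤ Ka * V ∨ (T.card : ℝ) ≤ Kb * U ^ θ ∨ (T.card : ℝ) ≤ Kc * U ^ θ by
    have a1 : 0 ≤ Ka * U ^ θ := by positivity
    have a2 : 0 ≤ Kb * V := by positivity
    have a3 : 0 ≤ Kc * V := by positivity
    have a4 : 0 ≤ Ka * V := by positivity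
    have a5 : 0 ≤ Kb * U ^ θ := by positivity
    have a6 : 0 ≤ Kc * U ^ θ := by positivity
    rcases hsuff with h | h | h <;> nlinarith
  set L := LL σ z A with hL
  have hdet := LL_det σ hσ z hz hw0 A hA
  rw [← hL] at hdet
  have hdet0 : L.det ≠ 0 := by
    rw [← abs_pos, hdet]
    positivity
  set ν : (Fin (n + 1) → ℤ) → ℝ := fun x => ‖L.mulVec (iv x)‖ with hν
  have hν0 : ν 0 = 0 := by
    have : iv (0 : Fin (n + 1) → ℤ) = 0 := by funext i; simp [iv]
    simp only [hν]
    rw [this, Matrix.mulVec_zero, norm_zero]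
  have hνpos : ∀ x, x ≠ 0 → 0 < ν x := by
    intro x hx
    simp only [hν]
    rw [norm_pos_iff]
    intro h
    exact hx (iv_eq_zero (Matrix.eq_zero_of_mulVec_eq_zero hdet0 h))
  have hνsub : ∀ x y, ν (x - y) ≤ ν x + ν y := by
    intro x y
    simp only [hν]
    rw [iv_sub, Matrix.mulVec_sub]
    exact norm_sub_le _ _
  have hνsmul : ∀ (t : ℤ) (x : Fin (n + 1) → ℤ), ν (t • x) = |(t : ℝ)| * ν x := by
    intro t x
    simp only [hν]
    rw [iv_smul, Matrix.mulVec_smul, norm_smul, Real.norm_eq_abs]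
  have hνfin : ∀ s : ℝ, {x | ν x ≤ s}.Finite := fun s => finite_ball L hdet0 s
  obtain ⟨k, G, hli, hG1, hGmono, hspan, hcard⟩ := hM ν hν0 hνpos hνsub hνsmul hνfin
  -- the vectors
  set vec : ℤ[X] → (Fin (n + 1) → ℤ) := fun P k => P.coeff k with hvec
  have hpv : ∀ P ∈ T, polv n (vec P) = P := fun P hP => polv_vec P (hT P hP).1.le
  have hinj : Set.InjOn vec (T : Set ℤ[X]) := by
    intro P hP Q hQ hPQ
    rw [← hpv P hP, hPQ, hpv Q hQ]
  have hbound : ∀ P ∈ T, ∀ i, |(L.mulVec (iv (vec P))) i| ≤ 1 := by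
    intro P hP i
    obtain ⟨h1, -, -, h3, h4⟩ := hT P hP
    apply LL_le σ z hw0 hwσ A hA
    · intro l
      rw [← polv_eval, hpv P hP]
      exact h3 l
    · exact h4
  have hν1 : ∀ P ∈ T, ν (vec P) ≤ 1 := by
    intro P hP
    simp only [hν]
    rw [pi_norm_le_iff_of_nonneg zero_le_one]
    intro i
    rw [Real.norm_eq_abs]
    exact hbound P hP i
  have hT0 : ∀ P ∈ T, P ≠ 0 := by
    intro P hP h0
    have := (hT P hP).1
    rw [h0, natDegree_zero] at this
    omega
  have hTcard : (T.card : ℝ) ≤ C1 * ∏ i, (ν (G i))⁻¹ := by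
    refine le_trans ?_ hcard
    rw [← Finset.card_image_of_injOn hinj]
    have h := Set.ncard_le_ncard (s := ((T.image vec : Finset (Fin (n + 1) → ℤ)) :
      Set (Fin (n + 1) → ℤ))) (t := {x | ν x ≤ 1}) (by
      intro x hx
      obtain ⟨P, hP, rfl⟩ := Finset.mem_image.1 (Finset.mem_coe.1 hx)
      exact hν1 P hP) (hνfin 1)
    rw [Set.ncard_coe_finset] at h
    exact_mod_cast h
  have hGne : ∀ i, G i ≠ 0 := fun i => hli.ne_zero i
  have hGpos : ∀ i, 0 < ν (G i) := fun i => hνpos _ (hGne i)
  have hkle : k ≤ n + 1 := by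
    have h := hli.fintype_card_le_finrank
    rw [Fintype.card_fin, Module.finrank_fin_fun] at h
    exact h
  rcases Nat.lt_or_ge k 2 with hk2 | hk2
  · -- rank at most one
    right; left
    have hcard2 : T.card ≤ 2 := by
      rcases T.eq_empty_or_nonempty with he | ⟨P₀, hP₀⟩
      · rw [he]; simp
      have hsub : T ⊆ {P₀, -P₀} := by
        intro P hP
        rw [Finset.mem_insert, Finset.mem_singleton]
        obtain ⟨m, hm, hmP⟩ := hspan _ (hν1 P hP)
        obtain ⟨m0, hm0, hmP0⟩ := hspan _ (hν1 P₀ hP₀)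
        -- the two combinations are multiples of a single vector
        obtain ⟨a, a0, g, ha, ha0⟩ : ∃ (a a0 : ℤ) (g : Fin (n + 1) → ℤ), m • vec P = a • g ∧
            m0 • vec P₀ = a0 • g := by
          rcases Nat.eq_zero_or_pos k with hk | hk
          · subst hk
            rw [Set.range_eq_empty, Submodule.span_empty, Submodule.mem_bot] at hmP hmP0
            exact ⟨0, 0, 0, by rw [hmP]; simp, by rw [hmP0]; simp⟩
          · have hk1 : k = 1 := by omega
            subst hk1
            have hr : Set.range G = {G 0} := by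
              ext x
              constructor
              · rintro ⟨i, rfl⟩
                rw [Subsingleton.elim i 0]
                exact Set.mem_singleton _
              · intro hx
                exact ⟨0, (Set.mem_singleton_iff.1 hx).symm⟩
            rw [hr, Submodule.mem_span_singleton] at hmP hmP0
            obtain ⟨a, ha⟩ := hmP
            obtain ⟨a0, ha0⟩ := hmP0
            exact ⟨a, a0, G 0, ha.symm, ha0.symm⟩
        have hvP : vec P ≠ 0 := by
          intro h
          apply hT0 P hP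
          rw [← hpv P hP, h, map_zero]
        have ha' : a ≠ 0 := by
          rintro rfl
          rw [zero_smul] at ha
          rcases smul_eq_zero.1 ha with h | h
          · exact hm h
          · exact hvP h
        -- `C (a * m0) * P₀ = C (a0 * m) * P`
        have h1 : (a * m0) • vec P₀ = (a0 * m) • vec P := by
          rw [mul_smul, mul_smul, ha0, ha, smul_smul, smul_smul, mul_comm]
        have h2 := congrArg (polv n) h1
        rw [map_smul, map_smul, hpv P hP, hpv P₀ hP₀, smul_eq_C_mul, smul_eq_C_mul] at h2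
        exact prim_prop P₀ P (hT P₀ hP₀).2.1 (hT P hP).2.1 (a * m0) (a0 * m)
          (mul_ne_zero ha' hm0) h2
      exact (Finset.card_le_card hsub).trans Finset.card_le_two
    have h3 : κ ^ θ ≤ U ^ θ := Real.rpow_le_rpow hκ.le hAD hθ0.le
    have h4 : 0 < κ ^ θ := Real.rpow_pos_of_pos hκ _
    calc (T.card : ℝ) ≤ 2 := by exact_mod_cast hcard2
      _ = Kb * κ ^ θ := by rw [hKb]; field_simp
      _ ≤ Kb * U ^ θ := mul_le_mul_of_nonneg_left h3 hKb0.le
  rcases Nat.lt_or_ge n k with hkn | hkn
  · -- full rank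
    left
    have hkn1 : k = n + 1 := by omega
    subst hkn1
    have hpolar : ∀ (b : Fin (n + 1) → ℤ) (t : Fin (n + 1) → ℝ), (∀ k, |t k| ≤ μ) →
        L.transpose.mulVec t = iv b → b = 0 := by
      intro b t ht hbt
      have hzero : ∀ x : Fin (n + 1) → ℤ, ν x ≤ 1 → ∑ i, x i * b i = 0 := by
        intro x hx
        have h1 : ((∑ i, x i * b i : ℤ) : ℝ) = ∑ i, t i * (L.mulVec (iv x)) i := by
          have e1 : ∑ i, t i * (L.mulVec (iv x)) i = t ⬝ᵥ (L.mulVec (iv x)) := rfl
          rw [e1, Matrix.dotProduct_mulVec, ← Matrix.mulVec_transpose, hbt]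
          push_cast
          apply Finset.sum_congr rfl
          intro i _
          simp only [iv]
          ring
        have h2 : |((∑ i, x i * b i : ℤ) : ℝ)| < 1 := by
          rw [h1]
          calc |∑ i, t i * (L.mulVec (iv x)) i| ≤ ∑ i, |t i * (L.mulVec (iv x)) i| :=
                Finset.abs_sum_le_sum_abs _ _
            _ ≤ ∑ i : Fin (n + 1), μ := by
                apply Finset.sum_le_sum
                intro i _
                rw [abs_mul]
                have h5 : |(L.mulVec (iv x)) i| ≤ 1 := by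
                  rw [← Real.norm_eq_abs]
                  exact (norm_le_pi_norm _ i).trans hx
                calc _ ≤ μ * 1 := mul_le_mul (ht i) h5 (abs_nonneg _) hμ0.le
                  _ = μ := mul_one _
            _ = ((n + 1 : ℕ) : ℝ) * μ := by simp
            _ < 1 := by linarith [show (0 : ℝ) < ((n + 1 : ℕ) : ℝ) * μ by positivity]
        have h3 : |∑ i, x i * b i| < 1 := by exact_mod_cast h2
        exact Int.abs_lt_one_iff.1 h3
      have hGdet : (Matrix.of G).det ≠ 0 := by
        intro h0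
        obtain ⟨v, hv0, hv⟩ := Matrix.exists_vecMul_eq_zero_iff.2 h0
        apply hv0
        have h1 : ∑ i, v i • G i = 0 := by
          funext j
          have := congrFun hv j
          simpa [Matrix.vecMul, dotProduct] using this
        funext i
        exact Fintype.linearIndependent_iff.1 hli v h1 i
      apply Matrix.eq_zero_of_mulVec_eq_zero hGdet
      funext i
      exact hzero (G i) (hG1 i)
    have hfin := lattice_bound L hdet0 μ hμ0 hμ1 (T.image vec) (by
      intro m hm i
      obtain ⟨P, hP, rfl⟩ := Finset.mem_image.1 hm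
      exact hbound P hP i) hpolar
    rw [Finset.card_image_of_injOn hinj, hdet] at hfin
    refine hfin.trans (le_of_eq ?_)
    rw [prod_ww, hKa, hV]
    have hs2 : Real.sqrt (D2 z) * Real.sqrt (D2 z) = D2 z := Real.mul_self_sqrt hD.le
    have hsq := hsqrt.ne'
    have hNd := hdetN.ne'
    have hμn := hμ0.ne'
    have hAn := hA.ne'
    have hdpn := hdp.ne'
    have hDn := hD.ne'
    rw [show D2 z = Real.sqrt (D2 z) ^ 2 by rw [sq, hs2]]
    rw [Real.sqrt_sq hsqrt.le]
    field_simp
  · -- intermediate rank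
    right; right
    rcases T.eq_empty_or_nonempty with he | ⟨P₀, hP₀⟩
    · rw [he, Finset.card_empty, Nat.cast_zero]
      positivity
    set Gp : Fin k → ℤ[X] := fun a => polv n (G a) with hGp
    have hGpli : LinearIndependent ℤ Gp := by
      have := hli.map' (polv n) (LinearMap.ker_eq_bot.2 polv_injective)
      exact this
    have hF : ∃ F : ℤ[X], F.natDegree = n ∧ Irreducible (F.map (Int.castRingHom ℚ)) ∧
        F ∈ Submodule.span ℤ (Set.range Gp) := by
      obtain ⟨m, hm, hmP⟩ := hspan _ (hν1 P₀ hP₀)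
      obtain ⟨h1, -, h2, -, -⟩ := hT P₀ hP₀
      refine ⟨C m * P₀, ?_, ?_, ?_⟩
      · rw [natDegree_C_mul hm, h1]
      · rw [Polynomial.map_mul, map_C]
        have hmu : (Int.castRingHom ℚ) m ≠ 0 := by simpa using hm
        have : Associated (C ((Int.castRingHom ℚ) m) * P₀.map (Int.castRingHom ℚ))
            (P₀.map (Int.castRingHom ℚ)) :=
          associated_unit_mul_left _ _ (isUnit_C.2 (isUnit_iff_ne_zero.2 hmu))
        exact this.irreducible_iff.2 h2
      · have h3 : C m * P₀ = polv n (m • vec P₀) := by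
          rw [map_smul, hpv P₀ hP₀, smul_eq_C_mul]
        have h4 : Set.range Gp = (polv n) '' (Set.range G) := by
          rw [← Set.range_comp]
          rfl
        rw [h3, h4, Submodule.span_image]
        exact Submodule.mem_map_of_mem hmP
    set La : Fin k → ℝ := fun a => (ν (G a))⁻¹ with hLa
    have hLanti : Antitone La := by
      intro a b hab
      simp only [hLa]
      exact inv_anti₀ (hGpos a) (hGmono hab)
    have hLa1 : ∀ a, 1 ≤ La a := fun a => by
      simp only [hLa]
      exact (one_le_inv₀ (hGpos a)).2 (hG1 a)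
    set A' : ℝ := 2 * n * A with hA'
    have hA'0 : 0 < A' := by positivity
    have hknr : (k : ℝ) ≤ n := by exact_mod_cast hkn
    have hcomb : ∀ S : Fin k → ℂ, (∀ a, ‖S a‖ ≤ La a) →
        (∑ a, C (S a) * (Gp a).map (Int.castRingHom ℂ)).natDegree ≤ n ∧
        (∀ l, ‖(∑ a, C (S a) * (Gp a).map (Int.castRingHom ℂ)).eval (z l)‖ ≤ A' * ww z l) ∧
        ‖(∑ a, C (S a) * (Gp a).map (Int.castRingHom ℂ)).coeff n‖ ≤ A' := by
      intro S hS
      refine ⟨?_, ?_, ?_⟩
      · apply natDegree_sum_le_of_forall_le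
        intro a _
        exact (natDegree_C_mul_le _ _).trans (natDegree_map_le.trans (polv_natDegree _))
      · intro l
        rw [eval_finsetSum]
        calc ‖∑ a, (C (S a) * (Gp a).map (Int.castRingHom ℂ)).eval (z l)‖
            ≤ ∑ a, ‖(C (S a) * (Gp a).map (Int.castRingHom ℂ)).eval (z l)‖ := norm_sum_le _ _
          _ ≤ ∑ a : Fin k, 2 * (A * ww z l) := by
              apply Finset.sum_le_sum
              intro a _
              rw [eval_mul, eval_C, norm_mul, polv_eval]
              have h1 := ev_le σ hσ z hz hw0 hwσ A hA (iv (G a)) (ν (G a)) (fun i => by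
                rw [← Real.norm_eq_abs]
                exact norm_le_pi_norm (L.mulVec (iv (G a))) i) l
              have hgp := hGpos a
              have hwl := hw0 l
              calc ‖S a‖ * ‖ev (iv (G a)) (z l)‖ ≤ La a * (2 * ν (G a) * (A * ww z l)) :=
                    mul_le_mul (hS a) h1 (norm_nonneg _) (zero_le_one.trans (hLa1 a))
                _ = 2 * (A * ww z l) := by
                    simp only [hLa]
                    field_simp
          _ = k * (2 * (A * ww z l)) := by
              rw [Finset.sum_const, Finset.card_univ, Fintype.card_fin, nsmul_eq_mul]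
          _ ≤ n * (2 * (A * ww z l)) := by
              have hwl := hw0 l
              exact mul_le_mul_of_nonneg_right hknr (by positivity)
          _ = _ := by rw [hA']; ring
      · rw [finsetSum_coeff]
        calc ‖∑ a, (C (S a) * (Gp a).map (Int.castRingHom ℂ)).coeff n‖
            ≤ ∑ a, ‖(C (S a) * (Gp a).map (Int.castRingHom ℂ)).coeff n‖ := norm_sum_le _ _
          _ ≤ ∑ a : Fin k, A := by
              apply Finset.sum_le_sum
              intro a _
              rw [coeff_C_mul, norm_mul, coeff_map]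
              have h1 : (Gp a).coeff n = G a (Fin.last n) := polv_coeff (G a) (Fin.last n)
              have h2 : |((L.mulVec (iv (G a))) (Fin.last n))| ≤ ν (G a) := by
                rw [← Real.norm_eq_abs]
                exact norm_le_pi_norm (L.mulVec (iv (G a))) _
              rw [hL, LL_last, abs_mul, abs_of_pos (by positivity), one_div,
                inv_mul_le_iff₀ hA] at h2
              have h3 : ‖(Int.castRingHom ℂ) ((Gp a).coeff n)‖ ≤ A * ν (G a) := by
                rw [h1, eq_intCast, Complex.norm_intCast]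
                exact h2
              have hgp := hGpos a
              calc ‖S a‖ * ‖(Int.castRingHom ℂ) ((Gp a).coeff n)‖ ≤ La a * (A * ν (G a)) :=
                    mul_le_mul (hS a) h3 (norm_nonneg _) (zero_le_one.trans (hLa1 a))
                _ = A := by
                    simp only [hLa]
                    field_simp
          _ = k * A := by
              rw [Finset.sum_const, Finset.card_univ, Fintype.card_fin, nsmul_eq_mul]
          _ ≤ n * A := mul_le_mul_of_nonneg_right hknr hA.le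
          _ ≤ A' := by
              rw [hA']
              nlinarith [mul_pos hn0 hA]
    have hres := hN2' k hk2 hkn Gp (fun a => polv_natDegree _) hGpli hF La hLanti hLa1
      (K1 * A' ^ (2 * n) * ∏ i, ww z i) (by
        intro S S' hS hS'
        obtain ⟨a1, a2, a3⟩ := hcomb S hS
        obtain ⟨b1, b2, b3⟩ := hcomb S' hS'
        exact hN1' z hzinj A' hA'0 _ _ a1 b1 a2 a3 b2 b3)
    have hprodL : 0 < ∏ a, La a := Finset.prod_pos fun a _ => lt_of_lt_of_le one_pos (hLa1 a)
    have hR : K1 * A' ^ (2 * n) * ∏ i, ww z i = (K1 * (2 * n) ^ (2 * n)) * U := by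
      rw [hU, prod_ww, hA', mul_pow]
      ring
    rw [hR] at hres
    have hfin : ∏ a, La a ≤ K2 ^ (1 / e1) * (K1 * (2 * n) ^ (2 * n)) ^ θ * U ^ θ := by
      have h1 : ∏ a, La a = ((∏ a, La a) ^ e1) ^ (1 / e1) := by
        rw [← Real.rpow_mul hprodL.le, mul_one_div, div_self he10.ne', Real.rpow_one]
      have hW : 0 ≤ K1 * (2 * n) ^ (2 * n) * U := by positivity
      have hW1 : 0 ≤ K1 * (2 * n) ^ (2 * n) := by positivity
      have h2 : e2 * (1 / e1) = θ := by
        rw [hθe]
        ring
      have h3 : ((∏ a, La a) ^ e1) ^ (1 / e1) ≤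
          (K2 * (K1 * (2 * n) ^ (2 * n) * U) ^ e2) ^ (1 / e1) :=
        Real.rpow_le_rpow (Real.rpow_nonneg hprodL.le _) hres (by positivity)
      rw [Real.mul_rpow hK2.le (Real.rpow_nonneg hW _), ← Real.rpow_mul hW, h2,
        Real.mul_rpow hW1 hU0.le, ← h1, ← mul_assoc] at h3
      exact h3
    calc (T.card : ℝ) ≤ C1 * ∏ i, (ν (G i))⁻¹ := hTcard
      _ ≤ C1 * (K2 ^ (1 / e1) * (K1 * (2 * n) ^ (2 * n)) ^ θ * U ^ θ) :=
          mul_le_mul_of_nonneg_left hfin hC1.le
      _ = _ := by rw [hKc]; ring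

end Pool.Agent.Helper45.HR
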