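import Pool.Agent.Helper12.DiscCluster
import Pool.Agent.Helper45.DLat
import Mathlib

open Polynomial MeasureTheory

namespace Pool.Agent.Helper45.HR

open Pool.Agent.Helper12.Disc Pool.Agent.Helper45.Disc

variable {n : ℕ}

/-- splitting of a subset of indices -/
theorem split_on (z : Fin n → ℂ) (J : Finset (Fin n)) (D : ℝ) (hD : 0 < D) (p q : Fin n)
    (hp : p ∈ J) (hq : q ∈ J) (hpq : D ≤ ‖z p - z q‖) :
    ∃ J1 J2 : Finset (Fin n), Disjoint J1 J2 ∧ J1 ∪ J2 = J ∧ J1.Nonempty ∧ J2.Nonempty ∧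
      ∀ l ∈ J1, ∀ m ∈ J2, D / n ≤ ‖z l - z m‖ := by
  classical
  set z' : Fin n → ℂ := fun j => if j ∈ J then z j else z p with hz'
  have hz'J : ∀ j ∈ J, z' j = z j := by
    intro j hj
    rw [hz']
    simp only
    rw [if_pos hj]
  obtain ⟨I, hpI, hqI, hsep⟩ := exists_split D hD z' p q (by rw [hz'J p hp, hz'J q hq]; exact hpq)
  refine ⟨J ∩ I, J \ I, ?_, ?_, ⟨p, Finset.mem_inter.2 ⟨hp, hpI⟩⟩, ⟨q, Finset.mem_sdiff.2 ⟨hq, hqI⟩⟩, ?_⟩
  · rw [Finset.disjoint_left]
    intro x hx hx2
    exact (Finset.mem_sdiff.1 hx2).2 (Finset.mem_inter.1 hx).2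
  · ext x
    simp only [Finset.mem_union, Finset.mem_inter, Finset.mem_sdiff]
    tauto
  · intro l hl m hm
    have h1 := Finset.mem_inter.1 hl
    have h2 := Finset.mem_sdiff.1 hm
    have h3 := hsep l h1.2 m h2.2
    rwa [hz'J l h1.1, hz'J m h2.1] at h3

/-- product over ordered pairs -/
noncomputable def BJ (z : Fin n → ℂ) (b : ℝ) (J : Finset (Fin n)) : ℝ :=
  ∏ i ∈ J, ∏ j ∈ J.erase i, ‖z i - z j‖ ^ (-b)

noncomputable def AJ (z : Fin n → ℂ) (p : ℝ) (e : Fin n → Fin n) (J : Finset (Fin n)) : ℝ :=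
  ∏ i ∈ J, ‖z i - z (e i)‖ ^ (-p)

noncomputable def EJ (z : Fin n → ℂ) (s : ℝ) (i : Fin n) (c : Fin n → Fin n)
    (J : Finset (Fin n)) : ℝ :=
  ∏ l ∈ J.erase i, ‖z l - z (c l)‖ ^ (-s)

theorem rpow_neg_le {x y b : ℝ} (hx : 0 < x) (hxy : x ≤ y) (hb : 0 ≤ b) : y ^ (-b) ≤ x ^ (-b) := by
  rw [Real.rpow_neg (by linarith), Real.rpow_neg hx.le]
  apply inv_anti₀ (Real.rpow_pos_of_pos hx _)
  exact Real.rpow_le_rpow hx.le hxy hb

theorem BJ_union (z : Fin n → ℂ) (b : ℝ) (hb : 0 ≤ b) (J1 J2 : Finset (Fin n))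
    (hdis : Disjoint J1 J2) (η : ℝ) (hη : 0 < η)
    (hsep : ∀ l ∈ J1, ∀ m ∈ J2, η ≤ ‖z l - z m‖) :
    BJ z b (J1 ∪ J2) ≤ BJ z b J1 * BJ z b J2 * η ^ (-(2 * b * (J1.card * J2.card))) := by
  classical
  have hB0 : ∀ J : Finset (Fin n), ∀ i, 0 ≤ ∏ j ∈ J, ‖z i - z j‖ ^ (-b) := fun J i =>
    Finset.prod_nonneg fun _ _ => by positivity
  have key : ∀ J1 J2 : Finset (Fin n), Disjoint J1 J2 →
      (∀ l ∈ J1, ∀ m ∈ J2, η ≤ ‖z l - z m‖) →
      ∏ i ∈ J1, ∏ j ∈ (J1 ∪ J2).erase i, ‖z i - z j‖ ^ (-b) ≤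
        BJ z b J1 * η ^ (-(b * (J1.card * J2.card))) := by
    intro J1 J2 hdis hsep
    have h1 : ∀ i ∈ J1, ∏ j ∈ (J1 ∪ J2).erase i, ‖z i - z j‖ ^ (-b) ≤
        (∏ j ∈ J1.erase i, ‖z i - z j‖ ^ (-b)) * (η ^ (-b)) ^ J2.card := by
      intro i hi
      have hi2 : i ∉ J2 := fun h => Finset.disjoint_left.1 hdis hi h
      have e1 : (J1 ∪ J2).erase i = J1.erase i ∪ J2 := by
        rw [Finset.erase_union_distrib, Finset.erase_eq_of_notMem hi2]
      have e2 : Disjoint (J1.erase i) J2 := by
        rw [Finset.disjoint_left]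
        intro x hx hx2
        exact Finset.disjoint_left.1 hdis (Finset.mem_of_mem_erase hx) hx2
      rw [e1, Finset.prod_union e2]
      apply mul_le_mul_of_nonneg_left _ (hB0 _ _)
      rw [← Finset.prod_const]
      apply Finset.prod_le_prod (fun _ _ => by positivity)
      intro j hj
      exact rpow_neg_le hη (hsep i hi j hj) hb
    calc ∏ i ∈ J1, ∏ j ∈ (J1 ∪ J2).erase i, ‖z i - z j‖ ^ (-b)
        ≤ ∏ i ∈ J1, ((∏ j ∈ J1.erase i, ‖z i - z j‖ ^ (-b)) * (η ^ (-b)) ^ J2.card) :=
          Finset.prod_le_prod (fun i _ => hB0 _ _) h1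
      _ = BJ z b J1 * η ^ (-(b * (J1.card * J2.card))) := by
          rw [Finset.prod_mul_distrib, Finset.prod_const, ← pow_mul, ← Real.rpow_natCast,
            ← Real.rpow_mul hη.le]
          unfold BJ
          congr 2
          push_cast
          ring
  have h1 := key J1 J2 hdis hsep
  have h2 := key J2 J1 hdis.symm (fun l hl m hm => by rw [norm_sub_rev]; exact hsep m hm l hl)
  have hBB : ∀ J, 0 ≤ BJ z b J := fun J => Finset.prod_nonneg fun i _ => hB0 _ _
  have e0 : BJ z b (J1 ∪ J2) = (∏ i ∈ J1, ∏ j ∈ (J1 ∪ J2).erase i, ‖z i - z j‖ ^ (-b)) *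
      ∏ i ∈ J2, ∏ j ∈ (J1 ∪ J2).erase i, ‖z i - z j‖ ^ (-b) := by
    unfold BJ
    rw [Finset.prod_union hdis]
  rw [e0]
  rw [Finset.union_comm J2 J1] at h2
  calc _ ≤ (BJ z b J1 * η ^ (-(b * (J1.card * J2.card)))) *
        (BJ z b J2 * η ^ (-(b * (J2.card * J1.card)))) :=
        mul_le_mul h1 h2 (Finset.prod_nonneg fun i _ => hB0 _ _)
          (mul_nonneg (hBB _) (by positivity))
    _ = BJ z b J1 * BJ z b J2 * (η ^ (-(b * (J1.card * J2.card))) *
        η ^ (-(b * (J2.card * J1.card)))) := by ring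
    _ = _ := by
        rw [← Real.rpow_add hη]
        congr 2
        ring

theorem tree_bound (p a s : ℝ) (hp : 0 < p) (ha : 0 < a) (hs : 0 < s)
    (hφ : ∀ k : ℕ, 2 ≤ k → k ≤ n → p * k + a * (k * (k - 1) / 2) ≤ s * (k - 1))
    (z : Fin n → ℂ) (hz : Function.Injective z) :
    ∀ (k : ℕ) (J : Finset (Fin n)), J.card = k → 1 ≤ k → ∀ e : Fin n → Fin n, ∀ D : ℝ, 0 < D →
      (∀ i ∈ J, ∀ j ∈ J, ‖z i - z j‖ ≤ D) →
      (∀ i ∈ J, e i ≠ i ∧ (e i ∈ J ∨ D / n ≤ ‖z i - z (e i)‖)) →
      ∃ i ∈ J, ∃ c : Fin n → Fin n,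
        (∀ w : Fin n → ℂ, (∀ l ∈ J, l ≠ i → w l = w (c l)) → ∀ l ∈ J, w l = w i) ∧
        AJ z p e J * BJ z (a / 2) J ≤
          (D / n) ^ (-(p * k + a * (k * (k - 1) / 2))) * D ^ (s * ((k : ℝ) - 1)) * EJ z s i c J := by
  classical
  intro k
  induction k using Nat.strong_induction_on with
  | _ k ih =>
    intro J hJ hk e D hD hdiam he
    have hJne : J.Nonempty := by rw [← Finset.card_pos]; omega
    obtain ⟨x0, hx0⟩ := hJne
    have hn : 0 < n := x0.pos
    have hn' : (0 : ℝ) < n := by exact_mod_cast hn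
    rcases Nat.lt_or_ge k 2 with hk2 | hk2
    · -- one point
      have hk1 : k = 1 := by omega
      subst hk1
      obtain ⟨x, hx⟩ := Finset.card_eq_one.1 hJ
      subst hx
      refine ⟨x, Finset.mem_singleton_self x, id, ?_, ?_⟩
      · intro w _ l hl
        rw [Finset.mem_singleton.1 hl]
      · obtain ⟨h1, h2⟩ := he x (Finset.mem_singleton_self x)
        have h3 : D / n ≤ ‖z x - z (e x)‖ := by
          rcases h2 with h2 | h2
          · exact absurd (Finset.mem_singleton.1 h2) h1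
          · exact h2
        have e1 : AJ z p e {x} = ‖z x - z (e x)‖ ^ (-p) := by
          unfold AJ; rw [Finset.prod_singleton]
        have e2 : BJ z (a / 2) {x} = 1 := by
          unfold BJ; rw [Finset.prod_singleton]; simp
        have e3 : EJ z s x id {x} = 1 := by
          unfold EJ; simp
        rw [e1, e2, e3]
        have h4 := rpow_neg_le (by positivity) h3 hp.le
        have e4 : (D / n) ^ (-(p * ((1 : ℕ) : ℝ) + a * (((1 : ℕ) : ℝ) * (((1 : ℕ) : ℝ) - 1) / 2))) =
            (D / n) ^ (-p) := by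
          congr 1
          push_cast
          ring
        have e5 : D ^ (s * (((1 : ℕ) : ℝ) - 1)) = 1 := by
          rw [show s * (((1 : ℕ) : ℝ) - 1) = 0 by push_cast; ring, Real.rpow_zero]
        rw [e4, e5, mul_one, mul_one, mul_one]
        exact h4
    · -- at least two points
      have hJ2 : 1 < J.card := by omega
      obtain ⟨u, hu, v, hv, hmax⟩ : ∃ u ∈ J, ∃ v ∈ J, ∀ i ∈ J, ∀ j ∈ J,
          ‖z i - z j‖ ≤ ‖z u - z v‖ := by
        obtain ⟨⟨u, v⟩, huv, hm⟩ := (J ×ˢ J).exists_max_image (fun x => ‖z x.1 - z x.2‖)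
          ⟨(x0, x0), Finset.mem_product.2 ⟨hx0, hx0⟩⟩
        have h1 := Finset.mem_product.1 huv
        exact ⟨u, h1.1, v, h1.2, fun i hi j hj => hm (i, j) (Finset.mem_product.2 ⟨hi, hj⟩)⟩
      set D' : ℝ := ‖z u - z v‖ with hD'
      have hD'0 : 0 < D' := by
        obtain ⟨x, hx, y, hy, hxy⟩ := Finset.one_lt_card.1 hJ2
        have h1 : 0 < ‖z x - z y‖ := norm_pos_iff.2 (sub_ne_zero.2 (fun h => hxy (hz h)))
        exact lt_of_lt_of_le h1 (hmax x hx y hy)
      have hD'D : D' ≤ D := hdiam u hu v hv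
      obtain ⟨J1, J2, hdis, hun, hne1, hne2, hsep⟩ := split_on z J D' hD'0 u v hu hv le_rfl
      have hcard : J1.card + J2.card = k := by
        rw [← Finset.card_union_of_disjoint hdis, hun, hJ]
      have hc1 : 0 < J1.card := Finset.card_pos.2 hne1
      have hc2 : 0 < J2.card := Finset.card_pos.2 hne2
      have hsub1 : ∀ x ∈ J1, x ∈ J := fun x hx => hun ▸ Finset.mem_union_left _ hx
      have hsub2 : ∀ x ∈ J2, x ∈ J := fun x hx => hun ▸ Finset.mem_union_right _ hx
      have hDn : D' / n ≤ D / n := div_le_div_of_nonneg_right hD'D hn'.le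
      obtain ⟨i1, hi1, c1, hg1, hb1⟩ := ih J1.card (by omega) J1 rfl hc1 e D' hD'0
        (fun i hi j hj => hmax i (hsub1 i hi) j (hsub1 j hj)) (by
          intro i hi
          obtain ⟨h1, h2⟩ := he i (hsub1 i hi)
          refine ⟨h1, ?_⟩
          rcases h2 with h2 | h2
          · rw [← hun, Finset.mem_union] at h2
            rcases h2 with h2 | h2
            · exact Or.inl h2
            · exact Or.inr (hsep i hi (e i) h2)
          · exact Or.inr (hDn.trans h2))
      obtain ⟨i2, hi2, c2, hg2, hb2⟩ := ih J2.card (by omega) J2 rfl hc2 e D' hD'0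
        (fun i hi j hj => hmax i (hsub2 i hi) j (hsub2 j hj)) (by
          intro i hi
          obtain ⟨h1, h2⟩ := he i (hsub2 i hi)
          refine ⟨h1, ?_⟩
          rcases h2 with h2 | h2
          · rw [← hun, Finset.mem_union] at h2
            rcases h2 with h2 | h2
            · refine Or.inr ?_
              rw [norm_sub_rev]
              exact hsep (e i) h2 i hi
            · exact Or.inl h2
          · exact Or.inr (hDn.trans h2))
      have hi2J1 : i2 ∉ J1 := fun h => Finset.disjoint_left.1 hdis h hi2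
      have hi12 : i1 ≠ i2 := fun h => hi2J1 (h ▸ hi1)
      set c : Fin n → Fin n := fun l => if l ∈ J1 then c1 l else if l = i2 then i1 else c2 l with hc
      have hcJ1 : ∀ l ∈ J1, c l = c1 l := by
        intro l hl
        rw [hc]
        simp only
        rw [if_pos hl]
      have hci2 : c i2 = i1 := by
        rw [hc]
        simp only
        rw [if_neg hi2J1]
        simp
      have hcJ2 : ∀ l ∈ J2, l ≠ i2 → c l = c2 l := by
        intro l hl hli
        rw [hc]
        simp only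
        rw [if_neg (fun h => Finset.disjoint_left.1 hdis h hl), if_neg hli]
      refine ⟨i1, hsub1 _ hi1, c, ?_, ?_⟩
      · intro w hw
        have h1 : ∀ l ∈ J1, w l = w i1 := by
          apply hg1
          intro l hl hli
          rw [hw l (hsub1 l hl) hli, hcJ1 l hl]
        have h2 : ∀ l ∈ J2, w l = w i2 := by
          apply hg2
          intro l hl hli
          have hl1 : l ≠ i1 := fun h => Finset.disjoint_left.1 hdis (h ▸ hi1) hl
          rw [hw l (hsub2 l hl) hl1, hcJ2 l hl hli]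
        have h3 : w i2 = w i1 := by
          rw [hw i2 (hsub2 _ hi2) hi12.symm, hci2]
        intro l hl
        rw [← hun, Finset.mem_union] at hl
        rcases hl with hl | hl
        · exact h1 l hl
        · rw [h2 l hl, h3]
      · -- the estimate
        have hDn0 : 0 < D' / n := by positivity
        have eA : AJ z p e J = AJ z p e J1 * AJ z p e J2 := by
          unfold AJ
          rw [← hun, Finset.prod_union hdis]
        have eB := BJ_union z (a / 2) (by positivity) J1 J2 hdis (D' / n) hDn0 hsep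
        rw [hun] at eB
        have hE : ∀ J : Finset (Fin n), ∀ i c, 0 ≤ EJ z s i c J := fun J i c =>
          Finset.prod_nonneg fun _ _ => by positivity
        have hA0 : ∀ J, 0 ≤ AJ z p e J := fun J => Finset.prod_nonneg fun _ _ => by positivity
        have hB0 : ∀ J, 0 ≤ BJ z (a / 2) J := fun J =>
          Finset.prod_nonneg fun _ _ => Finset.prod_nonneg fun _ _ => by positivity
        have hedge : 1 ≤ D' ^ s * ‖z i2 - z i1‖ ^ (-s) := by
          have h1 : 0 < ‖z i2 - z i1‖ := norm_pos_iff.2 (sub_ne_zero.2 (fun h => hi12 (hz h).symm))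
          have h2 : ‖z i2 - z i1‖ ≤ D' := hmax _ (hsub2 _ hi2) _ (hsub1 _ hi1)
          calc (1 : ℝ) = D' ^ s * D' ^ (-s) := by rw [← Real.rpow_add hD'0, add_neg_cancel, Real.rpow_zero]
            _ ≤ _ := mul_le_mul_of_nonneg_left (rpow_neg_le h1 h2 hs.le) (by positivity)
        have eE : EJ z s i1 c J = EJ z s i1 c1 J1 * (‖z i2 - z i1‖ ^ (-s) * EJ z s i2 c2 J2) := by
          unfold EJ
          have e1 : J.erase i1 = J1.erase i1 ∪ J2 := by
            rw [← hun, Finset.erase_union_distrib, Finset.erase_eq_of_notMem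
              (fun h => Finset.disjoint_left.1 hdis hi1 h)]
          have e2 : Disjoint (J1.erase i1) J2 := by
            rw [Finset.disjoint_left]
            intro x hx hx2
            exact Finset.disjoint_left.1 hdis (Finset.mem_of_mem_erase hx) hx2
          rw [e1, Finset.prod_union e2]
          congr 1
          · apply Finset.prod_congr rfl
            intro l hl
            rw [hcJ1 l (Finset.mem_of_mem_erase hl)]
          · rw [← Finset.mul_prod_erase _ _ hi2, hci2]
            congr 1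
            apply Finset.prod_congr rfl
            intro l hl
            rw [hcJ2 l (Finset.mem_of_mem_erase hl) (Finset.ne_of_mem_erase hl)]
        set k1 : ℕ := J1.card with hk1
        set k2 : ℕ := J2.card with hk2'
        have hkr : (k : ℝ) = k1 + k2 := by exact_mod_cast hcard.symm
        set ψ : ℝ → ℝ := fun t => p * t + a * (t * (t - 1) / 2) with hψ
        have hψadd : ψ k1 + ψ k2 + a * (k1 * k2) = ψ k := by
          rw [hψ, hkr]
          simp only
          ring
        have hkn : k ≤ n := by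
          rw [← hJ]
          exact (Finset.card_le_univ _).trans (by simp)
        have hφk : ψ k ≤ s * ((k : ℝ) - 1) := hφ k hk2 hkn
        have hb1' : AJ z p e J1 * BJ z (a / 2) J1 ≤
          (D' / n) ^ (-ψ k1) * D' ^ (s * ((k1 : ℝ) - 1)) * EJ z s i1 c1 J1 := hb1
        have hb2' : AJ z p e J2 * BJ z (a / 2) J2 ≤
          (D' / n) ^ (-ψ k2) * D' ^ (s * ((k2 : ℝ) - 1)) * EJ z s i2 c2 J2 := hb2
        calc AJ z p e J * BJ z (a / 2) J
            ≤ AJ z p e J1 * AJ z p e J2 * (BJ z (a / 2) J1 * BJ z (a / 2) J2 *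
              (D' / n) ^ (-(2 * (a / 2) * (k1 * k2)))) := by
              rw [eA]
              exact mul_le_mul_of_nonneg_left eB (mul_nonneg (hA0 _) (hA0 _))
          _ = (AJ z p e J1 * BJ z (a / 2) J1) * (AJ z p e J2 * BJ z (a / 2) J2) *
              (D' / n) ^ (-(a * (k1 * k2))) := by
              rw [show 2 * (a / 2) * ((k1 : ℝ) * k2) = a * (k1 * k2) by ring]
              ring
          _ ≤ ((D' / n) ^ (-ψ k1) * D' ^ (s * ((k1 : ℝ) - 1)) * EJ z s i1 c1 J1) *
              ((D' / n) ^ (-ψ k2) * D' ^ (s * ((k2 : ℝ) - 1)) * EJ z s i2 c2 J2) *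
              (D' / n) ^ (-(a * (k1 * k2))) := by
              apply mul_le_mul_of_nonneg_right _ (by positivity)
              exact mul_le_mul hb1' hb2' (mul_nonneg (hA0 _) (hB0 _))
                (mul_nonneg (by positivity) (hE _ _ _))
          _ ≤ (((D' / n) ^ (-ψ k1) * D' ^ (s * ((k1 : ℝ) - 1)) * EJ z s i1 c1 J1) *
              ((D' / n) ^ (-ψ k2) * D' ^ (s * ((k2 : ℝ) - 1)) * EJ z s i2 c2 J2) *
              (D' / n) ^ (-(a * (k1 * k2)))) * (D' ^ s * ‖z i2 - z i1‖ ^ (-s)) := by
              apply le_mul_of_one_le_right _ hedge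
              have := hE J1 i1 c1
              have := hE J2 i2 c2
              positivity
          _ = ((D' / n) ^ (-ψ k1) * (D' / n) ^ (-ψ k2) * (D' / n) ^ (-(a * (k1 * k2)))) *
              (D' ^ (s * ((k1 : ℝ) - 1)) * D' ^ (s * ((k2 : ℝ) - 1)) * D' ^ s) *
              EJ z s i1 c J := by
              rw [eE]
              ring
          _ = (D' / n) ^ (-ψ k) * D' ^ (s * ((k : ℝ) - 1)) * EJ z s i1 c J := by
              rw [← Real.rpow_add hDn0, ← Real.rpow_add hDn0, ← Real.rpow_add hD'0,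
                ← Real.rpow_add hD'0]
              congr 3
              · rw [← hψadd]; ring
              · rw [hkr]; ring
          _ = (n : ℝ) ^ (ψ k) * D' ^ (s * ((k : ℝ) - 1) - ψ k) * EJ z s i1 c J := by
              congr 1
              rw [Real.div_rpow hD'0.le hn'.le, Real.rpow_neg hn'.le, Real.rpow_sub hD'0,
                Real.rpow_neg hD'0.le]
              have := (Real.rpow_pos_of_pos hn' (ψ k)).ne'
              have := (Real.rpow_pos_of_pos hD'0 (ψ k)).ne'
              field_simp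
          _ ≤ (n : ℝ) ^ (ψ k) * D ^ (s * ((k : ℝ) - 1) - ψ k) * EJ z s i1 c J := by
              apply mul_le_mul_of_nonneg_right _ (hE _ _ _)
              apply mul_le_mul_of_nonneg_left _ (by positivity)
              exact Real.rpow_le_rpow hD'0.le hD'D (by linarith)
          _ = _ := by
              congr 1
              have e9 : p * (k : ℝ) + a * (k * (k - 1) / 2) = ψ k := rfl
              rw [e9, Real.div_rpow hD.le hn'.le, Real.rpow_neg hn'.le, Real.rpow_sub hD,
                Real.rpow_neg hD.le]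
              have := (Real.rpow_pos_of_pos hn' (ψ k)).ne'
              have := (Real.rpow_pos_of_pos hD (ψ k)).ne'
              field_simp

end Pool.Agent.Helper45.HR
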