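import Pool.Agent.Helper12.DiscVolA
import Pool.Agent.Helper45.DShift
import Pool.Agent.Helper45.HR.Stmts
import Pool.Agent.Helper45.HR.Tree
import Mathlib

open Polynomial MeasureTheory

namespace Pool.Agent.Helper45.HR

open Pool.Agent.Helper12.Disc Pool.Agent.Helper45.Disc

variable {n : ℕ}

theorem ennreal_neg_anti {a b : ENNReal} (h : a ≤ b) {s : ℝ} (hs : 0 ≤ s) : b ^ (-s) ≤ a ^ (-s) := by
  rw [ENNReal.rpow_neg, ENNReal.rpow_neg]
  exact ENNReal.inv_le_inv.2 (ENNReal.rpow_le_rpow h hs)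

theorem lin_int {m : ℕ} (A : Matrix (Fin m) (Fin m) ℂ) (hA : A.det ≠ 0) {s : ℝ} (hs0 : 0 < s)
    (hs : s < 1) (R : ℝ) :
    ∫⁻ y in {y : Fin m → ℝ | ∀ i, |y i| ≤ R},
      ∏ k, (ENNReal.ofReal ‖(A.mulVec (fun j => ((y j : ℝ) : ℂ))) k‖) ^ (-s) < ⊤ := by
  classical
  obtain ⟨B, hB, hle⟩ := real_selection A hA
  set M : ℝ := max R 1 with hM
  have hM1 : 1 ≤ M := le_max_right _ _
  have hRM : R ≤ M := le_max_left _ _
  set M' : ℝ := (1 + ∑ i, ∑ j, |B i j|) * M with hM'
  have hsum0 : 0 ≤ ∑ i, ∑ j, |B i j| := Finset.sum_nonneg fun _ _ => Finset.sum_nonneg fun _ _ =>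
      abs_nonneg _
  have hM'pos : 0 < M' := by
    have : 0 < M := by linarith
    positivity
  set T : Set (Fin m → ℝ) := Set.univ.pi fun _ => Set.Icc (-M') M' with hT
  have hTm : MeasurableSet T := MeasurableSet.univ_pi fun _ => measurableSet_Icc
  set g : (Fin m → ℝ) → ENNReal := fun x => ∏ k, phi s (x k) with hg
  have hgm : Measurable g :=
    Finset.measurable_prod _ (fun i _ => (phi_measurable s).comp (measurable_pi_apply i))
  have hdet : LinearMap.det (Matrix.toLin' B) ≠ 0 := by
    rw [LinearMap.det_toLin']; exact hB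
  have hBm : Measurable (Matrix.toLin' B : (Fin m → ℝ) → (Fin m → ℝ)) :=
    (LinearMap.continuous_on_pi (Matrix.toLin' B)).measurable
  have h1 : ∫⁻ y in {y : Fin m → ℝ | ∀ i, |y i| ≤ R},
      ∏ k, (ENNReal.ofReal ‖(A.mulVec (fun j => ((y j : ℝ) : ℂ))) k‖) ^ (-s) ≤
      ∫⁻ y in {y : Fin m → ℝ | ∀ i, |y i| ≤ R}, T.indicator g (Matrix.toLin' B y) := by
    have hSm : MeasurableSet {y : Fin m → ℝ | ∀ i, |y i| ≤ R} := by
      have : {y : Fin m → ℝ | ∀ i, |y i| ≤ R} = ⋂ i, {y : Fin m → ℝ | |y i| ≤ R} := by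
        ext y; simp
      rw [this]
      apply MeasurableSet.iInter
      intro i
      exact measurableSet_le (by fun_prop) measurable_const
    apply setLIntegral_mono' hSm
    intro y hy
    have hyT : Matrix.toLin' B y ∈ T := by
      intro k _
      have h2 : |(Matrix.toLin' B y) k| ≤ M' := by
        rw [Matrix.toLin'_apply]
        simp only [Matrix.mulVec, dotProduct]
        calc |∑ j, B k j * y j| ≤ ∑ j, |B k j * y j| := Finset.abs_sum_le_sum_abs _ _
          _ ≤ ∑ j, |B k j| * M := by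
            apply Finset.sum_le_sum
            intro j _
            rw [abs_mul]
            exact mul_le_mul_of_nonneg_left ((hy j).trans hRM) (abs_nonneg _)
          _ = (∑ j, |B k j|) * M := by rw [Finset.sum_mul]
          _ ≤ M' := by
            rw [hM']
            apply mul_le_mul_of_nonneg_right _ (by linarith)
            have : ∑ j, |B k j| ≤ ∑ i, ∑ j, |B i j| :=
              Finset.single_le_sum (f := fun i => ∑ j, |B i j|)
                (fun i _ => Finset.sum_nonneg fun _ _ => abs_nonneg _) (Finset.mem_univ k)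
            linarith
      exact abs_le.1 h2
    rw [Set.indicator_of_mem hyT, hg]
    simp only
    apply Finset.prod_le_prod'
    intro k _
    unfold phi
    apply ennreal_neg_anti _ hs0.le
    apply ENNReal.ofReal_le_ofReal
    rw [Matrix.toLin'_apply]
    exact hle y k
  refine lt_of_le_of_lt h1 ?_
  refine lt_of_le_of_lt (setLIntegral_le_lintegral _ _) ?_
  have h2 : ∫⁻ y, T.indicator g (Matrix.toLin' B y) =
      ∫⁻ x, T.indicator g x ∂(Measure.map (Matrix.toLin' B) volume) :=
    (lintegral_map (hgm.indicator hTm) hBm).symm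
  rw [h2, Measure.map_linearMap_addHaar_eq_smul_addHaar volume hdet, lintegral_smul_measure,
    lintegral_indicator hTm]
  apply ENNReal.mul_lt_top ENNReal.ofReal_lt_top
  set ν : Measure ℝ := volume.restrict (Set.Icc (-M') M') with hν
  have hfin : (∫⁻ x, phi s x ∂ν) < ⊤ := phi_lt_top hs M' hM'pos
  have : IsFiniteMeasure ν := by rw [hν]; infer_instance
  have hpi : Measure.pi (fun _ : Fin m => ν) = (volume : Measure (Fin m → ℝ)).restrict T := by
    rw [hν, volume_pi, Measure.restrict_pi_pi]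
  rw [← hpi, lintegral_pi_prod ν (phi s) (phi_measurable s) m]
  exact ENNReal.pow_lt_top hfin

/-- matrix of the forms `z l - z (c l)`, `l ≠ i`, and `z i` -/
noncomputable def Amat (N : Matrix (Fin n) (Fin n) ℂ) (i : Fin n) (c : Fin n → Fin n) :
    Matrix (Fin n) (Fin n) ℂ :=
  Matrix.of fun l j => if l = i then N i j else N l j - N (c l) j

theorem Amat_mulVec (N : Matrix (Fin n) (Fin n) ℂ) (i : Fin n) (c : Fin n → Fin n)
    (v : Fin n → ℂ) (l : Fin n) :
    (Amat N i c).mulVec v l = if l = i then N.mulVec v i else N.mulVec v l - N.mulVec v (c l) := by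
  simp only [Matrix.mulVec, dotProduct, Amat, Matrix.of_apply]
  split_ifs
  · rfl
  · rw [← Finset.sum_sub_distrib]
    apply Finset.sum_congr rfl
    intro j _
    ring

theorem Amat_det (N : Matrix (Fin n) (Fin n) ℂ) (hN : N.det ≠ 0) (i : Fin n) (c : Fin n → Fin n)
    (hg : Good i c) : (Amat N i c).det ≠ 0 := by
  intro h0
  obtain ⟨v, hv0, hv⟩ := Matrix.exists_mulVec_eq_zero_iff.2 h0
  apply hv0
  have h1 : N.mulVec v i = 0 := by
    have := congrFun hv i
    rw [Amat_mulVec, if_pos rfl] at this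
    exact this
  have h2 : ∀ l, l ≠ i → N.mulVec v l = N.mulVec v (c l) := by
    intro l hl
    have := congrFun hv l
    rw [Amat_mulVec, if_neg hl] at this
    exact sub_eq_zero.1 this
  have h3 := hg (N.mulVec v) h2
  have h4 : N.mulVec v = 0 := by
    funext l
    rw [h3 l, h1]
    rfl
  exact Matrix.eq_zero_of_mulVec_eq_zero hN h4

theorem st_F5 : ST_F5 := by
  classical
  intro n hn p a s hp ha hs hs1 hφ σ hσ R
  have hn' : (0 : ℝ) < n := by
    have : 0 < n := by omega
    exact_mod_cast this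
  set M : ℝ := max R 1 with hM
  have hM1 : 1 ≤ M := le_max_right _ _
  have hRM : R ≤ M := le_max_left _ _
  set D : ℝ := 4 * M with hD
  have hD0 : 0 < D := by rw [hD]; linarith
  set K : ℝ := (D / n) ^ (-(p * n + a * (n * ((n : ℝ) - 1) / 2))) * D ^ (s * ((n : ℝ) - 1)) with hK
  have hK0 : 0 ≤ K := by positivity
  set Φ : Fin n × (Fin n → Fin n) → (Fin n → ℝ) → ENNReal := fun ic y =>
    ∏ k, (ENNReal.ofReal ‖((Amat (Nmat σ) ic.1 ic.2).mulVec (fun j => ((y j : ℝ) : ℂ))) k‖) ^ (-s)
    with hΦ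
  set good : Finset (Fin n × (Fin n → Fin n)) := Finset.univ.filter fun ic => Good ic.1 ic.2
    with hgood
  have hΦm : ∀ ic, Measurable (Φ ic) := by
    intro ic
    rw [hΦ]
    simp only
    apply Finset.measurable_prod
    intro k _
    have h1 : Measurable fun y : Fin n → ℝ =>
        ((Amat (Nmat σ) ic.1 ic.2).mulVec (fun j => ((y j : ℝ) : ℂ))) k := by
      simp only [Matrix.mulVec, dotProduct]
      fun_prop
    exact (h1.norm.ennreal_ofReal).pow_const _
  have hpt : ∀ y ∈ {y : Fin n → ℝ | ∀ i, |y i| ≤ R}, ENNReal.ofReal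
      ((∏ i, dd (Zof (Nmat σ) y) i) ^ (-p) * D2 (Zof (Nmat σ) y) ^ (-(a / 2))) ≤
      ENNReal.ofReal (K * (2 * M) ^ s) * ∑ ic ∈ good, Φ ic y := by
    intro y hy
    set z := Zof (Nmat σ) y with hz
    rcases eq_or_ne (D2 z) 0 with hD2 | hD2
    · rw [hD2, Real.zero_rpow (by have : 0 < a / 2 := by positivity
                                  linarith), mul_zero, ENNReal.ofReal_zero]
      exact zero_le
    have hzinj : Function.Injective z := by
      intro i j hij
      by_contra hne
      apply hD2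
      unfold D2
      apply Finset.prod_eq_zero (Finset.mem_univ i)
      apply Finset.prod_eq_zero (Finset.mem_erase.2 ⟨Ne.symm hne, Finset.mem_univ j⟩)
      rw [hij, sub_self, norm_zero]
    have hznorm : ∀ l, ‖z l‖ ≤ 2 * M := by
      intro l
      refine (norm_Zof_le σ y l).trans ?_
      linarith [hy l, hy (σ l)]
    have hdist : ∀ i j, ‖z i - z j‖ ≤ D := by
      intro i j
      calc _ ≤ ‖z i‖ + ‖z j‖ := norm_sub_le _ _
        _ ≤ D := by rw [hD]; linarith [hznorm i, hznorm j]
    have hex : ∀ i, ∃ j, j ≠ i ∧ dd z i = ‖z i - z j‖ := fun i => dd_exists hn z i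
    choose e he1 he2 using hex
    obtain ⟨i, -, c, hg, hb⟩ := tree_bound p a s hp ha hs hφ z hzinj n Finset.univ (by simp)
      (by omega) e D hD0 (fun i _ j _ => hdist i j)
      (fun i _ => ⟨he1 i, Or.inl (Finset.mem_univ _)⟩)
    have hGood : Good i c := fun w hw l => hg w (fun l _ hl => hw l hl) l (Finset.mem_univ l)
    have hAJ : AJ z p e Finset.univ = (∏ i, dd z i) ^ (-p) := by
      unfold AJ
      rw [← Real.finsetProd_rpow _ _ (fun i _ => dd_nonneg z i)]
      apply Finset.prod_congr rfl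
      intro i _
      rw [he2 i]
    have hBJ : BJ z (a / 2) Finset.univ = D2 z ^ (-(a / 2)) := by
      unfold BJ D2
      rw [← Real.finsetProd_rpow _ _
        (fun i _ => Finset.prod_nonneg fun _ _ => norm_nonneg _)]
      apply Finset.prod_congr rfl
      intro i _
      rw [← Real.finsetProd_rpow _ _ (fun _ _ => norm_nonneg _)]
    rw [hAJ, hBJ] at hb
    have hEJ : ENNReal.ofReal (EJ z s i c Finset.univ) ≤
        ENNReal.ofReal ((2 * M) ^ s) * Φ (i, c) y := by
      have e1 : Φ (i, c) y = (ENNReal.ofReal ‖z i‖) ^ (-s) *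
          ∏ l ∈ Finset.univ.erase i, (ENNReal.ofReal ‖z l - z (c l)‖) ^ (-s) := by
        rw [hΦ]
        simp only
        rw [← Finset.mul_prod_erase _ _ (Finset.mem_univ i)]
        congr 1
        · rw [Amat_mulVec, if_pos rfl]
          rfl
        · apply Finset.prod_congr rfl
          intro l hl
          rw [Amat_mulVec, if_neg (Finset.ne_of_mem_erase hl)]
          rfl
      have e2 : 1 ≤ ENNReal.ofReal ((2 * M) ^ s) * (ENNReal.ofReal ‖z i‖) ^ (-s) := by
        have h1 : (ENNReal.ofReal (2 * M)) ^ (-s) ≤ (ENNReal.ofReal ‖z i‖) ^ (-s) :=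
          ennreal_neg_anti (ENNReal.ofReal_le_ofReal (hznorm i)) hs.le
        have h2M : 0 < 2 * M := by linarith
        calc (1 : ENNReal) = ENNReal.ofReal ((2 * M) ^ s) * (ENNReal.ofReal (2 * M)) ^ (-s) := by
              rw [ENNReal.ofReal_rpow_of_pos h2M, ← ENNReal.ofReal_mul (by positivity),
                ← Real.rpow_add h2M, add_neg_cancel, Real.rpow_zero, ENNReal.ofReal_one]
          _ ≤ _ := mul_le_mul_right h1 _
      have e3 : ENNReal.ofReal (EJ z s i c Finset.univ) ≤
          ∏ l ∈ Finset.univ.erase i, (ENNReal.ofReal ‖z l - z (c l)‖) ^ (-s) := by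
        unfold EJ
        rw [ENNReal.ofReal_prod_of_nonneg (fun _ _ => by positivity)]
        apply Finset.prod_le_prod'
        intro l _
        rcases eq_or_ne ‖z l - z (c l)‖ 0 with h0 | h0
        · rw [h0, Real.zero_rpow (by linarith), ENNReal.ofReal_zero]
          exact zero_le
        · rw [ENNReal.ofReal_rpow_of_pos (lt_of_le_of_ne (norm_nonneg _) h0.symm)]
      calc ENNReal.ofReal (EJ z s i c Finset.univ)
          ≤ 1 * ∏ l ∈ Finset.univ.erase i, (ENNReal.ofReal ‖z l - z (c l)‖) ^ (-s) := by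
            rw [one_mul]; exact e3
        _ ≤ (ENNReal.ofReal ((2 * M) ^ s) * (ENNReal.ofReal ‖z i‖) ^ (-s)) *
            ∏ l ∈ Finset.univ.erase i, (ENNReal.ofReal ‖z l - z (c l)‖) ^ (-s) :=
            mul_le_mul_left e2 _
        _ = _ := by rw [e1, mul_assoc]
    calc ENNReal.ofReal ((∏ i, dd z i) ^ (-p) * D2 z ^ (-(a / 2)))
        ≤ ENNReal.ofReal (K * EJ z s i c Finset.univ) := ENNReal.ofReal_le_ofReal hb
      _ = ENNReal.ofReal K * ENNReal.ofReal (EJ z s i c Finset.univ) :=
          ENNReal.ofReal_mul hK0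
      _ ≤ ENNReal.ofReal K * (ENNReal.ofReal ((2 * M) ^ s) * Φ (i, c) y) :=
          mul_le_mul_right hEJ _
      _ = ENNReal.ofReal (K * (2 * M) ^ s) * Φ (i, c) y := by
          rw [← mul_assoc, ← ENNReal.ofReal_mul hK0]
      _ ≤ _ := by
          apply mul_le_mul_right
          exact Finset.single_le_sum (f := fun ic => Φ ic y) (fun _ _ => zero_le)
            (Finset.mem_filter.2 ⟨Finset.mem_univ _, hGood⟩)
  have hSm : MeasurableSet {y : Fin n → ℝ | ∀ i, |y i| ≤ R} := by
    have : {y : Fin n → ℝ | ∀ i, |y i| ≤ R} = ⋂ i, {y : Fin n → ℝ | |y i| ≤ R} := by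
      ext y; simp
    rw [this]
    apply MeasurableSet.iInter
    intro i
    exact measurableSet_le (by fun_prop) measurable_const
  refine lt_of_le_of_lt (setLIntegral_mono' hSm hpt) ?_
  rw [lintegral_const_mul _ (Finset.measurable_sum _ (fun ic _ => hΦm ic))]
  apply ENNReal.mul_lt_top ENNReal.ofReal_lt_top
  rw [lintegral_finsetSum _ (fun ic _ => hΦm ic)]
  rw [ENNReal.sum_lt_top]
  intro ic hic
  exact lin_int _ (Amat_det (Nmat σ) (Nmat_det σ hσ) ic.1 ic.2 (Finset.mem_filter.1 hic).2) hs hs1 R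

end Pool.Agent.Helper45.HR
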