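import Pool.Agent.Helper45.HR.Res
import Pool.Agent.Helper45.HR.Stmts
import Mathlib

open Polynomial

namespace Pool.Agent.Helper45.HR

theorem st_STEP : ST_STEP := by
  intro n
  classical
  set E1 : Finset ℂ := (Finset.range (4 * n + 2)).image
    (fun j : ℕ => (((j : ℝ) / (4 * n + 1) : ℝ) : ℂ)) with hE1
  have hE1c : E1.card = 4 * n + 2 := by
    rw [hE1, Finset.card_image_of_injective, Finset.card_range]
    intro x y hxy
    have h1 : (x : ℝ) / (4 * n + 1) = (y : ℝ) / (4 * n + 1) := Complex.ofReal_injective hxy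
    have h2 : (0 : ℝ) < 4 * n + 1 := by positivity
    have h3 : (x : ℝ) = y := (div_left_inj' h2.ne').1 h1
    exact_mod_cast h3
  set E2 : Finset ℂ := (Finset.range (2 * n + 1)).image (fun j : ℕ => (((j : ℝ) + 1 : ℝ) : ℂ))
    with hE2
  have hE2c : E2.card = 2 * n + 1 := by
    rw [hE2, Finset.card_image_of_injective, Finset.card_range]
    intro x y hxy
    have h1 : (x : ℝ) + 1 = (y : ℝ) + 1 := Complex.ofReal_injective hxy
    have h3 : (x : ℝ) = y := by linarith
    exact_mod_cast h3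
  obtain ⟨ca, hca0, -, hca⟩ := grid E1 1 (2 * n)
  obtain ⟨cb, hcb0, -, hcb⟩ := grid E1 0 (2 * n)
  obtain ⟨cc, hcc0, -, hcc⟩ := grid E2 0 (2 * n)
  set M : ℝ := (((n * (n + 1) + 1) ^ (n + 1) : ℕ) : ℝ) with hM
  have hM1 : 1 ≤ M := by
    rw [hM]
    exact_mod_cast Nat.one_le_pow _ _ (by omega)
  have hM0 : 0 < M := by linarith
  refine ⟨ca * cb * cc * (1 / M) ^ n * (1 / M) ^ n * (1 / (2 * n + 1)) ^ n, by positivity, ?_⟩
  intro d μ c c' hdμ hc hcc' hc' h H Y hh0 hhμ hH hY hYH hHr hYr L hLa hL0 ρ hρ ⟨S, T, hS, hT, hST⟩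
  set φ : ℤ →+* ℂ := Int.castRingHom ℂ with hφ
  have hφinj : Function.Injective φ := RingHom.injective_int _
  have hhd : (h.map φ).natDegree = μ := by rw [natDegree_map_eq_of_injective hφinj, hhμ]
  have hhc0 : h.map φ ≠ 0 := (Polynomial.map_ne_zero_iff hφinj).2 hh0
  set Z : Finset ℂ := (h.map φ).roots.toFinset with hZ
  have hZc : Z.card ≤ n := by
    calc Z.card ≤ Multiset.card (h.map φ).roots := Multiset.toFinset_card_le _
      _ ≤ (h.map φ).natDegree := card_roots' _
      _ ≤ n := by omega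
  have hZm : ∀ ζ, ζ ∈ Z ↔ (h.map φ).eval ζ = 0 := by
    intro ζ
    rw [hZ, Multiset.mem_toFinset, mem_roots hhc0, IsRoot.def]
  have haeval : ∀ (P : ℤ[X]) (ζ : ℂ), aeval ζ P = (P.map φ).eval ζ := by
    intro P ζ
    rw [eval_map]
    rfl
  have hMle : ∀ k ≤ n + 1, (((Z.card * k + 1) ^ k : ℕ) : ℝ) ≤ M := by
    intro k hk
    rw [hM]
    have h1 : (Z.card * k + 1) ^ k ≤ (n * (n + 1) + 1) ^ (n + 1) := by
      calc (Z.card * k + 1) ^ k ≤ (n * (n + 1) + 1) ^ k :=
            Nat.pow_le_pow_left (by have := Nat.mul_le_mul hZc hk; omega) _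
        _ ≤ _ := Nat.pow_le_pow_right (by omega) hk
    exact_mod_cast h1
  set A0 : ℂ[X] := ∑ a ∈ Finset.range c, C (S a) * (H a).map φ with hA0
  set B0 : ℂ[X] := ∑ a ∈ Finset.range c, C (T a) * (H a).map φ with hB0
  have hsumdeg : ∀ U : ℕ → ℂ, (∑ a ∈ Finset.range c, C (U a) * (H a).map φ).natDegree ≤ d := by
    intro U
    apply natDegree_sum_le_of_forall_le
    intro a ha
    exact (natDegree_C_mul_le _ _).trans (natDegree_map_le.trans (hH a (Finset.mem_range.1 ha)))
  have hA0d : A0.natDegree ≤ d := hsumdeg S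
  have hB0d : B0.natDegree ≤ d := hsumdeg T
  -- first auxiliary combination
  obtain ⟨m1, hm1, hm1Z⟩ := avoid c Z (fun a => (H a).map φ) (by
    intro ζ _
    obtain ⟨a, ha, hne⟩ := hHr ζ
    exact ⟨a, ha, by rw [← haeval]; exact hne⟩)
  set W1 : ℤ[X] := ∑ a ∈ Finset.range c, C ((m1 a : ℤ)) * H a with hW1
  have hW1d : W1.natDegree ≤ d := by
    apply natDegree_sum_le_of_forall_le
    intro a ha
    exact (natDegree_C_mul_le _ _).trans (hH a (Finset.mem_range.1 ha))
  have hW1m : W1.map φ = ∑ a ∈ Finset.range c, C ((m1 a : ℂ)) * (H a).map φ := by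
    rw [hW1, Polynomial.map_sum]
    apply Finset.sum_congr rfl
    intro a _
    rw [Polynomial.map_mul, map_C]
    simp [hφ]
  have hR1 := res_ge_one h W1 d hh0 hW1d (by
    intro ζ hζ
    rw [hW1m]
    exact hm1Z ζ (by rw [hZ, Multiset.mem_toFinset]; exact hζ))
  rw [hhμ] at hR1
  set l1 : ℝ := L (c - 1) / M with hl1
  have hl10 : 0 < l1 := div_pos (hL0 _) hM0
  set A2 : ℂ[X] := C (l1 : ℂ) * W1.map φ with hA2
  have hA2d : A2.natDegree ≤ d := (natDegree_C_mul_le _ _).trans (natDegree_map_le.trans hW1d)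
  have hA2R : l1 ^ μ ≤ ‖resultant A2 (h.map φ) d μ‖ := by
    rw [resultant_comm, norm_mul, norm_pow, norm_neg, norm_one, one_pow, one_mul, hA2,
      resultant_C_mul_right, norm_mul, norm_pow, Complex.norm_real, Real.norm_eq_abs,
      abs_of_pos hl10]
    calc l1 ^ μ = l1 ^ μ * 1 := (mul_one _).symm
      _ ≤ _ := mul_le_mul_of_nonneg_left hR1 (by positivity)
  obtain ⟨p1, hp1d, hp1⟩ := exists_poly A0 (A2 - A0) (h.map φ) 0 d μ
  obtain ⟨p2, hp2d, hp2⟩ := exists_poly A0 (A2 - A0) B0 0 d d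
  have hb1 := hca p1 (by omega)
  have hb2 := hcb p2 (by omega)
  obtain ⟨e, heE, heb⟩ : ∃ e ∈ E1, e ∉ (E1.filter (fun e => ‖p1.eval e‖ < ca * ‖p1.eval 1‖)) ∪
      (E1.filter (fun e => ‖p2.eval e‖ < cb * ‖p2.eval 0‖)) := by
    apply Finset.exists_mem_notMem_of_card_lt_card
    refine (Finset.card_union_le _ _).trans_lt ?_
    rw [hE1c]
    omega
  rw [Finset.mem_union, not_or, Finset.mem_filter, Finset.mem_filter, not_and, not_and, not_lt,
    not_lt] at heb
  have he1 := heb.1 heE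
  have he2 := heb.2 heE
  obtain ⟨j, hj, hje⟩ := Finset.mem_image.1 heE
  set r : ℝ := (j : ℝ) / (4 * n + 1) with hr
  have hr0 : 0 ≤ r := by positivity
  have hr1 : r ≤ 1 := by
    rw [hr, div_le_one (by positivity)]
    have := Finset.mem_range.1 hj
    have h2 : j ≤ 4 * n + 1 := by omega
    exact_mod_cast h2
  rw [hp1, hp1] at he1
  rw [hp2, hp2] at he2
  rw [map_one, one_mul, mul_zero, mul_zero, add_zero, add_sub_cancel] at he1
  rw [map_zero, zero_mul, zero_mul, add_zero, add_zero, mul_zero, add_zero] at he2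
  set A : ℂ[X] := A0 + C e * (A2 - A0) with hA
  set S' : ℕ → ℂ := fun a => if a < c then S a + e * (l1 * m1 a - S a) else 0 with hS'
  have hAsum : A = ∑ a ∈ Finset.range c, C (S' a) * (H a).map φ := by
    rw [hA, hA2, hW1m, hA0, Finset.mul_sum, ← Finset.sum_sub_distrib, Finset.mul_sum,
      ← Finset.sum_add_distrib]
    apply Finset.sum_congr rfl
    intro a ha
    rw [hS']
    simp only
    rw [if_pos (Finset.mem_range.1 ha)]
    simp only [map_add, map_mul, map_sub]
    ring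
  have hAd : A.natDegree ≤ d := by
    rw [hAsum]
    exact hsumdeg S'
  have hS'L : ∀ a < c', ‖S' a‖ ≤ L a := by
    intro a _
    rw [hS']
    simp only
    split_ifs with hac
    · have e1 : S a + e * (l1 * m1 a - S a) = ((1 - r : ℝ) : ℂ) * S a +
          ((r * (l1 * m1 a) : ℝ) : ℂ) := by
        rw [← hje]
        push_cast
        ring
      have e2 : l1 * m1 a ≤ L a := by
        have e3 : (m1 a : ℝ) ≤ M := by
          refine le_trans ?_ (hMle c (by omega))
          exact_mod_cast hm1 a hac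
        calc l1 * m1 a ≤ l1 * M := mul_le_mul_of_nonneg_left e3 hl10.le
          _ = L (c - 1) := by rw [hl1]; field_simp
          _ ≤ L a := hLa _ _ (by omega)
      rw [e1]
      refine (norm_add_le _ _).trans ?_
      rw [norm_mul, Complex.norm_real, Complex.norm_real, Real.norm_eq_abs, Real.norm_eq_abs,
        abs_of_nonneg (by linarith : (0 : ℝ) ≤ 1 - r), abs_of_nonneg (by positivity)]
      have e4 := hS a hac
      nlinarith [mul_le_mul_of_nonneg_left e4 (by linarith : (0 : ℝ) ≤ 1 - r),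
        mul_le_mul_of_nonneg_left e2 hr0]
    · rw [norm_zero]
      exact (hL0 a).le
  -- second auxiliary combination
  obtain ⟨m2, hm2, hm2Z⟩ := avoid c' Z (fun a => if a < c then 0 else (Y a).map φ) (by
    intro ζ hζ
    obtain ⟨a, ha, hne⟩ := hYr ζ
    refine ⟨a, ha, ?_⟩
    have hac : ¬ a < c := by
      intro hac
      apply hne
      rw [haeval, hYH a hac, Polynomial.map_mul, eval_mul, (hZm ζ).1 hζ, zero_mul]
    rw [if_neg hac, ← haeval]
    exact hne)
  set W2 : ℤ[X] := ∑ a ∈ Finset.range c', C ((m2 a : ℤ)) * (if a < c then 0 else Y a) with hW2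
  have hW2d : W2.natDegree ≤ d + μ := by
    apply natDegree_sum_le_of_forall_le
    intro a ha
    refine (natDegree_C_mul_le _ _).trans ?_
    split_ifs
    · simp
    · exact hY a (Finset.mem_range.1 ha)
  have hW2m : W2.map φ = ∑ a ∈ Finset.range c', C ((m2 a : ℂ)) *
      (if a < c then 0 else (Y a).map φ) := by
    rw [hW2, Polynomial.map_sum]
    apply Finset.sum_congr rfl
    intro a _
    rw [Polynomial.map_mul, map_C]
    split_ifs <;> simp [hφ]
  have hR2 := res_ge_one h W2 (d + μ) hh0 hW2d (by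
    intro ζ hζ
    rw [hW2m]
    exact hm2Z ζ (by rw [hZ, Multiset.mem_toFinset]; exact hζ))
  rw [hhμ] at hR2
  set l2 : ℝ := L (c' - 1) / M with hl2
  have hl20 : 0 < l2 := div_pos (hL0 _) hM0
  set X2 : ℂ[X] := C (l2 : ℂ) * W2.map φ with hX2
  have hX2d : X2.natDegree ≤ d + μ := (natDegree_C_mul_le _ _).trans (natDegree_map_le.trans hW2d)
  have hX2R : l2 ^ μ ≤ ‖resultant (h.map φ) X2 μ (d + μ)‖ := by
    rw [hX2, resultant_C_mul_right, norm_mul, norm_pow, Complex.norm_real, Real.norm_eq_abs,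
      abs_of_pos hl20]
    calc l2 ^ μ = l2 ^ μ * 1 := (mul_one _).symm
      _ ≤ _ := mul_le_mul_of_nonneg_left hR2 (by positivity)
  obtain ⟨p3, hp3d, hp3⟩ := exists_poly A 0 (h.map φ * B0) X2 d (d + μ)
  have hb3 := hcc p3 (by omega)
  obtain ⟨f, hfE, hfb⟩ : ∃ f ∈ E2, f ∉ (E2.filter (fun e => ‖p3.eval e‖ < cc * ‖p3.eval 0‖)) := by
    apply Finset.exists_mem_notMem_of_card_lt_card
    rw [hE2c]
    omega
  rw [Finset.mem_filter, not_and, not_lt] at hfb
  have hf := hfb hfE
  obtain ⟨i, hi, hif⟩ := Finset.mem_image.1 hfE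
  set q : ℝ := (i : ℝ) + 1 with hq
  have hq1 : 1 ≤ q := by
    rw [hq]
    have : (0 : ℝ) ≤ i := by positivity
    linarith
  have hq0 : 0 < q := by linarith
  have hq2 : q ≤ 2 * n + 1 := by
    have := Finset.mem_range.1 hi
    have h2 : i + 1 ≤ 2 * n + 1 := by omega
    rw [hq]
    exact_mod_cast h2
  rw [hp3, hp3] at hf
  rw [map_zero, zero_mul, zero_mul, add_zero, add_zero, mul_zero, add_zero] at hf
  have hmulr := res_mul_right A (h.map φ) B0 μ d d hhd.le hB0d hAd
  rw [add_comm μ d] at hmulr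
  rw [hmulr, norm_mul] at hf
  have hf0 : (f : ℂ) ≠ 0 := by
    rw [← hif]
    exact_mod_cast hq0.ne'
  set T' : ℕ → ℂ := fun a => if a < c then f⁻¹ * T a else l2 * m2 a with hT'
  have hfn : ‖f⁻¹‖ ≤ 1 := by
    rw [norm_inv, ← hif, Complex.norm_real, Real.norm_eq_abs, abs_of_pos hq0]
    exact inv_le_one_of_one_le₀ hq1
  have hT'L : ∀ a < c', ‖T' a‖ ≤ L a := by
    intro a ha
    rw [hT']
    simp only
    split_ifs with hac
    · rw [norm_mul]
      calc ‖f⁻¹‖ * ‖T a‖ ≤ 1 * L a :=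
            mul_le_mul hfn (hT a hac) (norm_nonneg _) zero_le_one
        _ = L a := one_mul _
    · have e3 : (m2 a : ℝ) ≤ M := by
        refine le_trans ?_ (hMle c' (by omega))
        exact_mod_cast hm2 a ha
      have e4 : ‖(l2 : ℂ) * (m2 a : ℂ)‖ = l2 * m2 a := by
        rw [norm_mul, Complex.norm_real, Real.norm_eq_abs, abs_of_pos hl20, Complex.norm_natCast]
      rw [e4]
      calc l2 * m2 a ≤ l2 * M := mul_le_mul_of_nonneg_left e3 hl20.le
        _ = L (c' - 1) := by rw [hl2]; field_simp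
        _ ≤ L a := hLa _ _ (by omega)
  refine ⟨S', T', hS'L, hT'L, ?_⟩
  have hsplit : ∀ G : ℕ → ℂ[X], ∑ a ∈ Finset.range c', G a =
      ∑ a ∈ Finset.range c, G a + ∑ a ∈ Finset.range c', (if a < c then 0 else G a) := by
    intro G
    have e1 : ∑ a ∈ Finset.range c, G a = ∑ a ∈ Finset.range c', (if a < c then G a else 0) := by
      rw [← Finset.sum_filter]
      apply Finset.sum_congr _ (fun _ _ => rfl)
      ext a
      simp only [Finset.mem_range, Finset.mem_filter]
      omega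
    rw [e1, ← Finset.sum_add_distrib]
    apply Finset.sum_congr rfl
    intro a _
    split_ifs <;> simp
  have hsumA : ∑ a ∈ Finset.range c', C (S' a) * (Y a).map φ = h.map φ * A := by
    rw [hsplit, hAsum, Finset.mul_sum]
    have e1 : ∑ a ∈ Finset.range c', (if a < c then 0 else C (S' a) * (Y a).map φ) = 0 := by
      apply Finset.sum_eq_zero
      intro a _
      split_ifs with hac
      · rfl
      · rw [hS']
        simp only
        rw [if_neg hac, map_zero, zero_mul]
    rw [e1, add_zero]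
    apply Finset.sum_congr rfl
    intro a ha
    rw [hYH a (Finset.mem_range.1 ha), Polynomial.map_mul]
    ring
  have hsumB : ∑ a ∈ Finset.range c', C (T' a) * (Y a).map φ =
      X2 + h.map φ * (C f⁻¹ * B0) := by
    rw [hsplit, add_comm]
    congr 1
    · rw [hX2, hW2m, Finset.mul_sum]
      apply Finset.sum_congr rfl
      intro a _
      rw [hT']
      simp only
      split_ifs with hac
      · simp
      · rw [map_mul]
        ring
    · rw [hB0, Finset.mul_sum, Finset.mul_sum]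
      apply Finset.sum_congr rfl
      intro a ha
      rw [hT']
      simp only
      rw [if_pos (Finset.mem_range.1 ha), hYH a (Finset.mem_range.1 ha), Polynomial.map_mul,
        map_mul]
      ring
  rw [hsumA, hsumB]
  have hBd : (X2 + h.map φ * (C f⁻¹ * B0)).natDegree ≤ d + μ := by
    apply natDegree_add_le_of_degree_le hX2d
    refine natDegree_mul_le.trans ?_
    have := natDegree_C_mul_le f⁻¹ B0
    omega
  have hmull := res_mul_left (h.map φ) A (X2 + h.map φ * (C f⁻¹ * B0)) μ d (d + μ) hhd.le hAd hBd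
  rw [add_comm μ d] at hmull
  rw [hmull, resultant_add_mul_right _ _ _ _ _ (by
    have := natDegree_C_mul_le f⁻¹ B0
    omega) hhd.le]
  have hlast : X2 + h.map φ * (C f⁻¹ * B0) = C f⁻¹ * (h.map φ * B0 + C f * X2) := by
    have e1 : C f⁻¹ * (C f * X2) = X2 := by
      rw [← mul_assoc, ← map_mul, inv_mul_cancel₀ hf0, map_one, one_mul]
    rw [mul_add, e1]
    ring
  rw [hlast, resultant_C_mul_right A (h.map φ * B0 + C f * X2) d (d + μ) f⁻¹, norm_mul, norm_mul,
    norm_pow]
  have hfq : 1 / (2 * (n : ℝ) + 1) ≤ ‖f⁻¹‖ := by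
    rw [norm_inv, ← hif, Complex.norm_real, Real.norm_eq_abs, abs_of_pos hq0, ← one_div]
    exact one_div_le_one_div_of_le hq0 hq2
  have hfd : (1 / (2 * (n : ℝ) + 1)) ^ n ≤ ‖f⁻¹‖ ^ d := by
    calc (1 / (2 * (n : ℝ) + 1)) ^ n ≤ (1 / (2 * (n : ℝ) + 1)) ^ d := by
          apply pow_le_pow_of_le_one (by positivity) _ (by omega)
          rw [div_le_one (by positivity)]
          have : (0 : ℝ) ≤ n := by positivity
          linarith
      _ ≤ _ := pow_le_pow_left₀ (by positivity) hfq _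
  have hMμ : (1 / M) ^ n ≤ (1 / M) ^ μ := by
    apply pow_le_pow_of_le_one (by positivity) _ (by omega)
    rw [div_le_one hM0]
    exact hM1
  have el1 : l1 ^ μ = (1 / M) ^ μ * L (c - 1) ^ μ := by
    rw [← mul_pow, hl1]
    congr 1
    ring
  have el2 : l2 ^ μ = (1 / M) ^ μ * L (c' - 1) ^ μ := by
    rw [← mul_pow, hl2]
    congr 1
    ring
  have hL1 := hL0 (c - 1)
  have hL2 := hL0 (c' - 1)
  have k1 : ca * l1 ^ μ ≤ ‖resultant A (h.map φ) d μ‖ :=
    (mul_le_mul_of_nonneg_left hA2R hca0.le).trans he1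
  have k2 : cb * ρ ≤ ‖resultant A B0 d d‖ :=
    (mul_le_mul_of_nonneg_left hST hcb0.le).trans he2
  have k3 : cc * ((ca * l1 ^ μ) * (cb * ρ)) ≤
      ‖resultant A (h.map φ * B0 + C f * X2) d (d + μ)‖ :=
    (mul_le_mul_of_nonneg_left (mul_le_mul k1 k2 (by positivity) (norm_nonneg _)) hcc0.le).trans hf
  calc ca * cb * cc * (1 / M) ^ n * (1 / M) ^ n * (1 / (2 * (n : ℝ) + 1)) ^ n * ρ *
        (L (c - 1) * L (c' - 1)) ^ μ
      = ((1 / M) ^ n * L (c' - 1) ^ μ) * ((1 / (2 * (n : ℝ) + 1)) ^ n *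
        (cc * ((ca * ((1 / M) ^ n * L (c - 1) ^ μ)) * (cb * ρ)))) := by
        rw [mul_pow]; ring
    _ ≤ ((1 / M) ^ μ * L (c' - 1) ^ μ) * ((1 / (2 * (n : ℝ) + 1)) ^ n *
        (cc * ((ca * ((1 / M) ^ μ * L (c - 1) ^ μ)) * (cb * ρ)))) := by
        gcongr
    _ = l2 ^ μ * ((1 / (2 * (n : ℝ) + 1)) ^ n * (cc * ((ca * l1 ^ μ) * (cb * ρ)))) := by
        rw [el1, el2]
    _ ≤ _ := mul_le_mul hX2R (mul_le_mul hfd k3 (by positivity) (by positivity)) (by positivity)
        (norm_nonneg _)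

end Pool.Agent.Helper45.HR
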