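import Pool.Agent.Helper45.HR.Main
import Pool.Agent.Helper45.HR.Step
import Pool.Agent.Helper86.HR.GCD
import Pool.Agent.Helper86.HR.INV
import Pool.Agent.Helper86.HR.LP
import Pool.Agent.Helper86.HR.M1
import Mathlib

open Polynomial

namespace Pool.Agent.Helper45.HR

open Pool.Agent.Helper12.Disc Pool.Agent.Helper45.Disc

variable {n : ℕ}

theorem st_M1' : ST_M1 := Helper86.HR.st_M1

theorem st_N2' : ST_N2 :=
  Helper86.HR.st_N2 st_STEP Helper86.HR.st_GCD Helper86.HR.st_LP Helper86.HR.st_INV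

theorem half_large (hn : 3 ≤ n) (c u : ℝ) (hc : 0 < c) (hu : u < n / 2) :
    ∃ K : ℝ, 0 < K ∧ ∀ Q : ℝ, 1 ≤ Q → ∀ T : Finset ℤ[X], (∀ P ∈ T, P.natDegree = n ∧
        Irreducible (P.map (Int.castRingHom ℚ)) ∧
        (∀ i, |(P.coeff i : ℝ)| ≤ Q) ∧
        |(P.discr : ℝ)| ≤ c * Q ^ (2 * (n : ℝ) - 2 - 2 * u)) →
      (T.card : ℝ) ≤ K * Q ^ ((n : ℝ) + 1 - ((n : ℝ) + 2) / n * u) := by
  have hn0 : (0 : ℝ) < n := by
    have : 0 < n := by omega
    exact_mod_cast this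
  have hn3 : (3 : ℝ) ≤ n := by exact_mod_cast hn
  obtain ⟨hθ1, hθ2, -⟩ := exponents (by omega : 2 ≤ n) 1 one_pos
  set θ : ℝ := th0 n with hθ
  set κ : ℝ := ((n : ℝ) + 1) / (2 * n) - θ with hκ
  have hκ0 : 0 < κ := by linarith
  set δ : ℝ := n - 2 * u with hδ
  have hδ0 : 0 < δ := by rw [hδ]; linarith
  set τ : ℝ := min (1 / 2) (min ((2 * θ - 1) / 2) (min (2 * κ * δ / (|u| + 1))
    (((n : ℝ) + 2) * δ / (n : ℝ) ^ 2))) with hτdef
  have hu1 : 0 < |u| + 1 := by positivity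
  have hτ0 : 0 < τ := by
    rw [hτdef]
    apply lt_min (by norm_num)
    apply lt_min (by linarith)
    apply lt_min (by positivity) (by positivity)
  have hτa : τ ≤ 1 / 2 := min_le_left _ _
  have hτb : τ ≤ (2 * θ - 1) / 2 := (min_le_right _ _).trans (min_le_left _ _)
  have hτc : τ ≤ 2 * κ * δ / (|u| + 1) :=
    (min_le_right _ _).trans ((min_le_right _ _).trans (min_le_left _ _))
  have hτd : τ ≤ ((n : ℝ) + 2) * δ / (n : ℝ) ^ 2 :=
    (min_le_right _ _).trans ((min_le_right _ _).trans (min_le_right _ _))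
  have huτ : u * τ ≤ 2 * κ * δ := by
    rw [le_div_iff₀ hu1] at hτc
    have h1 : u ≤ |u| := le_abs_self u
    nlinarith [mul_le_mul_of_nonneg_right h1 hτ0.le]
  have hnτ : (n : ℝ) ^ 2 * τ ≤ ((n : ℝ) + 2) * δ := by
    rw [le_div_iff₀ (by positivity)] at hτd
    linarith
  obtain ⟨K, hK, hmain⟩ := main_irr st_M1' st_N2' hn τ hτ0 (by linarith) (by linarith)
  set x := xx n τ with hx
  set y := yy n τ with hy
  refine ⟨K * ∑ i, c ^ y i, mul_pos hK (Finset.sum_pos (fun i _ => by positivity)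
    Finset.univ_nonempty), ?_⟩
  intro Q hQ T hT
  have hQ0 : 0 < Q := by linarith
  have h1 := hmain Q (c * Q ^ (2 * (n : ℝ) - 2 - 2 * u)) hQ (by positivity) T hT
  have hexp : ∀ i, x i + (2 * (n : ℝ) - 2 - 2 * u) * y i ≤
      (n : ℝ) + 1 - ((n : ℝ) + 2) / n * u := by
    intro i
    rw [hx, hy]
    fin_cases i
    · simp only [xx, yy, Fin.zero_eta, Matrix.cons_val_zero]
      apply le_of_eq
      field_simp
      ring
    · simp only [xx, yy, Fin.mk_one, Matrix.cons_val_one, Matrix.cons_val_zero]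
      have e1 : (n : ℝ) + 1 - ((n : ℝ) + 2) / n * u - n / 2 = ((n : ℝ) + 2) * δ / (2 * n) := by
        rw [hδ]
        field_simp
        ring
      have e2 : 0 < ((n : ℝ) + 2) * δ / (2 * n) := by positivity
      linarith
    · simp only [xx, yy, Fin.reduceFinMk, Matrix.cons_val]
      rw [← hθ]
      have e1 : (n : ℝ) + 1 - ((n : ℝ) + 2) / n * u -
          (2 * n * θ - (2 * n - 2) * (2 * θ - 1 / 2 - τ / 2) +
            (2 * n - 2 - 2 * u) * (2 * θ - 1 / 2 - τ / 2)) = 2 * κ * δ - u * τ := by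
        rw [hκ, hδ]
        field_simp
        ring
      linarith
    · simp only [xx, yy, Fin.reduceFinMk, Matrix.cons_val]
      have e1 : (n : ℝ) + 1 - ((n : ℝ) + 2) / n * u - (n * (1 + τ) / 2) =
          (((n : ℝ) + 2) * δ - n ^ 2 * τ) / (2 * n) := by
        rw [hδ]
        field_simp
        ring
      have e2 : 0 ≤ (((n : ℝ) + 2) * δ - n ^ 2 * τ) / (2 * n) := by
        apply div_nonneg _ (by positivity)
        linarith
      linarith
  have h2 : Psi x y Q (c * Q ^ (2 * (n : ℝ) - 2 - 2 * u)) ≤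
      (∑ i, c ^ y i) * Q ^ ((n : ℝ) + 1 - ((n : ℝ) + 2) / n * u) := by
    unfold Psi
    rw [Finset.sum_mul]
    apply Finset.sum_le_sum
    intro i _
    rw [Real.mul_rpow hc.le (by positivity), ← Real.rpow_mul hQ0.le]
    calc Q ^ x i * (c ^ y i * Q ^ ((2 * (n : ℝ) - 2 - 2 * u) * y i))
        = c ^ y i * Q ^ (x i + (2 * (n : ℝ) - 2 - 2 * u) * y i) := by
          rw [Real.rpow_add hQ0]
          ring
      _ ≤ _ := by
          apply mul_le_mul_of_nonneg_left _ (by positivity)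
          exact Real.rpow_le_rpow_of_exponent_le hQ (hexp i)
  calc (T.card : ℝ) ≤ K * Psi x y Q (c * Q ^ (2 * (n : ℝ) - 2 - 2 * u)) := h1
    _ ≤ K * ((∑ i, c ^ y i) * Q ^ ((n : ℝ) + 1 - ((n : ℝ) + 2) / n * u)) :=
        mul_le_mul_of_nonneg_left h2 hK.le
    _ = _ := by ring

theorem half_all (hn : 2 ≤ n) (c u : ℝ) (hc : 0 < c) (hu : u < n / 2) :
    ∃ K : ℝ, 0 < K ∧ ∀ Q : ℝ, 1 ≤ Q → ∀ T : Finset ℤ[X], (∀ P ∈ T, P.natDegree = n ∧
        Irreducible (P.map (Int.castRingHom ℚ)) ∧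
        (∀ i, |(P.coeff i : ℝ)| ≤ Q) ∧
        |(P.discr : ℝ)| ≤ c * Q ^ (2 * (n : ℝ) - 2 - 2 * u)) →
      (T.card : ℝ) ≤ K * Q ^ ((n : ℝ) + 1 - ((n : ℝ) + 2) / n * u) := by
  rcases Nat.lt_or_ge n 3 with h3 | h3
  · have hn2 : n = 2 := by omega
    subst hn2
    obtain ⟨K, hK, hmain⟩ := main_count (n := 2) le_rfl
    set c' : ℝ := max 1 c with hc'
    have hc'1 : 1 ≤ c' := le_max_left _ _
    have hc'0 : 0 < c' := by linarith
    refine ⟨K * c' ^ (1 / 2 + 1 / ((2 : ℕ) : ℝ)), by positivity, ?_⟩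
    intro Q hQ T hT
    have hQ0 : 0 < Q := by linarith
    have hu1 : u < 1 := by
      have : ((2 : ℕ) : ℝ) / 2 = 1 := by norm_num
      linarith
    set Y : ℝ := c' * Q ^ (2 * ((2 : ℕ) : ℝ) - 2 - 2 * u) with hY
    have hYle : c * Q ^ (2 * ((2 : ℕ) : ℝ) - 2 - 2 * u) ≤ Y :=
      mul_le_mul_of_nonneg_right (le_max_right _ _) (by positivity)
    have hYQ : Q ^ (2 * 2 - 2) ≤ Y * Q ^ 2 := by
      have e1 : (1 : ℝ) ≤ Q ^ (2 * ((2 : ℕ) : ℝ) - 2 - 2 * u) := by
        apply Real.one_le_rpow hQ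
        push_cast
        linarith
      have e2 : 1 ≤ Y := by
        rw [hY]
        nlinarith
      have e3 : Q ^ (2 * 2 - 2) = Q ^ 2 := rfl
      rw [e3]
      exact le_mul_of_one_le_left (by positivity) e2
    have h1 := hmain Y Q hQ hYQ T (by
      intro P hP
      obtain ⟨a1, a2, a3, a4⟩ := hT P hP
      refine ⟨a1, ?_, a3, a4.trans hYle⟩
      intro x hx
      have hdeg : (P.map (Int.castRingHom ℚ)).natDegree = 2 := by
        rw [natDegree_map_eq_of_injective (RingHom.injective_int _), a1]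
      have hroot : (P.map (Int.castRingHom ℚ)).IsRoot x := by
        rw [IsRoot.def, eval_map]
        exact hx
      exact a2.not_isRoot_of_natDegree_ne_one (by omega) hroot)
    refine h1.trans (le_of_eq ?_)
    rw [hY, Real.mul_rpow hc'0.le (by positivity), ← Real.rpow_mul hQ0.le, mul_assoc, mul_assoc,
      ← Real.rpow_add hQ0]
    congr 3
    push_cast
    ring
  · exact half_large h3 c u hc hu

end Pool.Agent.Helper45.HR
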