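import Pool.Agent.Helper45.HR.Count
import Mathlib

open Polynomial MeasureTheory

namespace Pool.Agent.Helper45.HR

open Pool.Agent.Helper12.Disc Pool.Agent.Helper45.Disc

variable {n : ℕ}

theorem double_count2 {ι : Type*} (T : Finset ι) (lo hi : ι → Fin n → ℝ)
    (hlt : ∀ P ∈ T, ∀ l, lo P l < hi P l) (G : Set (Fin n → ℝ)) (Bd : (Fin n → ℝ) → ℝ)
    (hG : ∀ P ∈ T, Set.Icc (lo P) (hi P) ⊆ G)
    (hpt : ∀ y ∈ G, ∀ T' ⊆ T, T'.Nonempty → (∀ P ∈ T', y ∈ Set.Icc (lo P) (hi P)) →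
      ∑ P ∈ T', 1 / ∏ l, (hi P l - lo P l) ≤ Bd y) :
    (T.card : ENNReal) ≤ ∫⁻ y in G, ENNReal.ofReal (Bd y) := by
  classical
  have hv : ∀ P ∈ T, 0 < ∏ l, (hi P l - lo P l) := fun P hP =>
    Finset.prod_pos fun l _ => sub_pos.2 (hlt P hP l)
  have h1 : ∀ P ∈ T, ∫⁻ y, (Set.Icc (lo P) (hi P)).indicator
      (fun _ => ENNReal.ofReal (1 / ∏ l, (hi P l - lo P l))) y = 1 := by
    intro P hP
    rw [lintegral_indicator_const measurableSet_Icc, Real.volume_Icc_pi,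
      ← ENNReal.ofReal_prod_of_nonneg (fun l _ => (sub_pos.2 (hlt P hP l)).le),
      ← ENNReal.ofReal_mul (by have := hv P hP; positivity), one_div, inv_mul_cancel₀ (hv P hP).ne',
      ENNReal.ofReal_one]
  have h2 : (T.card : ENNReal) = ∫⁻ y, ∑ P ∈ T, (Set.Icc (lo P) (hi P)).indicator
      (fun _ => ENNReal.ofReal (1 / ∏ l, (hi P l - lo P l))) y := by
    rw [lintegral_finsetSum]
    · rw [Finset.sum_congr rfl h1]
      simp
    · intro P _
      exact measurable_const.indicator measurableSet_Icc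
  rw [h2]
  refine le_trans ?_ (lintegral_indicator_le (fun y => ENNReal.ofReal (Bd y)) G)
  apply lintegral_mono
  intro y
  have h3 : ∑ P ∈ T, (Set.Icc (lo P) (hi P)).indicator
      (fun _ => ENNReal.ofReal (1 / ∏ l, (hi P l - lo P l))) y =
      ENNReal.ofReal (∑ P ∈ T.filter (fun P => y ∈ Set.Icc (lo P) (hi P)),
        1 / ∏ l, (hi P l - lo P l)) := by
    rw [ENNReal.ofReal_sum_of_nonneg]
    · rw [Finset.sum_filter]
      apply Finset.sum_congr rfl
      intro P _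
      rw [Set.indicator_apply]
    · intro P hP
      have := hv P (Finset.mem_filter.1 hP).1
      positivity
  simp only
  rw [h3]
  rcases (T.filter (fun P => y ∈ Set.Icc (lo P) (hi P))).eq_empty_or_nonempty with he | hne
  · rw [he]
    simp
  · by_cases hy : y ∈ G
    · rw [Set.indicator_of_mem hy]
      apply ENNReal.ofReal_le_ofReal
      exact hpt y hy _ (Finset.filter_subset _ _) hne (fun P hP => (Finset.mem_filter.1 hP).2)
    · exfalso
      obtain ⟨P, hP⟩ := hne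
      exact hy (hG P (Finset.mem_filter.1 hP).1 (Finset.mem_filter.1 hP).2)

theorem D2_le_dd (hn : 2 ≤ n) (z : Fin n → ℂ) (M : ℝ) (hM : 1 ≤ M)
    (hz : ∀ i j, ‖z i - z j‖ ≤ M) : D2 z ≤ M ^ (n * n) * ∏ l, dd z l := by
  rw [D2_eq]
  calc ∏ i, pp z i ≤ ∏ i, (M ^ n * dd z i) :=
        Finset.prod_le_prod (fun i _ => pp_nonneg z i) (fun i _ => pp_le_dd hn z M hM hz i)
    _ = _ := by
        rw [Finset.prod_mul_distrib, Finset.prod_const, Finset.card_univ, Fintype.card_fin,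
          ← pow_mul]

/-- the exponents: `p = 1 - θ`, `a = 2θ - 1 - τ`, `s = 1 - τ` -/
theorem exponents (hn : 2 ≤ n) (τ : ℝ) (hτ : 0 < τ) :
    1 / 2 < th0 n ∧ th0 n < ((n : ℝ) + 1) / (2 * n) ∧
    ∀ k : ℕ, 2 ≤ k → k ≤ n → (1 - th0 n) * k + (2 * th0 n - 1 - τ) * (k * (k - 1) / 2) ≤
      (1 - τ) * (k - 1) := by
  have hn0 : (0 : ℝ) < n := by
    have : 0 < n := by omega
    exact_mod_cast this
  have hn2 : (2 : ℝ) ≤ n := by exact_mod_cast hn
  have h2n : (4 : ℝ) ≤ 2 ^ n := by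
    calc (4 : ℝ) = 2 ^ 2 := by norm_num
      _ ≤ 2 ^ n := pow_le_pow_right₀ (by norm_num) hn
  have h1 : 1 / 2 < th0 n := by
    unfold th0
    rw [lt_div_iff₀ (by positivity)]
    have e1 : 1 / ((n : ℝ) * 2 ^ n) < 1 / n := by
      apply one_div_lt_one_div_of_lt hn0
      nlinarith
    have e2 : ((n : ℝ) + 1) / (2 * n) = 1 / 2 + 1 / 2 * (1 / n) := by
      field_simp
    rw [e2]
    linarith
  have h2 : th0 n < ((n : ℝ) + 1) / (2 * n) := by
    unfold th0
    rw [div_lt_iff₀ (by positivity)]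
    have e1 : 0 < ((n : ℝ) + 1) / (2 * n) := by positivity
    have e2 : 0 < 1 / ((n : ℝ) * 2 ^ n) := by positivity
    nlinarith
  refine ⟨h1, h2, ?_⟩
  intro k hk hkn
  have hk2 : (2 : ℝ) ≤ k := by exact_mod_cast hk
  have hkn' : (k : ℝ) ≤ n := by exact_mod_cast hkn
  set κ : ℝ := ((n : ℝ) + 1) / (2 * n) - th0 n with hκ
  have hκ0 : 0 < κ := by linarith
  have hθ : th0 n = ((n : ℝ) + 1) / (2 * n) - κ := by rw [hκ]; ring
  rw [hθ]
  have e : (1 - τ) * ((k : ℝ) - 1) - ((1 - (((n : ℝ) + 1) / (2 * n) - κ)) * k +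
      (2 * (((n : ℝ) + 1) / (2 * n) - κ) - 1 - τ) * (k * (k - 1) / 2)) =
      (k - 2) * (n - k) / (2 * n) + κ * k * (k - 2) + τ * (k - 1) * (k - 2) / 2 := by
    field_simp
    ring
  have e1 : 0 ≤ ((k : ℝ) - 2) * (n - k) / (2 * n) := by
    apply div_nonneg _ (by positivity)
    apply mul_nonneg <;> linarith
  have e2 : 0 ≤ κ * k * ((k : ℝ) - 2) := by
    apply mul_nonneg _ (by linarith)
    positivity
  have e3 : 0 ≤ τ * ((k : ℝ) - 1) * (k - 2) / 2 := by
    apply div_nonneg _ (by norm_num)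
    apply mul_nonneg _ (by linarith)
    apply mul_nonneg hτ.le
    linarith
  linarith

end Pool.Agent.Helper45.HR
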