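import Pool.Agent.Helper45.DSigma
import Pool.Agent.Helper45.HR.F5
import Pool.Agent.Helper45.HR.Sigma
import Mathlib

open Polynomial MeasureTheory

namespace Pool.Agent.Helper45.HR

open Pool.Agent.Helper12.Disc Pool.Agent.Helper45.Disc

variable {n : ℕ}

theorem count_sigma2 (hM1 : ST_M1) (hN2 : ST_N2) (hn : 2 ≤ n) (σ : Fin n → Fin n)
    (hσ : ∀ l, σ (σ l) = l) (R0 : ℝ) (hR0 : 1 ≤ R0) (τ : ℝ) (hτ : 0 < τ) (hτ1 : τ < 1)
    (hτ2 : τ < 2 * th0 n - 1) :
    ∃ K : ℝ, 0 < K ∧ ∀ S Y : ℝ, 1 ≤ S → 0 < Y →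
      ∀ T : Finset ℤ[X], (∀ P ∈ T, P.natDegree = n ∧ P.IsPrimitive ∧
        Irreducible (P.map (Int.castRingHom ℚ)) ∧
        S / 2 ≤ |(P.coeff n : ℝ)| ∧ |(P.coeff n : ℝ)| ≤ S ∧ |(P.discr : ℝ)| ≤ Y ∧
        ∃ y : Fin n → ℝ, (∀ i, |y i| ≤ R0) ∧
          P.map (Int.castRingHom ℂ) = C (P.coeff n : ℂ) * ofRoots (Zof (Nmat σ) y)) →
      (T.card : ℝ) ≤ K * (S ^ (n + 1) * (Y / S ^ (2 * n - 2) + 1 / S ^ n) ^ (1 / 2 + 1 / (n : ℝ)) +
        S ^ (2 * n * th0 n) * (Y / S ^ (2 * n - 2) + 1 / S ^ n) ^ (2 * th0 n - 1 / 2 - τ / 2)) := by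
  classical
  obtain ⟨hθ1, hθ2, hexp⟩ := exponents hn τ hτ
  set θ : ℝ := th0 n with hθ
  have hn0 : (0 : ℝ) < n := by
    have : 0 < n := by omega
    exact_mod_cast this
  have hn2 : (2 : ℝ) ≤ n := by exact_mod_cast hn
  have hθlt1 : θ < 1 := by
    refine hθ2.trans_le ?_
    rw [div_le_one (by positivity)]
    linarith
  set p : ℝ := 1 - θ with hp
  set a : ℝ := 2 * θ - 1 - τ with ha
  set q : ℝ := 2 * θ - 1 / 2 - τ / 2 with hq
  have hp0 : 0 < p := by rw [hp]; linarith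
  have ha0 : 0 < a := by rw [ha]; linarith
  have hqe : q = θ + a / 2 := by rw [hq, ha]; ring
  have hq0 : 0 < q := by rw [hqe]; positivity
  obtain ⟨B, hB, c0, hc0, C0, hC0, hshift⟩ := exists_shift n
  set c1 : ℝ := ∏ i : Fin n, ∏ j ∈ Finset.univ.erase i, (1 / 2 : ℝ) with hc1
  set C1 : ℝ := ∏ i : Fin n, ∏ j ∈ Finset.univ.erase i, (3 / 2 : ℝ) with hC1
  have hc1' : 0 < c1 := Finset.prod_pos fun _ _ => Finset.prod_pos fun _ _ => by norm_num
  have hC1' : 0 < C1 := Finset.prod_pos fun _ _ => Finset.prod_pos fun _ _ => by norm_num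
  set c2 : ℝ := (2 + 4 * B ^ 2) ^ n with hc2
  have hc2' : 1 ≤ c2 := by
    apply one_le_pow₀
    nlinarith [sq_nonneg B]
  set R1 : ℝ := 2 * (R0 + B) with hR1
  have hR1' : 1 ≤ R1 := by rw [hR1]; linarith
  set Mz : ℝ := 4 * R1 with hMz
  have hMz1 : 1 ≤ Mz := by rw [hMz]; linarith
  obtain ⟨Cb, hCb, hbody⟩ := count_body2 hM1 hN2 hn
    (c2 ^ (2 * n) * (c1 * c0) ^ 2 / Mz ^ (n * n)) (by positivity) σ hσ
  obtain ⟨Cv, hCv, hvol⟩ := vol_D2 hn σ hσ R1
  have hint := st_F5 n hn p a (1 - τ) hp0 ha0 (by linarith) (by linarith) hexp σ hσ R1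
  set F : (Fin n → ℝ) → ℝ := fun y =>
    (∏ i, dd (Zof (Nmat σ) y) i) ^ (-p) * D2 (Zof (Nmat σ) y) ^ (-(a / 2)) with hF
  set I : ENNReal := ∫⁻ y in {y : Fin n → ℝ | ∀ i, |y i| ≤ R1}, ENNReal.ofReal (F y) with hI
  have hI' : I < ⊤ := hint
  set C3 : ℝ := C1 * (C0 * (2 ^ (2 * n - 2) + 1)) with hC3
  have hC3' : 0 < C3 := by positivity
  set K1 : ℝ := Cb * 6 ^ n * c2 ^ (n + 1) * Cv * C3 ^ (1 / 2 + 1 / (n : ℝ)) with hK1
  set K2 : ℝ := Cb * 6 ^ n * c2 ^ (2 * n * θ) * C3 ^ q * I.toReal with hK2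
  have hK1' : 0 < K1 := by positivity
  have hK2' : 0 ≤ K2 := by positivity
  refine ⟨K1 + K2, by positivity, ?_⟩
  intro S Y hS hY T hT
  have hS0 : 0 < S := by linarith
  set W : ℝ := Y / S ^ (2 * n - 2) + 1 / S ^ n with hW
  have hYS : 0 < Y / S ^ (2 * n - 2) := by positivity
  have hSn : 0 < 1 / S ^ n := by positivity
  have hW0 : 0 < W := by positivity
  have hη1 : 1 / S ^ n ≤ 1 := by
    rw [div_le_one (by positivity)]
    exact one_le_pow₀ hS
  -- choice of the shifted points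
  have hchoice : ∀ P ∈ T, ∃ y' : Fin n → ℝ, (∀ l, |y' l| ≤ R0 + B) ∧
      c0 * (1 / S ^ n) ≤ D2 (Zof (Nmat σ) y') ∧
      D2 (Zof (Nmat σ) y') ≤ C0 * ((2 ^ (2 * n - 2) + 1) * W) ∧
      ∀ β : Fin n → ℂ, Near (Zof (Nmat σ) y') β → ∀ l,
        ‖(P.map (Int.castRingHom ℂ)).eval (β l)‖ ≤ (c2 * S) * ww β l := by
    intro P hP
    obtain ⟨hdeg, -, -, hlow, hup, hdisc, y, hy, hPy⟩ := hT P hP
    obtain ⟨y', s, hs0, hs1, h1, h2, h3, h4, h5⟩ := hshift σ hσ y (1 / S ^ n) (by positivity) hη1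
    have ha0 : (P.coeff n : ℂ) ≠ 0 := by
      intro h
      have h' : (P.coeff n : ℝ) = 0 := by exact_mod_cast h
      rw [h', abs_zero] at hlow
      linarith
    have hnorm : ‖(P.coeff n : ℂ)‖ = |(P.coeff n : ℝ)| := Complex.norm_intCast _
    have hD := abs_discr (by omega : 1 ≤ n) ha0 hPy
    rw [hnorm] at hD
    have hD2 : D2 (Zof (Nmat σ) y) ≤ 2 ^ (2 * n - 2) * (Y / S ^ (2 * n - 2)) := by
      have e1 : (S / 2) ^ (2 * n - 2) * D2 (Zof (Nmat σ) y) ≤ Y := by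
        calc _ ≤ |(P.coeff n : ℝ)| ^ (2 * n - 2) * D2 (Zof (Nmat σ) y) :=
              mul_le_mul_of_nonneg_right (pow_le_pow_left₀ (by positivity) hlow _) (D2_nonneg _)
          _ ≤ Y := by rw [← hD]; exact hdisc
      rw [div_pow, div_mul_eq_mul_div, div_le_iff₀ (by positivity)] at e1
      rw [mul_div_assoc', le_div_iff₀ (by positivity)]
      linarith
    have hp2 : (0 : ℝ) < 2 ^ (2 * n - 2) := by positivity
    refine ⟨y', ?_, h4, ?_, ?_⟩
    · intro l
      have e1 := h1 l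
      have e2 := hy l
      have e3 : B * s ≤ B := by nlinarith
      calc |y' l| = |(y' l - y l) + y l| := by congr 1; ring
        _ ≤ |y' l - y l| + |y l| := abs_add_le _ _
        _ ≤ _ := by linarith
    · refine h5.trans (mul_le_mul_of_nonneg_left ?_ hC0.le)
      apply max_le
      · refine hD2.trans ?_
        rw [hW]
        nlinarith [mul_pos hp2 hSn]
      · rw [hW]
        nlinarith [mul_pos hp2 hYS, mul_pos hp2 hSn]
    · intro β hβ l
      have e1 := near_body hn hβ B s hB h2 h3 l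
      rw [hPy, eval_mul, eval_C, eval_ofRoots, norm_mul, hnorm, norm_prod]
      calc |(P.coeff n : ℝ)| * ∏ i, ‖β l - Zof (Nmat σ) y i‖ ≤ S * (c2 * ww β l) :=
            mul_le_mul hup e1 (Finset.prod_nonneg fun _ _ => norm_nonneg _) hS0.le
        _ = _ := by ring
  choose! y' hy'1 hy'2 hy'3 hy'4 using hchoice
  set z' : ℤ[X] → Fin n → ℂ := fun P => Zof (Nmat σ) (y' P) with hz'
  have hDpos : ∀ P ∈ T, 0 < D2 (z' P) := fun P hP =>
    lt_of_lt_of_le (by positivity) (hy'2 P hP)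
  have hddpos : ∀ P ∈ T, ∀ l, 0 < dd (z' P) l := by
    intro P hP l
    obtain ⟨j, hj, hd⟩ := dd_exists hn (z' P) l
    rw [hd]
    apply lt_of_le_of_ne (norm_nonneg _)
    intro h0
    have h2 : D2 (z' P) = 0 := by
      unfold D2
      apply Finset.prod_eq_zero (Finset.mem_univ l)
      exact Finset.prod_eq_zero (Finset.mem_erase.2 ⟨hj, Finset.mem_univ j⟩) h0.symm
    have := hDpos P hP
    linarith
  set lo : ℤ[X] → Fin n → ℝ := fun P l => y' P l - dd (z' P) l / 8 with hlo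
  set hi : ℤ[X] → Fin n → ℝ := fun P l => y' P l + dd (z' P) l / 8 with hhi
  have hnear : ∀ P, ∀ y ∈ Set.Icc (lo P) (hi P), Near (z' P) (Zof (Nmat σ) y) := by
    intro P y hy
    apply near_of_coord σ hσ
    intro l
    have e1 := hy.1 l
    have e2 := hy.2 l
    rw [hlo] at e1
    rw [hhi] at e2
    simp only at e1 e2
    rw [abs_le]
    constructor <;> linarith
  set G : Set (Fin n → ℝ) := {y | (∀ i, |y i| ≤ R1) ∧ D2 (Zof (Nmat σ) y) ≤ C3 * W} with hG
  set B1 : ℝ := Cb * 6 ^ n * (c2 * S) ^ (n + 1) * Real.sqrt (C3 * W) with hB1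
  set B2 : ℝ := Cb * 6 ^ n * (c2 * S) ^ (2 * n * θ) * (C3 * W) ^ q with hB2
  have hc2S : (0 : ℝ) < c2 * S := by positivity
  have hB1' : 0 ≤ B1 := by positivity
  have hB2' : 0 ≤ B2 := by positivity
  have hF0 : ∀ y, 0 ≤ F y := fun y => by
    have h1 : 0 ≤ ∏ i, dd (Zof (Nmat σ) y) i := Finset.prod_nonneg fun i _ => dd_nonneg _ _
    have h2 := D2_nonneg (Zof (Nmat σ) y)
    exact mul_nonneg (Real.rpow_nonneg h1 _) (Real.rpow_nonneg h2 _)
  have hmain := double_count2 T lo hi (by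
    intro P hP l
    have := hddpos P hP l
    rw [hlo, hhi]
    simp only
    linarith) G (fun y => B1 + B2 * F y) (by
    intro P hP y hy
    have hN := hnear P y hy
    refine ⟨?_, ?_⟩
    · intro l
      have e1 := hy.1 l
      have e2 := hy.2 l
      rw [hlo] at e1
      rw [hhi] at e2
      simp only at e1 e2
      have e3 := hy'1 P hP
      have e4 : dd (z' P) l ≤ 4 * (R0 + B) := by
        obtain ⟨j, hj, hd⟩ := dd_exists hn (z' P) l
        rw [hd]
        have a1 : ∀ i, ‖z' P i‖ ≤ 2 * (R0 + B) := by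
          intro i
          refine (norm_Zof_le σ _ i).trans ?_
          linarith [e3 i, e3 (σ i)]
        calc _ ≤ ‖z' P l‖ + ‖z' P j‖ := norm_sub_le _ _
          _ ≤ _ := by linarith [a1 l, a1 j]
      have e5 := e3 l
      rw [abs_le] at e5 ⊢
      rw [hR1]
      constructor <;> linarith [e5.1, e5.2]
    · calc D2 (Zof (Nmat σ) y) ≤ C1 * D2 (z' P) := near_D2_up hN
        _ ≤ C1 * (C0 * ((2 ^ (2 * n - 2) + 1) * W)) :=
            mul_le_mul_of_nonneg_left (hy'3 P hP) hC1'.le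
        _ = _ := by rw [hC3]; ring) (by
    intro y hyG T' hT' hne hy
    set β := Zof (Nmat σ) y with hβ
    obtain ⟨P₀, hP₀⟩ := hne
    have hβD : c1 * (c0 * (1 / S ^ n)) ≤ D2 β :=
      (mul_le_mul_of_nonneg_left (hy'2 P₀ (hT' hP₀)) hc1'.le).trans
        (near_D2_low (hnear P₀ y (hy P₀ hP₀)))
    have hβD0 : 0 < D2 β := lt_of_lt_of_le (by positivity) hβD
    have hβM : ∀ i j, ‖β i - β j‖ ≤ Mz := by
      intro i j
      have e : ∀ i, ‖β i‖ ≤ 2 * R1 := by
        intro i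
        refine (norm_Zof_le σ _ i).trans ?_
        linarith [hyG.1 i, hyG.1 (σ i)]
      calc _ ≤ ‖β i‖ + ‖β j‖ := norm_sub_le _ _
        _ ≤ Mz := by rw [hMz]; linarith [e i, e j]
    have hddβ : ∀ l, 0 < dd β l := by
      intro l
      have e1 := near_dd_low hn (hnear P₀ y (hy P₀ hP₀)) l
      have e2 := hddpos P₀ (hT' hP₀) l
      linarith
    have hpβ : 0 < ∏ l, dd β l := Finset.prod_pos fun l _ => hddβ l
    have hdd2 := D2_le_dd hn β Mz hMz1 hβM
    have hcond : c2 ^ (2 * n) * (c1 * c0) ^ 2 / Mz ^ (n * n) ≤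
        (c2 * S) ^ (2 * n) * ((∏ l, dd β l) * D2 β) := by
      have e1 : (c1 * (c0 * (1 / S ^ n))) ^ 2 ≤ D2 β * D2 β := by
        rw [sq]
        exact mul_le_mul hβD hβD (by positivity) hβD0.le
      have e2 : D2 β * D2 β ≤ Mz ^ (n * n) * ((∏ l, dd β l) * D2 β) := by
        calc D2 β * D2 β ≤ (Mz ^ (n * n) * ∏ l, dd β l) * D2 β :=
              mul_le_mul_of_nonneg_right hdd2 hβD0.le
          _ = _ := by ring
      rw [div_le_iff₀ (by positivity)]
      calc c2 ^ (2 * n) * (c1 * c0) ^ 2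
          = (c2 * S) ^ (2 * n) * (c1 * (c0 * (1 / S ^ n))) ^ 2 := by
            have hS2 : S ^ (2 * n) * (1 / S ^ n) ^ 2 = 1 := by
              rw [mul_comm 2 n, pow_mul, ← mul_pow, mul_one_div, div_self (by positivity), one_pow]
            calc c2 ^ (2 * n) * (c1 * c0) ^ 2
                = c2 ^ (2 * n) * (c1 * c0) ^ 2 * (S ^ (2 * n) * (1 / S ^ n) ^ 2) := by
                  rw [hS2, mul_one]
              _ = _ := by rw [mul_pow c2 S]; ring
        _ ≤ (c2 * S) ^ (2 * n) * (Mz ^ (n * n) * ((∏ l, dd β l) * D2 β)) :=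
            mul_le_mul_of_nonneg_left (e1.trans e2) (by positivity)
        _ = _ := by ring
    have hcnt := hbody β (Zof_Nmat_conj σ hσ y) hβD0 (c2 * S) hc2S hcond T' (by
      intro P hP
      obtain ⟨h1, h2, h3, h4, h5, -⟩ := hT P (hT' hP)
      refine ⟨h1, h2, h3, ?_, ?_⟩
      · exact hy'4 P (hT' hP) β (hnear P y (hy P hP))
      · nlinarith)
    have hterm : ∀ P ∈ T', 1 / ∏ l, (hi P l - lo P l) ≤ 6 ^ n / ∏ l, dd β l := by
      intro P hP
      have e1 : ∏ l, dd β l ≤ 6 ^ n * ∏ l, (hi P l - lo P l) := by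
        calc ∏ l, dd β l ≤ ∏ l : Fin n, (6 * (hi P l - lo P l)) := by
              apply Finset.prod_le_prod (fun l _ => (hddβ l).le)
              intro l _
              have a1 := near_dd_up hn (hnear P y (hy P hP)) l
              rw [hlo, hhi]
              simp only
              linarith
          _ = _ := by
              rw [Finset.prod_mul_distrib, Finset.prod_const, Finset.card_univ, Fintype.card_fin]
      have e2 : 0 < ∏ l, (hi P l - lo P l) := Finset.prod_pos fun l _ => by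
        have := hddpos P (hT' hP) l
        rw [hlo, hhi]
        simp only
        linarith
      rw [div_le_div_iff₀ e2 hpβ]
      linarith
    have hUθ : ((c2 * S) ^ (2 * n) * ((∏ l, dd β l) * D2 β)) ^ θ =
        (c2 * S) ^ (2 * n * θ) * ((∏ l, dd β l) * ((∏ l, dd β l) ^ (-p) *
          (D2 β ^ (-(a / 2)) * D2 β ^ q))) := by
      rw [Real.mul_rpow (by positivity) (by positivity), Real.mul_rpow hpβ.le hβD0.le,
        ← Real.rpow_natCast (c2 * S) (2 * n), ← Real.rpow_mul hc2S.le, ← Real.rpow_add hβD0]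
      have e1 : (∏ l, dd β l) ^ θ = (∏ l, dd β l) * (∏ l, dd β l) ^ (-p) := by
        nth_rewrite 2 [← Real.rpow_one (∏ l, dd β l)]
        rw [← Real.rpow_add hpβ]
        congr 1
        rw [hp]; ring
      rw [e1]
      have e2 : -(a / 2) + q = θ := by rw [hqe]; ring
      rw [e2]
      push_cast
      ring
    have hDq : D2 β ^ q ≤ (C3 * W) ^ q := Real.rpow_le_rpow hβD0.le hyG.2 hq0.le
    have hDs : Real.sqrt (D2 β) ≤ Real.sqrt (C3 * W) := Real.sqrt_le_sqrt hyG.2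
    have hFy : F y = (∏ l, dd β l) ^ (-p) * D2 β ^ (-(a / 2)) := rfl
    have hFy0 := hF0 y
    calc ∑ P ∈ T', 1 / ∏ l, (hi P l - lo P l) ≤ ∑ P ∈ T', 6 ^ n / ∏ l, dd β l :=
          Finset.sum_le_sum hterm
      _ = (T'.card : ℝ) * (6 ^ n / ∏ l, dd β l) := by rw [Finset.sum_const, nsmul_eq_mul]
      _ ≤ (Cb * ((c2 * S) ^ (n + 1) * (∏ l, dd β l) * Real.sqrt (D2 β) +
          ((c2 * S) ^ (2 * n) * ((∏ l, dd β l) * D2 β)) ^ θ)) *
          (6 ^ n / ∏ l, dd β l) := mul_le_mul_of_nonneg_right hcnt (by positivity)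
      _ = Cb * 6 ^ n * (c2 * S) ^ (n + 1) * Real.sqrt (D2 β) +
          Cb * 6 ^ n * (c2 * S) ^ (2 * n * θ) * D2 β ^ q * F y := by
          rw [hUθ, hFy]
          field_simp
      _ ≤ B1 + B2 * F y := by
          apply add_le_add
          · rw [hB1]
            exact mul_le_mul_of_nonneg_left hDs (by positivity)
          · rw [hB2]
            apply mul_le_mul_of_nonneg_right _ hFy0
            exact mul_le_mul_of_nonneg_left hDq (by positivity))
  have hsplit : ∫⁻ y in G, ENNReal.ofReal (B1 + B2 * F y) ≤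
      ENNReal.ofReal (B1 * (Cv * (C3 * W) ^ (1 / (n : ℝ)))) + ENNReal.ofReal (B2 * I.toReal) := by
    calc ∫⁻ y in G, ENNReal.ofReal (B1 + B2 * F y)
        = ∫⁻ y in G, (ENNReal.ofReal B1 + ENNReal.ofReal B2 * ENNReal.ofReal (F y)) := by
          apply lintegral_congr
          intro y
          rw [ENNReal.ofReal_add hB1' (mul_nonneg hB2' (hF0 y)), ENNReal.ofReal_mul hB2']
      _ = ENNReal.ofReal B1 * volume G + ENNReal.ofReal B2 * ∫⁻ y in G, ENNReal.ofReal (F y) := by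
          rw [lintegral_add_left measurable_const, lintegral_const_mul' _ _ ENNReal.ofReal_ne_top,
            setLIntegral_const]
      _ ≤ ENNReal.ofReal B1 * ENNReal.ofReal (Cv * (C3 * W) ^ (1 / (n : ℝ))) +
          ENNReal.ofReal B2 * I := by
          apply add_le_add
          · exact mul_le_mul_right (hvol (C3 * W) (by positivity)) _
          · apply mul_le_mul_right
            rw [hI]
            exact lintegral_mono_set (fun y hy => hy.1)
      _ = _ := by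
          rw [← ENNReal.ofReal_mul hB1', ← ENNReal.ofReal_toReal hI'.ne, ← ENNReal.ofReal_mul hB2',
            ENNReal.toReal_ofReal ENNReal.toReal_nonneg]
  have hfin := hmain.trans hsplit
  rw [← ENNReal.ofReal_add (by positivity) (by positivity)] at hfin
  have hcard : (T.card : ℝ) ≤ B1 * (Cv * (C3 * W) ^ (1 / (n : ℝ))) + B2 * I.toReal := by
    have e1 : ENNReal.ofReal (T.card : ℝ) = (T.card : ENNReal) := ENNReal.ofReal_natCast _
    rw [← e1] at hfin
    exact (ENNReal.ofReal_le_ofReal_iff (by positivity)).1 hfin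
  have e1 : Real.sqrt (C3 * W) * (C3 * W) ^ (1 / (n : ℝ)) =
      C3 ^ (1 / 2 + 1 / (n : ℝ)) * W ^ (1 / 2 + 1 / (n : ℝ)) := by
    rw [Real.sqrt_eq_rpow, ← Real.rpow_add (by positivity), Real.mul_rpow hC3'.le hW0.le]
  have e2 : B1 * (Cv * (C3 * W) ^ (1 / (n : ℝ))) =
      K1 * (S ^ (n + 1) * W ^ (1 / 2 + 1 / (n : ℝ))) := by
    rw [hB1, hK1]
    calc _ = Cb * 6 ^ n * (c2 * S) ^ (n + 1) * Cv *
          (Real.sqrt (C3 * W) * (C3 * W) ^ (1 / (n : ℝ))) := by ring
      _ = _ := by rw [e1, mul_pow]; ring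
  have e3 : B2 * I.toReal = K2 * (S ^ (2 * n * θ) * W ^ q) := by
    rw [hB2, hK2, Real.mul_rpow (by positivity) hS0.le, Real.mul_rpow hC3'.le hW0.le]
    ring
  rw [e2, e3] at hcard
  have h1 : 0 ≤ S ^ (n + 1) * W ^ (1 / 2 + 1 / (n : ℝ)) := by positivity
  have h2 : 0 ≤ S ^ (2 * n * θ) * W ^ q := by positivity
  nlinarith [mul_nonneg hK1'.le h2, mul_nonneg hK2' h1]

end Pool.Agent.Helper45.HR
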