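import Mathlib

namespace Pool.Agent.Helper45.HR

/-- sum of four monomials -/
noncomputable def Psi (x y : Fin 4 → ℝ) (Q Y : ℝ) : ℝ := ∑ i, Q ^ x i * Y ^ y i

theorem Psi_nonneg (x y : Fin 4 → ℝ) {Q Y : ℝ} (hQ : 0 ≤ Q) (hY : 0 ≤ Y) : 0 ≤ Psi x y Q Y :=
  Finset.sum_nonneg fun i _ => mul_nonneg (Real.rpow_nonneg hQ _) (Real.rpow_nonneg hY _)

theorem Psi_mono (x y : Fin 4 → ℝ) (hx : ∀ i, 0 < x i) {Q Q' Y : ℝ} (hQ : 0 ≤ Q) (h : Q ≤ Q')
    (hY : 0 ≤ Y) : Psi x y Q Y ≤ Psi x y Q' Y := by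
  apply Finset.sum_le_sum
  intro i _
  exact mul_le_mul_of_nonneg_right (Real.rpow_le_rpow hQ h (hx i).le) (Real.rpow_nonneg hY _)

theorem Psi_scale (x y : Fin 4 → ℝ) {c Q Y : ℝ} (hc : 0 < c) (hQ : 0 ≤ Q) (hY : 0 ≤ Y) :
    Psi x y (c * Q) Y ≤ (∑ i, c ^ x i) * Psi x y Q Y := by
  unfold Psi
  rw [Finset.mul_sum]
  apply Finset.sum_le_sum
  intro i _
  have h1 : 0 ≤ Q ^ x i * Y ^ y i := mul_nonneg (Real.rpow_nonneg hQ _) (Real.rpow_nonneg hY _)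
  rw [Real.mul_rpow hc.le hQ, mul_assoc]
  apply mul_le_mul_of_nonneg_right _ h1
  exact Finset.single_le_sum (f := fun i => c ^ x i) (fun i _ => by positivity)
    (Finset.mem_univ i)

theorem geom_rpow {x : ℝ} (hx : 0 < x) : ∃ K : ℝ, 0 < K ∧ ∀ J : ℕ,
    ∑ j ∈ Finset.range (J + 1), ((2 : ℝ) ^ j) ^ x ≤ K * ((2 : ℝ) ^ J) ^ x := by
  set r : ℝ := (2 : ℝ) ^ x with hr
  have hr1 : 1 < r := Real.one_lt_rpow (by norm_num) hx
  have hr0 : 0 < r - 1 := by linarith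
  refine ⟨r / (r - 1), by positivity, ?_⟩
  intro J
  have h1 : ∀ j : ℕ, ((2 : ℝ) ^ j) ^ x = r ^ j := by
    intro j
    rw [hr, ← Real.rpow_natCast, ← Real.rpow_natCast, ← Real.rpow_mul (by norm_num),
      ← Real.rpow_mul (by norm_num), mul_comm]
  simp_rw [h1]
  rw [geom_sum_eq hr1.ne', div_mul_eq_mul_div]
  apply div_le_div_of_nonneg_right _ hr0.le
  rw [pow_succ']
  linarith

theorem Psi_dyadic (x y : Fin 4 → ℝ) (hx : ∀ i, 0 < x i) : ∃ K : ℝ, 0 < K ∧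
    ∀ (J : ℕ) (Y : ℝ), 0 ≤ Y →
      ∑ j ∈ Finset.range (J + 1), Psi x y ((2 : ℝ) ^ j) Y ≤ K * Psi x y ((2 : ℝ) ^ J) Y := by
  choose K hK hle using fun i => geom_rpow (hx i)
  refine ⟨∑ i, K i, Finset.sum_pos (fun i _ => hK i) Finset.univ_nonempty, ?_⟩
  intro J Y hY
  unfold Psi
  rw [Finset.sum_comm, Finset.mul_sum]
  apply Finset.sum_le_sum
  intro i _
  rw [← Finset.sum_mul]
  have h1 : 0 ≤ Y ^ y i := Real.rpow_nonneg hY _
  have h2 : K i ≤ ∑ i, K i := Finset.single_le_sum (f := K) (fun i _ => (hK i).le)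
    (Finset.mem_univ i)
  calc (∑ j ∈ Finset.range (J + 1), ((2 : ℝ) ^ j) ^ x i) * Y ^ y i
      ≤ (K i * ((2 : ℝ) ^ J) ^ x i) * Y ^ y i := mul_le_mul_of_nonneg_right (hle i J) h1
    _ = K i * (((2 : ℝ) ^ J) ^ x i * Y ^ y i) := by ring
    _ ≤ _ := mul_le_mul_of_nonneg_right h2 (by positivity)

theorem zeta_bound {z : ℝ} (hz : 1 < z) : ∃ K : ℝ, 0 < K ∧ ∀ N : ℕ,
    ∑ t ∈ Finset.Icc 1 N, (t : ℝ) ^ (-z) ≤ K := by
  have hs : Summable fun t : ℕ => (t : ℝ) ^ (-z) := Real.summable_nat_rpow.2 (by linarith)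
  refine ⟨∑' t : ℕ, (t : ℝ) ^ (-z) + 1, ?_, ?_⟩
  · have : 0 ≤ ∑' t : ℕ, (t : ℝ) ^ (-z) := tsum_nonneg fun t => by positivity
    linarith
  · intro N
    have := hs.sum_le_tsum (Finset.Icc 1 N) (fun t _ => by positivity)
    linarith

theorem Psi_content (x y : Fin 4 → ℝ) (m : ℕ) (hz : ∀ i, 1 < x i + m * y i) :
    ∃ K : ℝ, 0 < K ∧ ∀ (N : ℕ) (Q Y : ℝ), 0 ≤ Q → 0 ≤ Y →
      ∑ t ∈ Finset.Icc 1 N, Psi x y (Q / t) (Y / (t : ℝ) ^ m) ≤ K * Psi x y Q Y := by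
  choose K hK hle using fun i => zeta_bound (hz i)
  refine ⟨∑ i, K i, Finset.sum_pos (fun i _ => hK i) Finset.univ_nonempty, ?_⟩
  intro N Q Y hQ hY
  unfold Psi
  rw [Finset.sum_comm, Finset.mul_sum]
  apply Finset.sum_le_sum
  intro i _
  have h1 : 0 ≤ Q ^ x i * Y ^ y i := mul_nonneg (Real.rpow_nonneg hQ _) (Real.rpow_nonneg hY _)
  have h2 : K i ≤ ∑ i, K i := Finset.single_le_sum (f := K) (fun i _ => (hK i).le)
    (Finset.mem_univ i)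
  calc ∑ t ∈ Finset.Icc 1 N, (Q / t) ^ x i * (Y / (t : ℝ) ^ m) ^ y i
      = ∑ t ∈ Finset.Icc 1 N, (Q ^ x i * Y ^ y i) * (t : ℝ) ^ (-(x i + m * y i)) := by
        apply Finset.sum_congr rfl
        intro t ht
        have ht1 := (Finset.mem_Icc.1 ht).1
        have ht0 : (0 : ℝ) < t := by exact_mod_cast ht1
        rw [Real.div_rpow hQ ht0.le, Real.div_rpow hY (by positivity), ← Real.rpow_natCast,
          ← Real.rpow_mul ht0.le, Real.rpow_neg ht0.le, Real.rpow_add ht0]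
        have e1 := (Real.rpow_pos_of_pos ht0 (x i)).ne'
        have e2 := (Real.rpow_pos_of_pos ht0 (m * y i)).ne'
        field_simp
    _ = (Q ^ x i * Y ^ y i) * ∑ t ∈ Finset.Icc 1 N, (t : ℝ) ^ (-(x i + m * y i)) := by
        rw [Finset.mul_sum]
    _ ≤ (Q ^ x i * Y ^ y i) * K i := mul_le_mul_of_nonneg_left (hle i N) h1
    _ ≤ (∑ i, K i) * (Q ^ x i * Y ^ y i) := by
        rw [mul_comm]
        exact mul_le_mul_of_nonneg_right h2 h1

theorem add_rpow_le {a b x : ℝ} (ha : 0 ≤ a) (hb : 0 ≤ b) (hx : 0 ≤ x) :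
    (a + b) ^ x ≤ 2 ^ x * (a ^ x + b ^ x) := by
  rcases le_total a b with h | h
  · calc (a + b) ^ x ≤ (2 * b) ^ x := Real.rpow_le_rpow (by positivity) (by linarith) hx
      _ = 2 ^ x * b ^ x := Real.mul_rpow (by norm_num) hb
      _ ≤ _ := by
          apply mul_le_mul_of_nonneg_left _ (by positivity)
          have := Real.rpow_nonneg ha x
          linarith
  · calc (a + b) ^ x ≤ (2 * a) ^ x := Real.rpow_le_rpow (by positivity) (by linarith) hx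
      _ = 2 ^ x * a ^ x := Real.mul_rpow (by norm_num) ha
      _ ≤ _ := by
          apply mul_le_mul_of_nonneg_left _ (by positivity)
          have := Real.rpow_nonneg hb x
          linarith

end Pool.Agent.Helper45.HR
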