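import Pool.Agent.Helper45.DMain
import Pool.Agent.Helper45.HR.Sigma2
import Pool.Agent.Helper45.HR.Sums
import Mathlib

open Polynomial

namespace Pool.Agent.Helper45.HR

open Pool.Agent.Helper12.Disc Pool.Agent.Helper45.Disc

variable {n : ℕ}

/-- the bound for one dyadic class -/
noncomputable def EE (n : ℕ) (τ S Y : ℝ) : ℝ :=
  S ^ (n + 1) * (Y / S ^ (2 * n - 2) + 1 / S ^ n) ^ (1 / 2 + 1 / (n : ℝ)) +
    S ^ (2 * n * th0 n) * (Y / S ^ (2 * n - 2) + 1 / S ^ n) ^ (2 * th0 n - 1 / 2 - τ / 2)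

theorem EE_nonneg (τ : ℝ) {S Y : ℝ} (hS : 0 ≤ S) (hY : 0 ≤ Y) : 0 ≤ EE n τ S Y := by
  unfold EE; positivity

/-- count with large leading coefficient -/
theorem count_lead2 (hM1 : ST_M1) (hN2 : ST_N2) (hn : 2 ≤ n) (B : ℕ) (τ : ℝ) (hτ : 0 < τ)
    (hτ1 : τ < 1) (hτ2 : τ < 2 * th0 n - 1) :
    ∃ K : ℝ, 0 < K ∧ ∀ S Y : ℝ, 1 ≤ S → 0 < Y →
      ∀ T : Finset ℤ[X], (∀ P ∈ T, P.natDegree = n ∧ P.IsPrimitive ∧
        Irreducible (P.map (Int.castRingHom ℚ)) ∧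
        S / 2 ≤ |(P.coeff n : ℝ)| ∧ |(P.coeff n : ℝ)| ≤ S ∧ |(P.discr : ℝ)| ≤ Y ∧
        (∀ i < n, |P.coeff i| ≤ B * |P.coeff n|)) →
      (T.card : ℝ) ≤ K * EE n τ S Y := by
  classical
  have hR : (1 : ℝ) ≤ 1 + n * B := by
    have : (0 : ℝ) ≤ n * B := by positivity
    linarith
  have hch : ∀ σ : Fin n → Fin n, ∃ K : ℝ, 0 < K ∧ ((∀ l, σ (σ l) = l) →
      ∀ S Y : ℝ, 1 ≤ S → 0 < Y →
      ∀ T : Finset ℤ[X], (∀ P ∈ T, P.natDegree = n ∧ P.IsPrimitive ∧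
        Irreducible (P.map (Int.castRingHom ℚ)) ∧
        S / 2 ≤ |(P.coeff n : ℝ)| ∧ |(P.coeff n : ℝ)| ≤ S ∧ |(P.discr : ℝ)| ≤ Y ∧
        ∃ y : Fin n → ℝ, (∀ i, |y i| ≤ 1 + n * B) ∧
          P.map (Int.castRingHom ℂ) = C (P.coeff n : ℂ) * ofRoots (Zof (Nmat σ) y)) →
      (T.card : ℝ) ≤ K * EE n τ S Y) := by
    intro σ
    by_cases hσ : ∀ l, σ (σ l) = l
    · obtain ⟨K, hK, h⟩ := count_sigma2 hM1 hN2 hn σ hσ (1 + n * B) hR τ hτ hτ1 hτ2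
      exact ⟨K, hK, fun _ => h⟩
    · exact ⟨1, one_pos, fun h => absurd h hσ⟩
  choose K hK hcount using hch
  refine ⟨∑ σ, K σ, Finset.sum_pos (fun σ _ => hK σ) ⟨id, Finset.mem_univ _⟩, ?_⟩
  intro S Y hS hY T hT
  have hpar : ∀ P : ℤ[X], ∃ σ : Fin n → Fin n, P ∈ T → ((∀ l, σ (σ l) = l) ∧
      ∃ y : Fin n → ℝ, (∀ i, |y i| ≤ 1 + n * B) ∧
      P.map (Int.castRingHom ℂ) = C (P.coeff n : ℂ) * ofRoots (Zof (Nmat σ) y)) := by
    intro P
    by_cases hP : P ∈ T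
    · obtain ⟨h1, -, -, h3, h4, h5, h6⟩ := hT P hP
      have h0 : P.coeff n ≠ 0 := by
        intro h
        rw [h] at h3
        simp only [Int.cast_zero, abs_zero] at h3
        linarith
      obtain ⟨σ, hσ, y, hy⟩ := lead_param (by omega) B P h1 h0 h6
      exact ⟨σ, fun _ => ⟨hσ, y, hy⟩⟩
    · exact ⟨id, fun h => absurd h hP⟩
  choose f hf using hpar
  have hcard : (T.card : ℝ) = ∑ σ, ((T.filter fun P => f P = σ).card : ℝ) := by
    rw [Finset.card_eq_sum_card_fiberwise (f := f) (t := Finset.univ)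
      (fun _ _ => Finset.mem_coe.2 (Finset.mem_univ _))]
    push_cast
    rfl
  rw [hcard, Finset.sum_mul]
  apply Finset.sum_le_sum
  intro σ _
  rcases (T.filter fun P => f P = σ).eq_empty_or_nonempty with he | ⟨P₀, hP₀⟩
  · rw [he, Finset.card_empty, Nat.cast_zero]
    exact mul_nonneg (hK σ).le (EE_nonneg τ (by linarith) hY.le)
  · rw [Finset.mem_filter] at hP₀
    have hσ : ∀ l, σ (σ l) = l := by
      have := (hf P₀ hP₀.1).1
      rwa [hP₀.2] at this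
    apply hcount σ hσ S Y hS hY
    intro P hP
    rw [Finset.mem_filter] at hP
    obtain ⟨h1, h2, h2', h3, h4, h5, h6⟩ := hT P hP.1
    refine ⟨h1, h2, h2', h3, h4, h5, ?_⟩
    have := (hf P hP.1).2
    rwa [hP.2] at this

/-- exponents of the final bound -/
noncomputable def xx (n : ℕ) (τ : ℝ) : Fin 4 → ℝ :=
  ![2 / (n : ℝ), (n : ℝ) / 2, 2 * n * th0 n - (2 * n - 2) * (2 * th0 n - 1 / 2 - τ / 2),
    n * (1 + τ) / 2]

noncomputable def yy (n : ℕ) (τ : ℝ) : Fin 4 → ℝ :=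
  ![1 / 2 + 1 / (n : ℝ), 0, 2 * th0 n - 1 / 2 - τ / 2, 0]

theorem xx_pos (hn : 2 ≤ n) (τ : ℝ) (hτ : 0 < τ) : ∀ i, 0 < xx n τ i := by
  obtain ⟨h1, h2, -⟩ := exponents hn τ hτ
  have hn0 : (0 : ℝ) < n := by
    have : 0 < n := by omega
    exact_mod_cast this
  have hn2 : (2 : ℝ) ≤ n := by exact_mod_cast hn
  intro i
  fin_cases i
  · simp only [xx, Fin.zero_eta, Matrix.cons_val_zero]
    positivity
  · simp only [xx, Fin.mk_one, Matrix.cons_val_one, Matrix.cons_val_zero]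
    positivity
  · simp only [xx, Fin.reduceFinMk, Matrix.cons_val]
    have e1 : 2 * n * th0 n - (2 * n - 2) * (2 * th0 n - 1 / 2 - τ / 2) =
        (n - 1) * (1 + τ) - (2 * n - 4) * th0 n := by ring
    rw [e1]
    have e2 : (2 * (n : ℝ) - 4) * th0 n ≤ (2 * n - 4) * (((n : ℝ) + 1) / (2 * n)) :=
      mul_le_mul_of_nonneg_left h2.le (by linarith)
    have e3 : (2 * (n : ℝ) - 4) * (((n : ℝ) + 1) / (2 * n)) = n - 1 - 2 / n := by
      field_simp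
      ring
    have e4 : 0 < 2 / (n : ℝ) := by positivity
    have e5 : 0 < ((n : ℝ) - 1) * τ := by
      apply mul_pos _ hτ
      linarith
    nlinarith
  · simp only [xx, Fin.reduceFinMk, Matrix.cons_val]
    positivity

theorem EE_le (hn : 2 ≤ n) (τ : ℝ) (hτ : 0 < τ) (hτ2 : τ < 2 * th0 n - 1) :
    ∃ K : ℝ, 0 < K ∧ ∀ S Y : ℝ, 0 < S → 0 < Y → EE n τ S Y ≤ K * Psi (xx n τ) (yy n τ) S Y := by
  have hn0 : (0 : ℝ) < n := by
    have : 0 < n := by omega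
    exact_mod_cast this
  set e1 : ℝ := 1 / 2 + 1 / (n : ℝ) with he1
  set q : ℝ := 2 * th0 n - 1 / 2 - τ / 2 with hq
  obtain ⟨h1, -, -⟩ := exponents hn τ hτ
  have he10 : 0 < e1 := by positivity
  have hq0 : 0 < q := by rw [hq]; linarith
  refine ⟨2 ^ e1 + 2 ^ q, by positivity, ?_⟩
  intro S Y hS hY
  have hYS : 0 < Y / S ^ (2 * n - 2) := by positivity
  have hSn : 0 < 1 / S ^ n := by positivity
  have hcast : ((2 * n - 2 : ℕ) : ℝ) = 2 * n - 2 := by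
    rw [Nat.cast_sub (by omega)]
    push_cast
    ring
  have a1 : S ^ (n + 1) * (Y / S ^ (2 * n - 2)) ^ e1 = S ^ (2 / (n : ℝ)) * Y ^ e1 := by
    rw [pow_id hn S Y hS hY]
    ring
  have a2 : S ^ (n + 1) * (1 / S ^ n) ^ e1 = S ^ ((n : ℝ) / 2) := by
    rw [one_div, ← Real.rpow_natCast S n, ← Real.rpow_neg hS.le, ← Real.rpow_mul hS.le,
      ← Real.rpow_natCast S (n + 1), ← Real.rpow_add hS]
    congr 1
    rw [he1]
    push_cast
    field_simp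
    ring
  have a3 : S ^ (2 * n * th0 n) * (Y / S ^ (2 * n - 2)) ^ q =
      S ^ (2 * n * th0 n - (2 * n - 2) * q) * Y ^ q := by
    rw [Real.div_rpow hY.le (by positivity), ← Real.rpow_natCast S (2 * n - 2),
      ← Real.rpow_mul hS.le, hcast, Real.rpow_sub hS]
    ring
  have a4 : S ^ (2 * n * th0 n) * (1 / S ^ n) ^ q = S ^ (n * (1 + τ) / 2) := by
    rw [one_div, ← Real.rpow_natCast S n, ← Real.rpow_neg hS.le, ← Real.rpow_mul hS.le,
      ← Real.rpow_add hS]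
    congr 1
    rw [hq]
    ring
  have b1 := add_rpow_le hYS.le hSn.le he10.le
  have b2 := add_rpow_le hYS.le hSn.le hq0.le
  have c1 : S ^ (n + 1) * (Y / S ^ (2 * n - 2) + 1 / S ^ n) ^ e1 ≤
      2 ^ e1 * (S ^ (2 / (n : ℝ)) * Y ^ e1 + S ^ ((n : ℝ) / 2)) := by
    calc _ ≤ S ^ (n + 1) * (2 ^ e1 * ((Y / S ^ (2 * n - 2)) ^ e1 + (1 / S ^ n) ^ e1)) :=
          mul_le_mul_of_nonneg_left b1 (by positivity)
      _ = 2 ^ e1 * (S ^ (n + 1) * (Y / S ^ (2 * n - 2)) ^ e1 + S ^ (n + 1) * (1 / S ^ n) ^ e1) := by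
          ring
      _ = _ := by rw [a1, a2]
  have c2 : S ^ (2 * n * th0 n) * (Y / S ^ (2 * n - 2) + 1 / S ^ n) ^ q ≤
      2 ^ q * (S ^ (2 * n * th0 n - (2 * n - 2) * q) * Y ^ q + S ^ (n * (1 + τ) / 2)) := by
    calc _ ≤ S ^ (2 * n * th0 n) * (2 ^ q * ((Y / S ^ (2 * n - 2)) ^ q + (1 / S ^ n) ^ q)) :=
          mul_le_mul_of_nonneg_left b2 (by positivity)
      _ = 2 ^ q * (S ^ (2 * n * th0 n) * (Y / S ^ (2 * n - 2)) ^ q +
          S ^ (2 * n * th0 n) * (1 / S ^ n) ^ q) := by ring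
      _ = _ := by rw [a3, a4]
  have hPsi : Psi (xx n τ) (yy n τ) S Y = (S ^ (2 / (n : ℝ)) * Y ^ e1 + S ^ ((n : ℝ) / 2)) +
      (S ^ (2 * n * th0 n - (2 * n - 2) * q) * Y ^ q + S ^ (n * (1 + τ) / 2)) := by
    unfold Psi
    rw [Fin.sum_univ_four]
    simp only [xx, yy, Matrix.cons_val]
    rw [Real.rpow_zero]
    ring
  rw [hPsi]
  unfold EE
  set X1 := S ^ (2 / (n : ℝ)) * Y ^ e1 + S ^ ((n : ℝ) / 2) with hX1
  set X2 := S ^ (2 * n * th0 n - (2 * n - 2) * q) * Y ^ q + S ^ (n * (1 + τ) / 2) with hX2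
  have hX10 : 0 ≤ X1 := by positivity
  have hX20 : 0 ≤ X2 := by positivity
  have p1 : (0 : ℝ) < 2 ^ e1 := by positivity
  have p2 : (0 : ℝ) < 2 ^ q := by positivity
  nlinarith [mul_nonneg p1.le hX20, mul_nonneg p2.le hX10]

end Pool.Agent.Helper45.HR
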