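import Mathlib
import Pool.Agent.Helper12.DiscTr
import Pool.Agent.Helper86.HR.N2

open Polynomial

namespace Pool.Agent.Helper45.HR

open Pool.Agent.Helper12.Disc

variable {n : ℕ}

theorem tr_prim (k : ℤ) (P : ℤ[X]) (hP : P.natDegree ≤ n) (h : P.IsPrimitive) :
    (tr n k P).IsPrimitive := by
  intro r hr
  apply h
  unfold tr at hr
  rw [C_dvd_iff_dvd_coeff] at hr
  have h1 : C r ∣ taylor k P := by
    rw [C_dvd_iff_dvd_coeff]
    intro i
    by_cases hi : i ≤ n
    · have := hr (n - i)
      rw [coeff_reflect, revAt_le (Nat.sub_le _ _), Nat.sub_sub_self hi] at this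
      exact this
    · rw [coeff_eq_zero_of_natDegree_lt (by rw [natDegree_taylor]; omega)]
      exact dvd_zero _
  obtain ⟨q, hq⟩ := h1
  refine ⟨taylor (-k) q, ?_⟩
  have h2 : P = taylor (-k) (taylor k P) := by
    rw [taylor_taylor, neg_add_cancel, taylor_zero]
  rw [h2, hq, taylor_mul, taylor_C]

theorem tr_irred (hn : 2 ≤ n) (k : ℤ) (P : ℤ[X]) (hP : P.natDegree = n) (hprim : P.IsPrimitive)
    (hirr : Irreducible (P.map (Int.castRingHom ℚ))) (hdeg : (tr n k P).natDegree = n) :
    Irreducible ((tr n k P).map (Int.castRingHom ℚ)) := by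
  have hp := tr_prim (n := n) k P hP.le hprim
  rw [← IsPrimitive.Int.irreducible_iff_irreducible_map_cast hp]
  constructor
  · intro hu
    have := natDegree_eq_zero_of_isUnit hu
    omega
  · intro a b hab
    have h0 : tr n k P ≠ 0 := by
      intro h
      rw [h, natDegree_zero] at hdeg
      omega
    have ha0 : a ≠ 0 := by rintro rfl; exact h0 (by rw [hab, zero_mul])
    have hb0 : b ≠ 0 := by rintro rfl; exact h0 (by rw [hab, mul_zero])
    have key : ∀ c : ℤ[X], c ∣ tr n k P → c.natDegree = 0 → IsUnit c := by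
      intro c hc hc0
      obtain ⟨r, hr⟩ := natDegree_eq_zero.1 hc0
      rw [← hr] at hc ⊢
      exact isUnit_C.2 (hp r hc)
    have hda : a ∣ tr n k P := ⟨b, hab⟩
    have hdb : b ∣ tr n k P := ⟨a, by rw [hab, mul_comm]⟩
    have hsum : a.natDegree + b.natDegree = n := by
      rw [← natDegree_mul ha0 hb0, ← hab, hdeg]
    rcases Helper86.HR.dvd_TT (by omega) k P a hP hirr hda with h | h
    · exact Or.inl (key a hda h)
    · exact Or.inr (key b hdb (by omega))

end Pool.Agent.Helper45.HR
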