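import Pool.Agent.Helper45.HR.Lead
import Pool.Agent.Helper45.HR.TrIrr
import Mathlib

open Polynomial

namespace Pool.Agent.Helper45.HR

open Pool.Agent.Helper12.Disc Pool.Agent.Helper45.Disc

variable {n : ℕ}

theorem no_root (hn : 2 ≤ n) (P : ℤ[X]) (hP : P.natDegree = n)
    (hirr : Irreducible (P.map (Int.castRingHom ℚ))) (k : ℤ) : P.eval k ≠ 0 := by
  intro h0
  have hdeg : (P.map (Int.castRingHom ℚ)).natDegree = n := by
    rw [natDegree_map_eq_of_injective (RingHom.injective_int _), hP]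
  have hroot : (P.map (Int.castRingHom ℚ)).IsRoot (k : ℚ) := by
    rw [IsRoot.def, eval_intCast_map]
    simp [h0]
  exact hirr.not_isRoot_of_natDegree_ne_one (by omega) hroot

/-- primitive irreducible polynomials -/
theorem main_prim (hM1 : ST_M1) (hN2 : ST_N2) (hn : 2 ≤ n) (τ : ℝ) (hτ : 0 < τ)
    (hτ1 : τ < 1) (hτ2 : τ < 2 * th0 n - 1) :
    ∃ K : ℝ, 0 < K ∧ ∀ Q Y : ℝ, 1 ≤ Q → 0 < Y →
      ∀ T : Finset ℤ[X], (∀ P ∈ T, P.natDegree = n ∧ P.IsPrimitive ∧
        Irreducible (P.map (Int.castRingHom ℚ)) ∧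
        (∀ i, |(P.coeff i : ℝ)| ≤ Q) ∧ |(P.discr : ℝ)| ≤ Y) →
      (T.card : ℝ) ≤ K * Psi (xx n τ) (yy n τ) Q Y := by
  classical
  obtain ⟨K1, hK1, hlarge⟩ := exists_large_value n
  obtain ⟨M, hM, htr⟩ := tr_coeff_bound n
  set B : ℕ := ⌈M * K1⌉₊ with hB
  obtain ⟨K, hK, hcount⟩ := count_lead2 hM1 hN2 hn B τ hτ hτ1 hτ2
  obtain ⟨Ke, hKe, hEE⟩ := EE_le hn τ hτ hτ2
  have hx := xx_pos hn τ hτ
  obtain ⟨Kd, hKd, hdy⟩ := Psi_dyadic (xx n τ) (yy n τ) hx
  set Ks : ℝ := ∑ i, (2 * M) ^ (xx n τ i) with hKs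
  have hKs0 : 0 < Ks := Finset.sum_pos (fun i _ => by positivity) Finset.univ_nonempty
  refine ⟨((n : ℝ) + 1) * (K * (Ke * (Kd * Ks))), by positivity, ?_⟩
  intro Q Y hQ hY T hT
  have hQ0 : 0 < Q := by linarith
  set m : ℕ := ⌊M * Q⌋₊ with hm
  have hmle : (m : ℝ) ≤ M * Q := Nat.floor_le (by positivity)
  set J : ℕ := Nat.clog 2 m with hJ
  -- choose the large value
  have hch : ∀ P : ℤ[X], ∃ k : Fin (n + 1), P.natDegree ≤ n →
      ∀ i, |(P.coeff i : ℝ)| ≤ K1 * |((P.eval ((k : ℕ) : ℤ) : ℤ) : ℝ)| := by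
    intro P
    by_cases h : P.natDegree ≤ n
    · obtain ⟨k, hk⟩ := hlarge P h
      exact ⟨k, fun _ => hk⟩
    · exact ⟨0, fun h' => absurd h' h⟩
  choose kf hkf using hch
  have hcard : (T.card : ℝ) = ∑ k : Fin (n + 1), ((T.filter fun P => kf P = k).card : ℝ) := by
    rw [Finset.card_eq_sum_card_fiberwise (f := kf) (t := Finset.univ)
      (fun _ _ => Finset.mem_coe.2 (Finset.mem_univ _))]
    push_cast
    rfl
  have hPsi0 : ∀ Q' : ℝ, 0 ≤ Q' → 0 ≤ Psi (xx n τ) (yy n τ) Q' Y := fun Q' hQ' =>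
    Psi_nonneg _ _ hQ' hY.le
  have hbound : ∀ k : Fin (n + 1), ((T.filter fun P => kf P = k).card : ℝ) ≤
      K * (Ke * (Kd * Ks)) * Psi (xx n τ) (yy n τ) Q Y := by
    intro k
    rw [← Finset.card_image_of_injective (T.filter fun P => kf P = k)
      (tr_injective n ((k : ℕ) : ℤ))]
    set T' := (T.filter fun P => kf P = k).image (tr n ((k : ℕ) : ℤ)) with hT'
    -- properties
    have hprop : ∀ P ∈ T', P.natDegree = n ∧ P.IsPrimitive ∧
        Irreducible (P.map (Int.castRingHom ℚ)) ∧ P.coeff n ≠ 0 ∧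
        (P.coeff n).natAbs ≤ m ∧ |(P.discr : ℝ)| ≤ Y ∧
        (∀ i < n, |P.coeff i| ≤ B * |P.coeff n|) := by
      intro P' hP'
      obtain ⟨P, hP, rfl⟩ := Finset.mem_image.1 hP'
      rw [Finset.mem_filter] at hP
      obtain ⟨hP, hPk⟩ := hP
      obtain ⟨hdeg, hprim, hirr, hcoef, hdisc⟩ := hT P hP
      have hlar := hkf P hdeg.le
      rw [hPk] at hlar
      have hne : P.eval ((k : ℕ) : ℤ) ≠ 0 := no_root hn P hdeg hirr _
      obtain ⟨h1, h2, h3⟩ := tr_discr (by omega) ((k : ℕ) : ℤ) hdeg hne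
      have h4 : (tr n ((k : ℕ) : ℤ) P).coeff n = P.eval ((k : ℕ) : ℤ) := by
        rw [← h2, leadingCoeff, h1]
      refine ⟨h1, tr_prim _ P hdeg.le hprim, tr_irred hn _ P hdeg hprim hirr h1, ?_, ?_, ?_, ?_⟩
      · rw [h4]; exact hne
      · rw [h4]
        have h5 := (htr P k Q hdeg.le hcoef).2
        rw [hm, Nat.le_floor_iff (by positivity), Nat.cast_natAbs]
        push_cast
        exact h5
      · rw [h3]; exact hdisc
      · intro i _
        rw [h4]
        have h5 := (htr P k _ hdeg.le hlar).1 i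
        have h6 : |((tr n ((k : ℕ) : ℤ) P).coeff i : ℝ)| ≤
            B * |((P.eval ((k : ℕ) : ℤ) : ℤ) : ℝ)| := by
          refine h5.trans ?_
          rw [← mul_assoc]
          apply mul_le_mul_of_nonneg_right _ (abs_nonneg _)
          exact Nat.le_ceil _
        exact_mod_cast h6
    rcases T'.eq_empty_or_nonempty with he | ⟨P₀, hP₀⟩
    · rw [he, Finset.card_empty, Nat.cast_zero]
      exact mul_nonneg (by positivity) (hPsi0 Q hQ0.le)
    have hm1 : 1 ≤ m := by
      obtain ⟨-, -, -, h3, h4, -⟩ := hprop P₀ hP₀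
      have := Int.natAbs_pos.2 h3
      omega
    have h2J : ((2 : ℝ)) ^ J ≤ 2 * M * Q := by
      have h1 : 2 ^ J ≤ 2 * m := by
        by_cases h : m = 1
        · rw [hJ, h]; simp
        · have h2 : 1 < m := by omega
          have h3 := Nat.pow_pred_clog_lt_self (by norm_num : 1 < 2) h2
          have h4 : 0 < Nat.clog 2 m := Nat.clog_pos (by norm_num) h2
          have h5 : 2 ^ J = 2 * 2 ^ (Nat.clog 2 m).pred := by
            rw [hJ, ← pow_succ']
            congr 1
            exact (Nat.succ_pred_eq_of_pos h4).symm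
          rw [h5]
          omega
      have h2 : ((2 : ℝ)) ^ J ≤ 2 * m := by exact_mod_cast h1
      linarith
    -- dyadic decomposition
    set f : ℤ[X] → ℕ := fun P => Nat.clog 2 (P.coeff n).natAbs with hf
    have hmaps : ∀ P ∈ T', f P ∈ Finset.range (J + 1) := by
      intro P hP
      obtain ⟨-, -, -, -, h4, -⟩ := hprop P hP
      rw [Finset.mem_range, Nat.lt_succ_iff]
      exact Nat.clog_mono_right 2 h4
    have hfib : ∀ j ∈ Finset.range (J + 1), ((T'.filter fun P => f P = j).card : ℝ) ≤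
        K * (Ke * Psi (xx n τ) (yy n τ) ((2 : ℝ) ^ j) Y) := by
      intro j hj
      have hS1 : (1 : ℝ) ≤ 2 ^ j := one_le_pow₀ (by norm_num)
      have hS0 : (0 : ℝ) < 2 ^ j := by positivity
      have h1 := hcount ((2 : ℝ) ^ j) Y hS1 hY (T'.filter fun P => f P = j) (by
        intro P hP
        rw [Finset.mem_filter] at hP
        obtain ⟨h1, h2, h2', h3, h4, h5, h6⟩ := hprop P hP.1
        have hPj : Nat.clog 2 (P.coeff n).natAbs = j := hP.2
        have hpos : 0 < (P.coeff n).natAbs := Int.natAbs_pos.2 h3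
        have habs : |(P.coeff n : ℝ)| = ((P.coeff n).natAbs : ℝ) := by
          rw [Nat.cast_natAbs]
          push_cast
          rfl
        refine ⟨h1, h2, h2', ?_, ?_, h5, h6⟩
        · rw [habs]
          by_cases h : (P.coeff n).natAbs = 1
          · rw [h] at hPj ⊢
            rw [← hPj]
            norm_num
          · have h7 : 1 < (P.coeff n).natAbs := by omega
            have h8 := Nat.pow_pred_clog_lt_self (by norm_num : 1 < 2) h7
            have h9 : 0 < Nat.clog 2 (P.coeff n).natAbs := Nat.clog_pos (by norm_num) h7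
            rw [hPj] at h8 h9
            have h10 : ((2 : ℝ)) ^ j.pred ≤ ((P.coeff n).natAbs : ℝ) := by exact_mod_cast h8.le
            have h11 : (2 : ℝ) ^ j / 2 = 2 ^ j.pred := by
              have : (2 : ℝ) ^ j = 2 ^ j.pred * 2 := by
                rw [← pow_succ]
                congr 1
                exact (Nat.succ_pred_eq_of_pos h9).symm
              rw [this]
              ring
            rw [h11]
            exact h10
        · rw [habs]
          have h8 := Nat.le_pow_clog (by norm_num : 1 < 2) (P.coeff n).natAbs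
          rw [hPj] at h8
          exact_mod_cast h8)
      exact h1.trans (mul_le_mul_of_nonneg_left (hEE _ _ hS0 hY) hK.le)
    rw [Finset.card_eq_sum_card_fiberwise hmaps]
    push_cast
    refine (Finset.sum_le_sum hfib).trans ?_
    rw [← Finset.mul_sum, ← Finset.mul_sum]
    have h3 := hdy J Y hY.le
    have h4 : Psi (xx n τ) (yy n τ) ((2 : ℝ) ^ J) Y ≤ Ks * Psi (xx n τ) (yy n τ) Q Y :=
      (Psi_mono _ _ hx (by positivity) h2J hY.le).trans
        (Psi_scale _ _ (by positivity : (0 : ℝ) < 2 * M) hQ0.le hY.le)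
    calc K * (Ke * ∑ j ∈ Finset.range (J + 1), Psi (xx n τ) (yy n τ) ((2 : ℝ) ^ j) Y)
        ≤ K * (Ke * (Kd * (Ks * Psi (xx n τ) (yy n τ) Q Y))) := by
          apply mul_le_mul_of_nonneg_left _ hK.le
          apply mul_le_mul_of_nonneg_left _ hKe.le
          exact h3.trans (mul_le_mul_of_nonneg_left h4 hKd.le)
      _ = _ := by ring
  rw [hcard]
  calc _ ≤ ∑ k : Fin (n + 1), K * (Ke * (Kd * Ks)) * Psi (xx n τ) (yy n τ) Q Y :=
        Finset.sum_le_sum fun k _ => hbound k
    _ = _ := by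
        rw [Finset.sum_const, Finset.card_univ, Fintype.card_fin, nsmul_eq_mul]
        push_cast
        ring

theorem discr_C_mul (P : ℤ[X]) (hP : P.natDegree = n) (hn : 1 ≤ n) (t : ℤ) (ht : t ≠ 0) :
    |((C t * P).discr : ℝ)| = |(t : ℝ)| ^ (2 * n - 2) * |(P.discr : ℝ)| := by
  obtain ⟨z, hz⟩ := exists_ofRoots (P.map (Int.castRingHom ℂ)) n (by
    rw [natDegree_map_eq_of_injective (RingHom.injective_int _), hP])
  set a : ℂ := (P.map (Int.castRingHom ℂ)).leadingCoeff with ha
  have ha0 : a ≠ 0 := by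
    rw [ha, leadingCoeff_ne_zero, Polynomial.map_ne_zero_iff (RingHom.injective_int _)]
    rintro rfl
    rw [natDegree_zero] at hP
    omega
  have h1 := abs_discr hn ha0 hz
  have ht' : (t : ℂ) ≠ 0 := by exact_mod_cast ht
  have hz2 : (C t * P).map (Int.castRingHom ℂ) = C ((t : ℂ) * a) * ofRoots z := by
    rw [Polynomial.map_mul, map_C, hz]
    simp [mul_assoc]
  have h2 := abs_discr hn (mul_ne_zero ht' ha0) hz2
  rw [h1, h2, norm_mul, Complex.norm_intCast, mul_pow]
  ring

/-- all irreducible polynomials -/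
theorem main_irr (hM1 : ST_M1) (hN2 : ST_N2) (hn : 3 ≤ n) (τ : ℝ) (hτ : 0 < τ)
    (hτ1 : τ < 1) (hτ2 : τ < 2 * th0 n - 1) :
    ∃ K : ℝ, 0 < K ∧ ∀ Q Y : ℝ, 1 ≤ Q → 0 < Y →
      ∀ T : Finset ℤ[X], (∀ P ∈ T, P.natDegree = n ∧
        Irreducible (P.map (Int.castRingHom ℚ)) ∧
        (∀ i, |(P.coeff i : ℝ)| ≤ Q) ∧ |(P.discr : ℝ)| ≤ Y) →
      (T.card : ℝ) ≤ K * Psi (xx n τ) (yy n τ) Q Y := by
  classical
  obtain ⟨K, hK, hprim⟩ := main_prim hM1 hN2 (by omega : 2 ≤ n) τ hτ hτ1 hτ2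
  obtain ⟨hθ1, hθ2, -⟩ := exponents (by omega : 2 ≤ n) τ hτ
  have hn0 : (0 : ℝ) < n := by
    have : 0 < n := by omega
    exact_mod_cast this
  have hn3 : (3 : ℝ) ≤ n := by exact_mod_cast hn
  have hcast : ((2 * n - 2 : ℕ) : ℝ) = 2 * n - 2 := by
    rw [Nat.cast_sub (by omega)]
    push_cast
    ring
  have hz : ∀ i, 1 < xx n τ i + ((2 * n - 2 : ℕ) : ℝ) * yy n τ i := by
    rw [hcast]
    intro i
    fin_cases i
    · simp only [xx, yy, Fin.zero_eta, Matrix.cons_val_zero]
      have e1 : 2 / (n : ℝ) + (2 * n - 2) * (1 / 2 + 1 / (n : ℝ)) = n + 1 := by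
        field_simp
        ring
      rw [e1]
      linarith
    · simp only [xx, yy, Fin.mk_one, Matrix.cons_val_one, Matrix.cons_val_zero]
      linarith
    · simp only [xx, yy, Fin.reduceFinMk, Matrix.cons_val]
      have e1 : 2 * n * th0 n - (2 * n - 2) * (2 * th0 n - 1 / 2 - τ / 2) +
          (2 * n - 2) * (2 * th0 n - 1 / 2 - τ / 2) = 2 * n * th0 n := by ring
      rw [e1]
      nlinarith
    · simp only [xx, yy, Fin.reduceFinMk, Matrix.cons_val]
      nlinarith
  obtain ⟨Kc, hKc, hcont⟩ := Psi_content (xx n τ) (yy n τ) (2 * n - 2) hz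
  refine ⟨K * Kc, by positivity, ?_⟩
  intro Q Y hQ hY T hT
  have hQ0 : 0 < Q := by linarith
  set N : ℕ := ⌊Q⌋₊ with hN
  set f : ℤ[X] → ℕ := fun P => P.content.natAbs with hf
  have hP0 : ∀ P ∈ T, P ≠ 0 := by
    intro P hP h
    have := (hT P hP).1
    rw [h, natDegree_zero] at this
    omega
  have hcn : ∀ P : ℤ[X], P.content = ((f P : ℕ) : ℤ) := by
    intro P
    have h1 : normalize P.content = P.content := normalize_content
    rw [← Int.abs_eq_normalize] at h1
    rw [hf]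
    simp only
    rw [Int.natCast_natAbs]
    exact h1.symm
  have hf1 : ∀ P ∈ T, 1 ≤ f P := by
    intro P hP
    have h1 : P.content ≠ 0 := by
      rw [Ne, content_eq_zero_iff]
      exact hP0 P hP
    exact Nat.one_le_iff_ne_zero.2 (Int.natAbs_ne_zero.2 h1)
  have hcoef : ∀ P : ℤ[X], ∀ i, (P.coeff i : ℝ) = (f P : ℝ) * (P.primPart.coeff i : ℝ) := by
    intro P i
    have h1 := congrArg (fun p : ℤ[X] => p.coeff i) P.eq_C_content_mul_primPart
    simp only [coeff_C_mul] at h1
    rw [h1, hcn P]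
    push_cast
    ring
  have hmaps : ∀ P ∈ T, f P ∈ Finset.Icc 1 N := by
    intro P hP
    rw [Finset.mem_Icc]
    refine ⟨hf1 P hP, ?_⟩
    rw [hN, Nat.le_floor_iff hQ0.le]
    have h1 : P.primPart.coeff n ≠ 0 := by
      have h2 : P.primPart.natDegree = n := by rw [natDegree_primPart, (hT P hP).1]
      rw [← h2]
      exact leadingCoeff_ne_zero.2 P.primPart_ne_zero
    have h2 : (1 : ℝ) ≤ |(P.primPart.coeff n : ℝ)| := by exact_mod_cast Int.one_le_abs h1
    have h3 := (hT P hP).2.2.1 n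
    rw [hcoef, abs_mul, abs_of_nonneg (by positivity)] at h3
    have h4 : (0 : ℝ) ≤ f P := by positivity
    nlinarith
  have hfib : ∀ t ∈ Finset.Icc 1 N, ((T.filter fun P => f P = t).card : ℝ) ≤
      K * Psi (xx n τ) (yy n τ) (Q / t) (Y / (t : ℝ) ^ (2 * n - 2)) := by
    intro t ht
    obtain ⟨ht1, htN⟩ := Finset.mem_Icc.1 ht
    have ht0 : (0 : ℝ) < t := by exact_mod_cast ht1
    have htQ : (t : ℝ) ≤ Q := by
      rw [hN, Nat.le_floor_iff hQ0.le] at htN
      exact htN
    have hinj : Set.InjOn (fun P : ℤ[X] => P.primPart) ((T.filter fun P => f P = t : Finset ℤ[X]) :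
        Set ℤ[X]) := by
      intro P hP P' hP' h
      have h1 := (Finset.mem_filter.1 (Finset.mem_coe.1 hP)).2
      have h2 := (Finset.mem_filter.1 (Finset.mem_coe.1 hP')).2
      simp only at h
      rw [P.eq_C_content_mul_primPart, P'.eq_C_content_mul_primPart, hcn P, hcn P', h1, h2, h]
    rw [← Finset.card_image_of_injOn hinj]
    apply hprim (Q / t) (Y / (t : ℝ) ^ (2 * n - 2)) (by rw [le_div_iff₀ ht0]; linarith)
      (by positivity)
    intro P' hP'
    obtain ⟨P, hP, rfl⟩ := Finset.mem_image.1 hP'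
    obtain ⟨hPT, hPt⟩ := Finset.mem_filter.1 hP
    obtain ⟨h1, h2, h3, h4⟩ := hT P hPT
    have hd : P.primPart.natDegree = n := by rw [natDegree_primPart, h1]
    have hct : P = C ((t : ℕ) : ℤ) * P.primPart := by
      conv_lhs => rw [P.eq_C_content_mul_primPart, hcn P, hPt]
    refine ⟨hd, P.isPrimitive_primPart, ?_, ?_, ?_⟩
    · have h5 : P.map (Int.castRingHom ℚ) = C ((t : ℕ) : ℚ) *
          P.primPart.map (Int.castRingHom ℚ) := by
        conv_lhs => rw [hct]
        rw [Polynomial.map_mul, map_C]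
        simp
      have htq : ((t : ℕ) : ℚ) ≠ 0 := by
        have : t ≠ 0 := by omega
        exact_mod_cast this
      have h6 : Associated (C ((t : ℕ) : ℚ) * P.primPart.map (Int.castRingHom ℚ))
          (P.primPart.map (Int.castRingHom ℚ)) :=
        associated_unit_mul_left _ _ (isUnit_C.2 (isUnit_iff_ne_zero.2 htq))
      rw [← h5] at h6
      exact h6.irreducible_iff.1 h2
    · intro i
      have h5 := h3 i
      rw [hcoef, hPt, abs_mul, abs_of_pos ht0] at h5
      rw [le_div_iff₀ ht0]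
      linarith
    · have h5 := discr_C_mul P.primPart hd (by omega) ((t : ℕ) : ℤ) (by
        have : t ≠ 0 := by omega
        exact_mod_cast this)
      rw [← hct] at h5
      rw [h5] at h4
      have h6 : |(((t : ℕ) : ℤ) : ℝ)| = (t : ℝ) := by
        push_cast
        exact abs_of_pos ht0
      rw [h6] at h4
      rw [le_div_iff₀ (by positivity)]
      linarith
  rw [Finset.card_eq_sum_card_fiberwise hmaps]
  push_cast
  refine (Finset.sum_le_sum hfib).trans ?_
  rw [← Finset.mul_sum, mul_assoc]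
  exact mul_le_mul_of_nonneg_left (hcont N Q Y hQ0.le hY.le) hK.le

end Pool.Agent.Helper45.HR
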